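import Pool.Agent.K7.H61.TS.Struct

set_option autoImplicit false

namespace Pool.Agent.K7.H61.TS

open Finset Classical

section
variable {V : Type}

/-- non-neighbours of `w` of colour `q`. -/
noncomputable def dl (G : SimpleGraph V) {r : ℕ} (c : V → Fin r) (U : Finset V) (w : V)
    (q : Fin r) : ℕ := (U.filter (fun v => c v = q ∧ ¬ G.Adj w v)).card

/-- neighbours of `w` of colour `q`. -/
noncomputable def nb (G : SimpleGraph V) {r : ℕ} (c : V → Fin r) (U : Finset V) (w : V)
    (q : Fin r) : ℕ := (U.filter (fun v => c v = q ∧ G.Adj w v)).card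

/-- vertices of colour `q`. -/
noncomputable def pt {r : ℕ} (c : V → Fin r) (U : Finset V) (q : Fin r) : ℕ :=
  (U.filter (fun v => c v = q)).card

lemma nb_add_dl (G : SimpleGraph V) {r : ℕ} (c : V → Fin r) (U : Finset V) (w : V) (q : Fin r) :
    nb G c U w q + dl G c U w q = pt c U q := by
  unfold nb dl pt
  rw [← card_filter_add_card_filter_not (s := U.filter (fun v => c v = q)) (fun v => G.Adj w v),
    filter_filter, filter_filter]

lemma sum_dl (G : SimpleGraph V) {r : ℕ} (c : V → Fin r) (U : Finset V) (w : V) :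
    ∑ q, dl G c U w q = (U.filter (fun v => ¬ G.Adj w v)).card := by
  rw [card_eq_sum_card_fiberwise (f := c) (t := (univ : Finset (Fin r))) (fun _ _ => mem_univ _)]
  refine sum_congr rfl fun q _ => ?_
  unfold dl
  rw [filter_filter]
  congr 1
  ext v
  simp only [mem_filter]
  tauto

lemma sum_pt {r : ℕ} (c : V → Fin r) (U : Finset V) : ∑ q, pt c U q = U.card := by
  rw [card_eq_sum_card_fiberwise (f := c) (t := (univ : Finset (Fin r))) (fun _ _ => mem_univ _)]
  rfl

lemma deg_add_dl [Fintype V] (G : SimpleGraph V) {r : ℕ} (c : V → Fin r) (U : Finset V) (w : V) :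
    dF G.Adj univ w + ∑ q, dl G c U w q ≤ Fintype.card V := by
  rw [sum_dl, ← card_univ]
  unfold dF
  rw [← card_union_of_disjoint]
  · exact card_le_card (subset_univ _)
  · rw [disjoint_left]
    intro x hx hx'
    exact (mem_filter.1 hx').2 (mem_filter.1 hx).2

/-- the deficit of the degree. -/
noncomputable def Dw [Fintype V] (G : SimpleGraph V) (r : ℕ) (w : V) : ℝ :=
  (1 - 1 / (r:ℝ)) * Fintype.card V - dF G.Adj univ w

lemma Dw_ge [Fintype V] (G : SimpleGraph V) {r : ℕ} (c : V → Fin r) (U : Finset V) (w : V) :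
    ∑ q, (dl G c U w q : ℝ) - (Fintype.card V : ℝ) / r ≤ Dw G r w := by
  have h := deg_add_dl G c U w
  have h' : (dF G.Adj univ w : ℝ) + ∑ q, (dl G c U w q : ℝ) ≤ Fintype.card V := by exact_mod_cast h
  unfold Dw
  have e : (1 - 1 / (r:ℝ)) * (Fintype.card V : ℝ) = Fintype.card V - (Fintype.card V : ℝ) / r := by
    ring
  rw [e]
  linarith

/-- the common neighbourhood. -/
noncomputable def cN (G : SimpleGraph V) (U A : Finset V) : Finset V :=
  U.filter (fun v => ∀ a ∈ A, G.Adj a v)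

lemma mem_cN {G : SimpleGraph V} {U A : Finset V} {v : V} :
    v ∈ cN G U A ↔ v ∈ U ∧ ∀ a ∈ A, G.Adj a v := by
  unfold cN
  rw [mem_filter]

lemma pt_le (G : SimpleGraph V) {r : ℕ} (c : V → Fin r) (U A : Finset V) (q : Fin r) :
    pt c U q ≤ pt c (cN G U A) q + ∑ w ∈ A, dl G c U w q := by
  unfold pt
  have h1 : U.filter (fun v => c v = q) ⊆ (cN G U A).filter (fun v => c v = q) ∪
      A.biUnion (fun w => U.filter (fun v => c v = q ∧ ¬ G.Adj w v)) := by
    intro v hv
    have h2 := mem_filter.1 hv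
    by_cases h : ∀ a ∈ A, G.Adj a v
    · exact mem_union_left _ (mem_filter.2 ⟨mem_filter.2 ⟨h2.1, h⟩, h2.2⟩)
    · push Not at h
      obtain ⟨a, ha, h3⟩ := h
      exact mem_union_right _ (mem_biUnion.2 ⟨a, ha, mem_filter.2 ⟨h2.1, h2.2, h3⟩⟩)
  refine (card_le_card h1).trans ((card_union_le _ _).trans (Nat.add_le_add_left ?_ _))
  exact card_biUnion_le

/-- the colours of small degree. -/
noncomputable def Zw (G : SimpleGraph V) {r : ℕ} (c : V → Fin r) (U : Finset V) (d : ℝ) (w : V) :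
    Finset (Fin r) := univ.filter (fun q => (nb G c U w q : ℝ) ≤ r * d)

lemma free_Zw [Fintype V] {G : SimpleGraph V} {r : ℕ} {c : V → Fin r} {W : Finset V} {d e : ℝ}
    (hG : G.CliqueFree (r + 1)) (hd0 : 0 ≤ d) (h : Good G c W d e) (w : V) :
    Free c (Miss G c) ((univ \ W).filter (fun v => G.Adj w v)) (Zw G c (univ \ W) d w) := by
  intro f hf hI
  set U := univ \ W with hU
  set Z := Zw G c U d w with hZ
  have hUm : ∀ v ∈ U, v ∉ W := fun v hv => (mem_sdiff.1 hv).2
  have hne : Nonempty V := ⟨w⟩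
  obtain ⟨g, hg1, hg2⟩ := greedy (c := c) (F := Miss G c) Miss.symm (fun a b h => h.1) U d hd0
    (fun u hu => h.miss u (hUm u hu)) (univ \ Z)
    (fun q => U.filter (fun v => c v = q ∧ G.Adj w v ∧ ∀ p ∈ Z, ¬ Miss G c (f p) v)) (by
      intro q hq
      have hqZ := (mem_sdiff.1 hq).2
      refine ⟨filter_subset _ _, fun v hv => (mem_filter.1 hv).2.1, ?_⟩
      have h1 : U.filter (fun v => c v = q ∧ G.Adj w v) ⊆
          U.filter (fun v => c v = q ∧ G.Adj w v ∧ ∀ p ∈ Z, ¬ Miss G c (f p) v) ∪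
            Z.biUnion (fun p => U.filter (Miss G c (f p))) := by
        intro v hv
        have h2 := mem_filter.1 hv
        by_cases h3 : ∀ p ∈ Z, ¬ Miss G c (f p) v
        · exact mem_union_left _ (mem_filter.2 ⟨h2.1, h2.2.1, h2.2.2, h3⟩)
        · push Not at h3
          obtain ⟨p, hp, h4⟩ := h3
          exact mem_union_right _ (mem_biUnion.2 ⟨p, hp, mem_filter.2 ⟨h2.1, h4⟩⟩)
      have h2 : nb G c U w q ≤
          (U.filter (fun v => c v = q ∧ G.Adj w v ∧ ∀ p ∈ Z, ¬ Miss G c (f p) v)).card +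
            ∑ p ∈ Z, dF (Miss G c) U (f p) :=
        (card_le_card h1).trans ((card_union_le _ _).trans (Nat.add_le_add_left card_biUnion_le _))
      have h3 : (∑ p ∈ Z, dF (Miss G c) U (f p) : ℝ) ≤ Z.card * d := by
        calc (∑ p ∈ Z, (dF (Miss G c) U (f p) : ℝ)) ≤ ∑ _p ∈ Z, d :=
              sum_le_sum fun p hp => h.miss _ (hUm _ (mem_filter.1 (hf p hp).1).1)
          _ = _ := by simp
      have h4 : (nb G c U w q : ℝ) ≤
          (U.filter (fun v => c v = q ∧ G.Adj w v ∧ ∀ p ∈ Z, ¬ Miss G c (f p) v)).card +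
            ∑ p ∈ Z, (dF (Miss G c) U (f p) : ℝ) := by exact_mod_cast h2
      have h5 : (r:ℝ) * d < nb G c U w q := by
        by_contra hcon
        push Not at hcon
        exact hqZ (mem_filter.2 ⟨mem_univ _, hcon⟩)
      have h6 : (univ \ Z).card + Z.card = r := by
        rw [card_sdiff_add_card_eq_card (subset_univ Z), card_univ, Fintype.card_fin]
      have h7 : ((univ \ Z).card : ℝ) + Z.card = r := by exact_mod_cast h6
      have h8 : ((univ \ Z).card : ℝ) * d = r * d - Z.card * d := by rw [← h7]; ring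
      rw [h8]
      linarith)
  set k : Fin r → V := fun q => if q ∈ Z then f q else g q with hk
  have hk1 : ∀ q ∈ Z, k q = f q := fun q hq => by rw [hk]; simp only [hq, if_true]
  have hk2 : ∀ q ∉ Z, k q = g q := fun q hq => by rw [hk]; simp only [hq, if_false]
  have hg1' : ∀ q ∉ Z, g q ∈ U ∧ c (g q) = q ∧ G.Adj w (g q) ∧ ∀ p ∈ Z, ¬ Miss G c (f p) (g q) :=
    fun q hq => mem_filter.1 (hg1 q (mem_sdiff.2 ⟨mem_univ _, hq⟩))
  have hcl := clique_join (G := G) (c := c) (A := {w}) (J := univ) (f := k) (by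
      intro a ha b hb hab
      exact absurd ((mem_singleton.1 ha).trans (mem_singleton.1 hb).symm) hab)
    (by
      intro p _
      by_cases hp : p ∈ Z
      · rw [hk1 p hp]; exact (hf p hp).2
      · rw [hk2 p hp]; exact (hg1' p hp).2.1)
    (by
      intro p _ q _
      by_cases hp : p ∈ Z
      · by_cases hq : q ∈ Z
        · rw [hk1 p hp, hk1 q hq]; exact hI p hp q hq
        · rw [hk1 p hp, hk2 q hq]; exact (hg1' q hq).2.2.2 p hp
      · by_cases hq : q ∈ Z
        · rw [hk2 p hp, hk1 q hq]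
          exact fun h => (hg1' p hp).2.2.2 q hq (Miss.symm _ _ h)
        · rw [hk2 p hp, hk2 q hq]
          exact hg2 p (mem_sdiff.2 ⟨mem_univ _, hp⟩) q (mem_sdiff.2 ⟨mem_univ _, hq⟩))
    (by
      intro a ha p _
      rw [mem_singleton.1 ha]
      by_cases hp : p ∈ Z
      · rw [hk1 p hp]; exact (mem_filter.1 (hf p hp).1).2
      · rw [hk2 p hp]; exact (hg1' p hp).2.2.1)
  rw [card_singleton, card_univ, Fintype.card_fin, add_comm] at hcl
  exact hG _ hcl

/-- the structural inequality. -/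
theorem structural [Fintype V] {G : SimpleGraph V} {r : ℕ} (hr : 2 ≤ r) {c : V → Fin r}
    {W : Finset V} {d e : ℝ}
    (hG : G.CliqueFree (r + 1)) (hd0 : 0 ≤ d) (he0 : 0 ≤ e) (h : Good G c W d e)
    (hbig : 2 * r * (e + r * d) ≤ (Fintype.card V : ℝ) / r) {θ : ℝ} (hθ : 0 ≤ θ)
    (hS : ∀ q, (Fintype.card V : ℝ) / r - θ ≤ pt c (univ \ W) q) {A : Finset V} (hAW : A ⊆ W)
    {Q : Finset (Fin r)} (hAQ : A.card + Q.card = r + 1)
    (hQ : ∀ q ∈ Q, ∃ v ∈ cN G (univ \ W) A, c v = q)
    (hfree : Free c (Miss G c) (cN G (univ \ W) A) Q) :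
    ∃ Q' ⊆ Q, Free c (Miss G c) (cN G (univ \ W) A) Q' ∧ ∀ J ⊆ Q',
      ((J.card : ℝ) - 1) * ((Fintype.card V : ℝ) / r) - ∑ q ∈ J, (pt c (cN G (univ \ W) A) q : ℝ)
        - 3 * r * θ ≤ ∑ w ∈ A, Dw G r w := by
  set U := univ \ W with hU
  set β : ℝ := (Fintype.card V : ℝ) / r with hβ
  have hr2 : (2:ℝ) ≤ r := by exact_mod_cast hr
  have hr0 : (0:ℝ) < r := by linarith
  have hAr : (A.card : ℝ) ≤ r + 1 := by
    have : A.card ≤ r + 1 := by omega
    exact_mod_cast this
  have hDnn : ∀ w ∈ W, 0 ≤ Dw G r w := fun w hw => by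
    have := h.degW w hw
    unfold Dw; linarith
  have hJr : ∀ J : Finset (Fin r), (J.card : ℝ) ≤ r := by
    intro J
    have := card_le_univ J
    rw [Fintype.card_fin] at this
    exact_mod_cast this
  have hpt : ∀ (J : Finset (Fin r)), (J.card : ℝ) * (β - θ) -
      ∑ q ∈ J, (pt c (cN G U A) q : ℝ) ≤ ∑ w ∈ A, ∑ q ∈ J, (dl G c U w q : ℝ) := by
    intro J
    rw [sum_comm]
    have h1 : ∀ q ∈ J, (β - θ) - (pt c (cN G U A) q : ℝ) ≤ ∑ w ∈ A, (dl G c U w q : ℝ) := by
      intro q _
      have h2 := pt_le G c U A q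
      have h3 : (pt c U q : ℝ) ≤ pt c (cN G U A) q + ∑ w ∈ A, (dl G c U w q : ℝ) := by
        exact_mod_cast h2
      have h4 := hS q
      linarith
    calc (J.card : ℝ) * (β - θ) - ∑ q ∈ J, (pt c (cN G U A) q : ℝ) =
          ∑ q ∈ J, ((β - θ) - (pt c (cN G U A) q : ℝ)) := by
            rw [sum_sub_distrib, sum_const, nsmul_eq_mul]
      _ ≤ _ := sum_le_sum h1
  have hdlnn : ∀ w q, (0:ℝ) ≤ dl G c U w q := fun w q => by positivity
  have hnbdl : ∀ w q, (nb G c U w q : ℝ) + dl G c U w q = pt c U q := fun w q => by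
    exact_mod_cast nb_add_dl G c U w q
  have hsize : ∀ q, β - e ≤ pt c U q := fun q => by
    have := (abs_le.1 (h.size q)).1
    unfold pt
    linarith
  by_cases hI : ∀ w ∈ A, ¬ Zw G c U d w ⊆ Q
  · -- Case I
    refine ⟨Q, Subset.refl _, hfree, fun J hJ => ?_⟩
    have hw : ∀ w ∈ A, ∑ q ∈ J, (dl G c U w q : ℝ) - (e + r * d) ≤ Dw G r w := by
      intro w hw
      obtain ⟨p, hp, hpQ⟩ := not_subset.1 (hI w hw)
      have h1 : (nb G c U w p : ℝ) ≤ r * d := (mem_filter.1 hp).2
      have h2 := Dw_ge G c U w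
      have h3 : ∑ q ∈ insert p J, (dl G c U w q : ℝ) ≤ ∑ q, (dl G c U w q : ℝ) :=
        sum_le_sum_of_subset_of_nonneg (subset_univ _) fun q _ _ => hdlnn w q
      rw [sum_insert (fun hpJ => hpQ (hJ hpJ))] at h3
      have h4 := hnbdl w p
      have h5 := hsize p
      linarith
    have h1 := sum_le_sum hw
    rw [sum_sub_distrib, sum_const, nsmul_eq_mul] at h1
    have h2 := hpt J
    have h3 : (A.card : ℝ) * (e + r * d) ≤ β := by
      refine le_trans ?_ hbig
      apply mul_le_mul_of_nonneg_right _ (by positivity)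
      linarith
    have h4 : (J.card : ℝ) * θ ≤ r * θ := mul_le_mul_of_nonneg_right (hJr J) hθ
    have h5 : (J.card : ℝ) * (β - θ) = J.card * β - J.card * θ := by ring
    have h6 : 0 ≤ r * θ := by positivity
    linarith
  push Not at hI
  obtain ⟨w0, hw0, hZ0⟩ := hI
  have hfree0 : Free c (Miss G c) (cN G U A) (Zw G c U d w0) := by
    refine (free_Zw hG hd0 h w0).mono ?_
    intro v hv
    have := mem_cN.1 hv
    exact mem_filter.2 ⟨this.1, this.2 w0 hw0⟩
  refine ⟨Zw G c U d w0, hZ0, hfree0, fun J hJ => ?_⟩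
  have hD0 : ∑ q ∈ J, (dl G c U w0 q : ℝ) - β ≤ Dw G r w0 := by
    have h2 := Dw_ge G c U w0
    have h3 : ∑ q ∈ J, (dl G c U w0 q : ℝ) ≤ ∑ q, (dl G c U w0 q : ℝ) :=
      sum_le_sum_of_subset_of_nonneg (subset_univ _) fun q _ _ => hdlnn w0 q
    linarith
  have hnn : 0 ≤ ∑ q ∈ J, (pt c (cN G U A) q : ℝ) := sum_nonneg fun q _ => by positivity
  have h4 : (J.card : ℝ) * θ ≤ r * θ := mul_le_mul_of_nonneg_right (hJr J) hθ
  by_cases hIIa : ∃ w ∈ A, w ≠ w0 ∧ 2 ≤ (Zw G c U d w).card
  · obtain ⟨w1, hw1, hne, hc2⟩ := hIIa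
    obtain ⟨q1, hq1, q2, hq2, hq12⟩ := one_lt_card.1 hc2
    have hD1 : β - 2 * e - 2 * (r * d) ≤ Dw G r w1 := by
      have h2 := Dw_ge G c U w1
      have h3 : ∑ q ∈ ({q1, q2} : Finset (Fin r)), (dl G c U w1 q : ℝ) ≤
          ∑ q, (dl G c U w1 q : ℝ) :=
        sum_le_sum_of_subset_of_nonneg (subset_univ _) fun q _ _ => hdlnn w1 q
      rw [sum_pair hq12] at h3
      have a1 : (nb G c U w1 q1 : ℝ) ≤ r * d := (mem_filter.1 hq1).2
      have a2 : (nb G c U w1 q2 : ℝ) ≤ r * d := (mem_filter.1 hq2).2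
      have a3 := hnbdl w1 q1
      have a4 := hnbdl w1 q2
      have a5 := hsize q1
      have a6 := hsize q2
      linarith
    have hD00 : (J.card : ℝ) * (β - θ - r * d) - β ≤ Dw G r w0 := by
      refine le_trans ?_ hD0
      have : ∑ _q ∈ J, (β - θ - r * d) ≤ ∑ q ∈ J, (dl G c U w0 q : ℝ) := by
        refine sum_le_sum fun q hq => ?_
        have a1 : (nb G c U w0 q : ℝ) ≤ r * d := (mem_filter.1 (hJ hq)).2
        have a3 := hnbdl w0 q
        have a5 := hS q
        linarith
      rw [sum_const, nsmul_eq_mul] at this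
      linarith
    have hsum : Dw G r w0 + Dw G r w1 ≤ ∑ w ∈ A, Dw G r w := by
      rw [← sum_pair hne.symm]
      apply sum_le_sum_of_subset_of_nonneg
      · intro w hw
        rcases mem_insert.1 hw with rfl | hw
        · exact hw0
        · rw [mem_singleton.1 hw]; exact hw1
      · intro w hw _
        exact hDnn w (hAW hw)
    have h5 : (J.card : ℝ) * (r * d) ≤ r * (r * d) :=
      mul_le_mul_of_nonneg_right (hJr J) (by positivity)
    have h6 : (J.card : ℝ) * (β - θ - r * d) = J.card * β - J.card * θ - J.card * (r * d) := by ring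
    have h7 : 2 * e ≤ 2 * r * e := by nlinarith
    have h8 : 2 * (r * d) + r * (r * d) ≤ 2 * r * (r * d) := by
      have : 0 ≤ r * d := by positivity
      nlinarith
    have h9 : 2 * r * (e + r * d) = 2 * r * e + 2 * r * (r * d) := by ring
    have h10 : 0 ≤ r * θ := by positivity
    linarith
  · push Not at hIIa
    have hw : ∀ w ∈ A.erase w0, ∑ q ∈ J, (dl G c U w q : ℝ) - θ ≤ Dw G r w := by
      intro w hw
      have hwA := (mem_erase.1 hw).2
      have hlt := hIIa w hwA (mem_erase.1 hw).1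
      obtain ⟨p, hp⟩ := h.low w (hAW hwA)
      have hpZ : p ∈ Zw G c U d w := by
        refine mem_filter.2 ⟨mem_univ _, ?_⟩
        unfold nb
        refine hp.trans ?_
        nlinarith
      have hZ1 : Zw G c U d w = {p} := by
        symm
        apply eq_of_subset_of_card_le (singleton_subset_iff.2 hpZ)
        rw [card_singleton]; omega
      have hfr := free_Zw hG hd0 h w
      rw [← hU, hZ1] at hfr
      have hno : ∀ v ∈ U, c v = p → ¬ G.Adj w v := by
        intro v hv hcv hadj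
        refine hfr (fun _ => v) ?_ ?_
        · intro q hq
          rw [mem_singleton.1 hq]
          exact ⟨mem_filter.2 ⟨hv, hadj⟩, hcv⟩
        · intro q _ q' _ hF
          exact hF.1 rfl
      have hpQ : p ∉ Q := by
        intro hpQ
        obtain ⟨v, hv, hcv⟩ := hQ p hpQ
        have h1 := mem_cN.1 hv
        exact hno v h1.1 hcv (h1.2 w hwA)
      have hnb0 : nb G c U w p = 0 := by
        unfold nb
        rw [card_eq_zero, filter_eq_empty_iff]
        intro v hv h2
        exact hno v hv h2.1 h2.2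
      have h2 := Dw_ge G c U w
      have h3 : ∑ q ∈ insert p J, (dl G c U w q : ℝ) ≤ ∑ q, (dl G c U w q : ℝ) :=
        sum_le_sum_of_subset_of_nonneg (subset_univ _) fun q _ _ => hdlnn w q
      rw [sum_insert (fun hpJ => hpQ (hZ0 (hJ hpJ)))] at h3
      have h4 := hnbdl w p
      rw [hnb0] at h4
      push_cast at h4
      have h5 := hS p
      linarith
    have h1 := sum_le_sum hw
    rw [sum_sub_distrib, sum_const, nsmul_eq_mul] at h1
    have h2 := hpt J
    rw [← add_sum_erase A _ hw0] at h2 ⊢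
    have h3 : ((A.erase w0).card : ℝ) * θ ≤ r * θ := by
      apply mul_le_mul_of_nonneg_right _ hθ
      rw [card_erase_of_mem hw0]
      have : A.card - 1 ≤ r := by omega
      exact_mod_cast this
    have h5 : (J.card : ℝ) * (β - θ) = J.card * β - J.card * θ := by ring
    have h10 : 0 ≤ r * θ := by positivity
    linarith

end

end Pool.Agent.K7.H61.TS
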