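import Pool.Agent.K7.H61.TS.Upper

set_option autoImplicit false

namespace Pool.Agent.K7.H61.TS

open Finset Classical

section
variable {V : Type}

/-- the clique that a missing pair creates. -/
lemma ext_pair [Fintype V] {G : SimpleGraph V} {r : ℕ} {c : V → Fin r} {W : Finset V}
    (hG : G.CliqueFree (r + 1))
    (hind : ∀ u ∉ W, ∀ v ∉ W, c u = c v → ¬ G.Adj u v)
    (hsat : ∀ x y, x ≠ y → ¬ G.Adj x y → ¬ (G ⊔ SimpleGraph.edge x y).CliqueFree (r + 1))
    {x y : V} (hx : x ∈ univ \ W) (hy : y ∈ univ \ W) (hF : Miss G c x y) :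
    ∃ (A : Finset V) (Q : Finset (Fin r)) (k : Fin r → V), A ⊆ W ∧
      (∀ a ∈ A, ∀ b ∈ A, a ≠ b → G.Adj a b) ∧ A.card + Q.card = r + 1 ∧ c x ∈ Q ∧ c y ∈ Q ∧
      x ∈ cN G (univ \ W) A ∧ y ∈ cN G (univ \ W) A ∧ ∀ p ∈ Q, p ≠ c x → p ≠ c y →
        k p ∈ cN G (univ \ W) A ∧ c (k p) = p ∧ ¬ Miss G c (k p) x ∧ ¬ Miss G c (k p) y ∧
          ∀ q ∈ Q, q ≠ c x → q ≠ c y → ¬ Miss G c (k p) (k q) := by
  have hxy : x ≠ y := fun h => hF.1 (by rw [h])
  have hs := hsat x y hxy hF.2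
  unfold SimpleGraph.CliqueFree at hs
  push Not at hs
  obtain ⟨s, hs⟩ := hs
  have hxs : x ∈ s := hG.mem_of_sup_edge_isNClique hs
  have hys : y ∈ s := by
    rw [SimpleGraph.edge_comm] at hs
    exact hG.mem_of_sup_edge_isNClique hs
  have hadj : ∀ a ∈ s, ∀ b ∈ s, a ≠ b → ¬ (a = x ∧ b = y) → ¬ (a = y ∧ b = x) → G.Adj a b := by
    intro a ha b hb hab h1 h2
    have h3 := hs.1 (mem_coe.2 ha) (mem_coe.2 hb) hab
    rw [SimpleGraph.sup_adj, SimpleGraph.edge_adj] at h3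
    rcases h3 with h3 | ⟨h3 | h3, -⟩
    · exact h3
    · exact absurd h3 h1
    · exact absurd h3 h2
  set K := (s.erase x).erase y with hK
  have hKc : K.card = r - 1 := by
    rw [hK, card_erase_of_mem (mem_erase.2 ⟨hxy.symm, hys⟩), card_erase_of_mem hxs, hs.2]
    rfl
  have hKm : ∀ a ∈ K, a ∈ s ∧ a ≠ x ∧ a ≠ y := fun a ha => by
    have h1 := mem_erase.1 ha
    have h2 := mem_erase.1 h1.2
    exact ⟨h2.2, h2.1, h1.1⟩
  have hKK : ∀ a ∈ K, ∀ b ∈ K, a ≠ b → G.Adj a b := by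
    intro a ha b hb hab
    exact hadj a (hKm a ha).1 b (hKm b hb).1 hab (fun h => (hKm a ha).2.1 h.1)
      (fun h => (hKm a ha).2.2 h.1)
  have hKx : ∀ a ∈ K, G.Adj a x := fun a ha =>
    hadj a (hKm a ha).1 x hxs (hKm a ha).2.1 (fun h => (hKm a ha).2.1 h.1)
      (fun h => (hKm a ha).2.2 h.1)
  have hKy : ∀ a ∈ K, G.Adj a y := fun a ha =>
    hadj a (hKm a ha).1 y hys (hKm a ha).2.2 (fun h => (hKm a ha).2.1 h.1)
      (fun h => (hKm a ha).2.2 h.1)
  set A := K.filter (fun a => a ∈ W) with hA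
  set R := K.filter (fun a => ¬ a ∈ W) with hR
  have hAR : A.card + R.card = r - 1 := by
    rw [← hKc]; exact card_filter_add_card_filter_not _
  have hxW : x ∉ W := (mem_sdiff.1 hx).2
  have hyW : y ∉ W := (mem_sdiff.1 hy).2
  have hRm : ∀ a ∈ R, a ∈ K ∧ a ∉ W := fun a ha => mem_filter.1 ha
  have hAm : ∀ a ∈ A, a ∈ K ∧ a ∈ W := fun a ha => mem_filter.1 ha
  set T := R.image c with hT
  have hTc : T.card = R.card := by
    apply card_image_of_injOn
    intro a ha b hb hab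
    by_contra hne
    exact hind a (hRm a ha).2 b (hRm b hb).2 hab (hKK a (hRm a ha).1 b (hRm b hb).1 hne)
  have hiT : c x ∉ T := by
    intro h
    obtain ⟨a, ha, h1⟩ := mem_image.1 h
    exact hind a (hRm a ha).2 x hxW h1 (hKx a (hRm a ha).1)
  have hjT : c y ∉ T := by
    intro h
    obtain ⟨a, ha, h1⟩ := mem_image.1 h
    exact hind a (hRm a ha).2 y hyW h1 (hKy a (hRm a ha).1)
  have hmem : ∀ p ∈ insert (c x) (insert (c y) T), p ≠ c x → p ≠ c y → ∃ a ∈ R, c a = p := by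
    intro p hp h1 h2
    rcases mem_insert.1 hp with h | h
    · exact absurd h h1
    rcases mem_insert.1 h with h | h
    · exact absurd h h2
    exact mem_image.1 h
  have hr1 : 1 ≤ r := by
    have := (c x).isLt
    omega
  have hneV : Nonempty V := ⟨x⟩
  choose! k hk1 hk2 using hmem
  have hcN : ∀ a ∈ R, a ∈ cN G (univ \ W) A := by
    intro a ha
    refine mem_cN.2 ⟨mem_sdiff.2 ⟨mem_univ _, (hRm a ha).2⟩, fun b hb => ?_⟩
    exact hKK b (hAm b hb).1 a (hRm a ha).1 fun h => (hRm a ha).2 (h ▸ (hAm b hb).2)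
  refine ⟨A, insert (c x) (insert (c y) T), k, fun a ha => (hAm a ha).2,
    fun a ha b hb hab => hKK a (hAm a ha).1 b (hAm b hb).1 hab, ?_, mem_insert_self _ _,
    mem_insert_of_mem (mem_insert_self _ _), mem_cN.2 ⟨hx, fun a ha => hKx a (hAm a ha).1⟩,
    mem_cN.2 ⟨hy, fun a ha => hKy a (hAm a ha).1⟩, ?_⟩
  · rw [card_insert_of_notMem, card_insert_of_notMem hjT, hTc]
    · have h2 : 2 ≤ r := by
        have h3 := (c x).isLt
        have h4 := (c y).isLt
        have h5 : (c x : ℕ) ≠ c y := fun h => hF.1 (Fin.ext h)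
        omega
      omega
    · rw [mem_insert, not_or]
      exact ⟨hF.1, hiT⟩
  · intro p hp h1 h2
    have e1 := hk1 p hp h1 h2
    have e2 := hk2 p hp h1 h2
    refine ⟨hcN _ e1, e2, fun h => h.2 (hKx _ (hRm _ e1).1), fun h => h.2 (hKy _ (hRm _ e1).1), ?_⟩
    intro q hq h3 h4 hM
    have e3 := hk1 q hq h3 h4
    apply hM.2
    apply hKK _ (hRm _ e1).1 _ (hRm _ e3).1
    intro h
    exact hM.1 (by rw [h])

/-- a maximal matching of a relation. -/
lemma exists_matching [Fintype V] {F : V → V → Prop} (U : Finset V) :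
    ∃ M : Finset (V × V), (∀ e ∈ M, e.1 ∈ U ∧ e.2 ∈ U ∧ F e.1 e.2) ∧
      (∀ e ∈ M, ∀ e' ∈ M, e.1 = e'.1 → e = e') ∧ (∀ e ∈ M, ∀ e' ∈ M, e.2 = e'.2 → e = e') ∧
      ∀ u ∈ U, ∀ v ∈ U, F u v → (∃ e ∈ M, u = e.1 ∨ u = e.2 ∨ v = e.1 ∨ v = e.2) := by
  set P : Finset (V × V) → Prop := fun M => (∀ e ∈ M, e.1 ∈ U ∧ e.2 ∈ U ∧ F e.1 e.2) ∧
      (∀ e ∈ M, ∀ e' ∈ M, e.1 = e'.1 → e = e') ∧ (∀ e ∈ M, ∀ e' ∈ M, e.2 = e'.2 → e = e') with hP
  obtain ⟨M, hM, hmax⟩ := exists_max_image ((univ : Finset (Finset (V × V))).filter P) card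
    ⟨∅, mem_filter.2 ⟨mem_univ _, by simp [hP]⟩⟩
  have hMP := (mem_filter.1 hM).2
  refine ⟨M, hMP.1, hMP.2.1, hMP.2.2, ?_⟩
  intro u hu v hv huv
  by_contra hcon
  push Not at hcon
  have hnot : (u, v) ∉ M := fun h => (hcon _ h).1 rfl
  have := hmax (insert (u, v) M) (mem_filter.2 ⟨mem_univ _, ?_, ?_, ?_⟩)
  · rw [card_insert_of_notMem hnot] at this
    omega
  · intro e he
    rcases mem_insert.1 he with rfl | he
    · exact ⟨hu, hv, huv⟩
    · exact hMP.1 e he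
  · intro e he e' he' h
    rcases mem_insert.1 he with h1 | h1
    · rcases mem_insert.1 he' with h2 | h2
      · rw [h1, h2]
      · rw [h1] at h; exact absurd h (hcon e' h2).1
    · rcases mem_insert.1 he' with h2 | h2
      · rw [h2] at h; exact absurd h.symm (hcon e h1).1
      · exact hMP.2.1 e h1 e' h2 h
  · intro e he e' he' h
    rcases mem_insert.1 he with h1 | h1
    · rcases mem_insert.1 he' with h2 | h2
      · rw [h1, h2]
      · rw [h1] at h; exact absurd h (hcon e' h2).2.2.2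
    · rcases mem_insert.1 he' with h2 | h2
      · rw [h2] at h; exact absurd h.symm (hcon e h1).2.2.2
      · exact hMP.2.2 e h1 e' h2 h

lemma pigeon' {α β : Type} (f : α → β) (s : Finset α) (t : Finset β) (hf : ∀ a ∈ s, f a ∈ t)
    (hs : s.Nonempty) : ∃ y, ∃ L ⊆ s, L.Nonempty ∧ (∀ a ∈ L, f a = y) ∧
      s.card ≤ t.card * L.card := by
  obtain ⟨y, hy, h⟩ := pigeon f s t hf hs
  refine ⟨y, s.filter (fun a => f a = y), filter_subset _ _, ?_, fun a ha => (mem_filter.1 ha).2, h⟩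
  rw [← card_pos]
  by_contra hcon
  have h0 : (s.filter (fun a => f a = y)).card = 0 := by omega
  rw [h0, mul_zero] at h
  have := card_pos.2 hs
  omega

end

/-- from the powers to the real power. -/
lemma power_arith {C Y : ℝ} (hC : 0 ≤ C) {k l : ℕ} (hk : 2 ≤ k) (hl : 1 ≤ l)
    (h : ∀ h : ℕ, h ^ (k - 1) ≤ l → (h * l : ℝ) ≤ C * (2 * Y + C)) :
    (l : ℝ) ≤ (4 * C + 2 * C ^ 2 + 1) * (1 + (max Y 0) ^ (((k:ℝ) - 1) / k)) := by
  have hex : ∃ a : ℕ, l < (a + 1) ^ (k - 1) := ⟨l, by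
    calc l < l + 1 := Nat.lt_succ_self l
      _ = (l + 1) ^ 1 := (pow_one _).symm
      _ ≤ (l + 1) ^ (k - 1) := Nat.pow_le_pow_right (by omega) (by omega)⟩
  set a := Nat.find hex with ha
  have ha1 : l < (a + 1) ^ (k - 1) := Nat.find_spec hex
  have ha0 : 1 ≤ a := by
    by_contra hcon
    have : a = 0 := by omega
    rw [this] at ha1
    simp at ha1
    omega
  have ha2 : a ^ (k - 1) ≤ l := by
    have := Nat.find_min hex (m := a - 1) (by omega)
    have e : a - 1 + 1 = a := by omega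
    rw [e] at this
    omega
  have h1 := h a ha2
  set Y' := max Y 0 with hY'
  have hY0 : 0 ≤ Y' := le_max_right _ _
  have hYY : Y ≤ Y' := le_max_left _ _
  set C2 := 4 * C + 2 * C ^ 2 + 1 with hC2
  have hC21 : 1 ≤ C2 := by rw [hC2]; nlinarith [sq_nonneg C]
  have hC2' : 0 < C2 := by linarith
  have h2 : 2 * (a * l : ℝ) ≤ C2 * (1 + Y') := by
    have h3 : C * (2 * Y + C) ≤ C * (2 * Y' + C) := by
      apply mul_le_mul_of_nonneg_left _ hC; linarith
    have h4 : C2 * (1 + Y') = C * (4 * Y') + 2 * C ^ 2 + 4 * C + 2 * C ^ 2 * Y' + (1 + Y') := by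
      rw [hC2]; ring
    have h5 : 0 ≤ C ^ 2 * Y' := by positivity
    nlinarith
  have hl0 : (0:ℝ) < l := by exact_mod_cast hl
  have h3 : (l : ℝ) ^ k ≤ (C2 * (1 + Y')) ^ (k - 1) := by
    have e1 : (l : ℝ) ≤ (2 * a) ^ (k - 1) := by
      have : l ≤ (2 * a) ^ (k - 1) := by
        refine ha1.le.trans ?_
        apply Nat.pow_le_pow_left; omega
      exact_mod_cast this
    calc (l : ℝ) ^ k = l * l ^ (k - 1) := by
          rw [← pow_succ']; congr 1; omega
      _ ≤ (2 * a) ^ (k - 1) * l ^ (k - 1) := by gcongr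
      _ = (2 * (a * l)) ^ (k - 1) := by rw [← mul_pow]; ring
      _ ≤ _ := by gcongr
  have hk0 : (0:ℝ) < k := by positivity
  have hk1 : (1:ℝ) ≤ k := by exact_mod_cast (by omega : 1 ≤ k)
  set α : ℝ := ((k:ℝ) - 1) / k with hα
  have hα0 : 0 ≤ α := div_nonneg (by linarith) hk0.le
  have hα1 : α ≤ 1 := by rw [hα, div_le_one hk0]; linarith
  have h4 : (l : ℝ) ≤ (C2 * (1 + Y')) ^ α := by
    have e1 : ((l : ℝ) ^ k) ^ (1 / (k:ℝ)) = l := by
      rw [one_div]
      exact Real.pow_rpow_inv_natCast hl0.le (by omega)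
    have e2 : ((C2 * (1 + Y')) ^ (k - 1)) ^ (1 / (k:ℝ)) = (C2 * (1 + Y')) ^ α := by
      rw [← Real.rpow_natCast, ← Real.rpow_mul (by positivity), hα]
      congr 1
      rw [Nat.cast_sub (by omega)]
      push_cast
      ring
    rw [← e1, ← e2]
    exact Real.rpow_le_rpow (by positivity) h3 (by positivity)
  refine h4.trans ?_
  rw [Real.mul_rpow hC2'.le (by linarith)]
  have h5 : C2 ^ α ≤ C2 := by
    calc C2 ^ α ≤ C2 ^ (1:ℝ) := Real.rpow_le_rpow_of_exponent_le hC21 hα1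
      _ = C2 := Real.rpow_one _
  have h6 : (1 + Y') ^ α ≤ 1 + Y' ^ α := by
    have := NNReal.rpow_add_le_add_rpow 1 ⟨Y', hY0⟩ hα0 hα1
    have h7 := NNReal.coe_le_coe.2 this
    push_cast at h7
    rw [Real.one_rpow] at h7
    exact h7
  exact mul_le_mul h5 h6 (by positivity) hC2'.le

/-- The order of magnitude. -/
noncomputable def Psi (r : ℕ) (n m : ℝ) : ℝ :=
  1 + ∑ j ∈ Finset.Icc 2 r, (max (m - ((j:ℝ) - 1) * n / r) 0) ^ (((j:ℝ) - 1) / j)

lemma Psi_ge {r : ℕ} {n m : ℝ} {k : ℕ} (h2 : 2 ≤ k) (hk : k ≤ r) :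
    1 + (max (m - ((k:ℝ) - 1) * (n / r)) 0) ^ (((k:ℝ) - 1) / k) ≤ Psi r n m := by
  unfold Psi
  have hnn : ∀ j ∈ Finset.Icc 2 r,
      0 ≤ (max (m - ((j:ℝ) - 1) * n / r) 0) ^ (((j:ℝ) - 1) / j) :=
    fun j _ => Real.rpow_nonneg (le_max_right _ _) _
  have e : ((k:ℝ) - 1) * (n / r) = ((k:ℝ) - 1) * n / r := by ring
  rw [e]
  have : k ∈ Finset.Icc 2 r := mem_Icc.2 ⟨h2, hk⟩
  linarith [single_le_sum hnn this]

/-- The upper bound. -/
theorem upper {r : ℕ} (hr : 2 ≤ r) : ∃ C : ℝ, 0 < C ∧ ∃ n0 : ℕ, ∀ (V : Type) [Fintype V]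
    (G : SimpleGraph V) (m : ℝ), n0 ≤ Fintype.card V → G.CliqueFree (r + 1) →
    (∀ x y, x ≠ y → ¬ G.Adj x y → ¬ (G ⊔ SimpleGraph.edge x y).CliqueFree (r + 1)) →
    m ≤ Fintype.card V →
    (1 - 1 / (r:ℝ)) * (Fintype.card V : ℝ) ^ 2 - r - 2 * m ≤ F2 G.Adj univ →
    ∃ D : Finset V, (∃ c : V → Fin r, ∀ x ∉ D, ∀ y ∉ D, (G.Adj x y ↔ c x ≠ c y)) ∧
      (D.card : ℝ) ≤ C * Psi r (Fintype.card V) m := by
  set E := 200 * r ^ 3 with hE
  set W0 := 48 * r * E with hW0
  obtain ⟨C0, hC0, hcb⟩ := class_bound hr W0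
  set P0 : ℕ := 2 ^ W0 * (2 ^ r * (r * r)) with hP0
  refine ⟨W0 + 2 * P0 * (4 * C0 + 2 * C0 ^ 2 + 1) + 1, by positivity, 768 * r * E ^ 2, ?_⟩
  intro V _ G m hn0 hG hsat hm he
  have hr2 : (2:ℝ) ≤ r := by exact_mod_cast hr
  have hr0 : (0:ℝ) < r := by linarith
  set n : ℝ := (Fintype.card V : ℝ) with hn
  have hnn : 0 ≤ n := by positivity
  have hmn : m ≤ n := hm
  obtain ⟨c, W, hWc, hgood⟩ := structure_thm hr E hE V G hn0 hG (by linarith)
  set U := univ \ W with hU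
  have hEr : (E:ℝ) = 200 * (r:ℝ) ^ 3 := by rw [hE]; push_cast; ring
  have hE0 : (0:ℝ) < E := by rw [hEr]; positivity
  obtain ⟨M, hM1, hM2, hM3, hM4⟩ := exists_matching (F := Miss G c) U
  refine ⟨W ∪ (M.image Prod.fst ∪ M.image Prod.snd), ⟨c, ?_⟩, ?_⟩
  · intro x hx y hy
    simp only [mem_union, not_or, mem_image, not_exists, not_and] at hx hy
    constructor
    · intro h h'
      exact hgood.indep x hx.1 y hy.1 h' h
    · intro h
      by_contra h'
      obtain ⟨e, he, h1⟩ := hM4 x (mem_sdiff.2 ⟨mem_univ _, hx.1⟩) y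
        (mem_sdiff.2 ⟨mem_univ _, hy.1⟩) ⟨h, h'⟩
      rcases h1 with h1 | h1 | h1 | h1
      · exact hx.2.1 e he h1.symm
      · exact hx.2.2 e he h1.symm
      · exact hy.2.1 e he h1.symm
      · exact hy.2.2 e he h1.symm
  · have hc1 : ((W ∪ (M.image Prod.fst ∪ M.image Prod.snd)).card : ℝ) ≤ W0 + 2 * M.card := by
      have : (W ∪ (M.image Prod.fst ∪ M.image Prod.snd)).card ≤ W0 + 2 * M.card := by
        refine (card_union_le _ _).trans ?_
        have h1 := card_union_le (M.image Prod.fst) (M.image Prod.snd)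
        have h2 := card_image_le (s := M) (f := (Prod.fst : V × V → V))
        have h3 := card_image_le (s := M) (f := (Prod.snd : V × V → V))
        omega
      exact_mod_cast this
    have hPsi1 : 1 ≤ Psi r n m := by
      unfold Psi
      have : 0 ≤ ∑ j ∈ Finset.Icc 2 r,
          (max (m - ((j:ℝ) - 1) * n / r) 0) ^ (((j:ℝ) - 1) / j) :=
        sum_nonneg fun j _ => Real.rpow_nonneg (le_max_right _ _) _
      linarith
    have hMc : (M.card : ℝ) ≤ P0 * ((4 * C0 + 2 * C0 ^ 2 + 1) * Psi r n m) := by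
      rcases M.eq_empty_or_nonempty with hM0 | hM0
      · rw [hM0]
        simp only [card_empty, Nat.cast_zero]
        positivity
      have hex : ∀ e ∈ M, ∃ (A : Finset V) (Q : Finset (Fin r)) (k : Fin r → V), A ⊆ W ∧
          (∀ a ∈ A, ∀ b ∈ A, a ≠ b → G.Adj a b) ∧ A.card + Q.card = r + 1 ∧ c e.1 ∈ Q ∧
          c e.2 ∈ Q ∧ e.1 ∈ cN G U A ∧ e.2 ∈ cN G U A ∧
          ∀ p ∈ Q, p ≠ c e.1 → p ≠ c e.2 →
            k p ∈ cN G U A ∧ c (k p) = p ∧ ¬ Miss G c (k p) e.1 ∧ ¬ Miss G c (k p) e.2 ∧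
              ∀ q ∈ Q, q ≠ c e.1 → q ≠ c e.2 → ¬ Miss G c (k p) (k q) := fun e he =>
        ext_pair hG hgood.indep hsat (hM1 e he).1 (hM1 e he).2.1 (hM1 e he).2.2
      obtain ⟨e0, he0⟩ := hM0
      have hneV : Nonempty V := ⟨e0.1⟩
      choose! A Q k h1 h2 h3 h4 h5 h6 h7 h8 using hex
      obtain ⟨pat, L, hLM, hLne, hLp, hLc⟩ := pigeon' (fun e : V × V => (A e, Q e, c e.1, c e.2)) M
        (W.powerset ×ˢ ((univ : Finset (Finset (Fin r))) ×ˢ
          ((univ : Finset (Fin r)) ×ˢ (univ : Finset (Fin r))))) (by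
          intro e he
          simp only [mem_product, mem_powerset, mem_univ, and_true]
          exact h1 e he) ⟨e0, he0⟩
      obtain ⟨A0, Q0, i, j⟩ := pat
      have hpat : ∀ e ∈ L, A e = A0 ∧ Q e = Q0 ∧ c e.1 = i ∧ c e.2 = j := by
        intro e he
        have := hLp e he
        simp only [Prod.mk.injEq] at this
        exact this
      have hfam : Fam c (Miss G c) (cN G U A0) Q0 i j Prod.fst Prod.snd k L := by
        obtain ⟨l, hl⟩ := hLne
        obtain ⟨a1, a2, a3, a4⟩ := hpat l hl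
        have hlM := hLM hl
        refine ⟨?_, ?_, ?_, ?_, ?_, ?_, ?_, ?_, ?_, ?_, ?_, ?_, ?_, ?_⟩
        · rw [← a2, ← a3]; exact h4 l hlM
        · rw [← a2, ← a4]; exact h5 l hlM
        · rw [← a3, ← a4]; exact (hM1 l hlM).2.2.1
        · intro e he
          rw [← (hpat e he).1]; exact h6 e (hLM he)
        · intro e he; exact (hpat e he).2.2.1
        · intro e he
          rw [← (hpat e he).1]; exact h7 e (hLM he)
        · intro e he; exact (hpat e he).2.2.2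
        · intro e he e' he' h; exact hM2 e (hLM he) e' (hLM he') h
        · intro e he e' he' h; exact hM3 e (hLM he) e' (hLM he') h
        · intro e he p hp hpi hpj
          obtain ⟨b1, b2, b3, b4⟩ := hpat e he
          rw [← b1]
          exact (h8 e (hLM he) p (by rw [b2]; exact hp) (by rw [b3]; exact hpi)
            (by rw [b4]; exact hpj)).1
        · intro e he p hp hpi hpj
          obtain ⟨b1, b2, b3, b4⟩ := hpat e he
          exact (h8 e (hLM he) p (by rw [b2]; exact hp) (by rw [b3]; exact hpi)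
            (by rw [b4]; exact hpj)).2.1
        · intro e he p hp hpi hpj q hq hqi hqj
          obtain ⟨b1, b2, b3, b4⟩ := hpat e he
          exact (h8 e (hLM he) p (by rw [b2]; exact hp) (by rw [b3]; exact hpi)
            (by rw [b4]; exact hpj)).2.2.2.2 q (by rw [b2]; exact hq) (by rw [b3]; exact hqi)
            (by rw [b4]; exact hqj)
        · intro e he p hp hpi hpj
          obtain ⟨b1, b2, b3, b4⟩ := hpat e he
          exact (h8 e (hLM he) p (by rw [b2]; exact hp) (by rw [b3]; exact hpi)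
            (by rw [b4]; exact hpj)).2.2.1
        · intro e he p hp hpi hpj
          obtain ⟨b1, b2, b3, b4⟩ := hpat e he
          exact (h8 e (hLM he) p (by rw [b2]; exact hp) (by rw [b3]; exact hpi)
            (by rw [b4]; exact hpj)).2.2.2.1
      have hA0 : A0 ⊆ W ∧ (∀ a ∈ A0, ∀ b ∈ A0, a ≠ b → G.Adj a b) ∧ A0.card + Q0.card = r + 1 := by
        obtain ⟨l, hl⟩ := hLne
        obtain ⟨a1, a2, a3, a4⟩ := hpat l hl
        have hlM := hLM hl
        rw [← a1, ← a2]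
        exact ⟨h1 l hlM, h2 l hlM, h3 l hlM⟩
      have hbig : 2 * (r:ℝ) * (n / (8 * E) + r * (2 * n / E)) ≤ n / r := by
        rw [hEr]
        rw [div_add' _ _ _ (by positivity), mul_div_assoc', div_le_div_iff₀ (by positivity) hr0]
        have e1 : n * (r:ℝ) ^ 2 * 2 ≤ n * (r:ℝ) ^ 2 * r :=
          mul_le_mul_of_nonneg_left hr2 (by positivity)
        have e2 : (r:ℝ) * (2 * n / (200 * (r:ℝ) ^ 3)) * (8 * (200 * (r:ℝ) ^ 3)) = 16 * n * r := by
          field_simp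
          ring
        rw [e2]
        nlinarith [mul_nonneg hnn (pow_nonneg hr0.le 3), mul_nonneg hnn (pow_nonneg hr0.le 2)]
      obtain ⟨q, hq2, hqr, hq⟩ := hcb V G c W (2 * n / E) (n / (8 * E)) m hG (by positivity)
        (by positivity) hgood hbig hWc he (V × V) A0 Q0 i j Prod.fst Prod.snd k L hA0.1 hA0.2.1
        hA0.2.2 hLne hfam
      have hLb := power_arith hC0 hq2 (card_pos.2 hLne) hq
      have hLb2 : (L.card : ℝ) ≤ (4 * C0 + 2 * C0 ^ 2 + 1) * Psi r n m :=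
        hLb.trans (mul_le_mul_of_nonneg_left (Psi_ge hq2 hqr) (by positivity))
      have hcard : M.card ≤ P0 * L.card := by
        refine hLc.trans (Nat.mul_le_mul_right _ ?_)
        rw [card_product, card_product, card_product, card_powerset, card_univ, card_univ,
          Fintype.card_finset, Fintype.card_fin, hP0]
        exact Nat.mul_le_mul_right _ (Nat.pow_le_pow_right (by norm_num) hWc)
      have hcard' : (M.card : ℝ) ≤ P0 * L.card := by exact_mod_cast hcard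
      exact hcard'.trans (mul_le_mul_of_nonneg_left hLb2 (by positivity))
    refine hc1.trans ?_
    have h9 : (W0:ℝ) * 1 ≤ W0 * Psi r n m := mul_le_mul_of_nonneg_left hPsi1 (by positivity)
    nlinarith

end Pool.Agent.K7.H61.TS
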