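import Pool.Agent.K7.H61.TS.Lower2
import Pool.Agent.K7.H61.TS.Match

set_option autoImplicit false

namespace Pool.Agent.K7.H61.TS

open Finset Classical

lemma F2_ncard {V : Type} [Fintype V] (G : SimpleGraph V) :
    F2 G.Adj univ = 2 * G.edgeSet.ncard := by
  have h1 : G.edgeSet.ncard = G.edgeFinset.card := by
    rw [Set.ncard_eq_toFinset_card']
    rfl
  rw [h1, SimpleGraph.two_mul_card_edgeFinset]
  unfold F2
  congr 1

lemma turan_ge {n r : ℕ} (hr : 2 ≤ r) :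
    (1 - 1 / (r:ℝ)) * (n : ℝ) ^ 2 - r ≤ 2 * ((SimpleGraph.turanGraph n r).edgeSet.ncard : ℝ) := by
  have h1 : (SimpleGraph.turanGraph n r).edgeSet.ncard =
      (SimpleGraph.turanGraph n r).edgeFinset.card := by
    rw [Set.ncard_eq_toFinset_card']
    rfl
  rw [h1, SimpleGraph.card_edgeFinset_turanGraph]
  set s := n % r with hs
  have hsn : s ≤ n := Nat.mod_le _ _
  have hsn2 : s ^ 2 ≤ n ^ 2 := Nat.pow_le_pow_left hsn 2
  set a := (n ^ 2 - s ^ 2) * (r - 1) with ha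
  have haR : (a : ℝ) = ((n:ℝ) ^ 2 - (s:ℝ) ^ 2) * (r - 1) := by
    rw [ha]
    push_cast [Nat.cast_sub hsn2, Nat.cast_sub (by omega : 1 ≤ r)]
    ring
  have hq : a + 1 ≤ 2 * r * (a / (2 * r)) + 2 * r := by
    have := Nat.lt_mul_div_succ a (by omega : 0 < 2 * r)
    have e : 2 * r * (a / (2 * r) + 1) = 2 * r * (a / (2 * r)) + 2 * r := by ring
    omega
  have hqR : (a : ℝ) + 1 ≤ 2 * r * ((a / (2 * r) : ℕ) : ℝ) + 2 * r := by exact_mod_cast hq
  have hch : 2 * (((s.choose 2 : ℕ)) : ℝ) = (s:ℝ) * (s - 1) := by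
    rw [Nat.cast_choose_two]; ring
  have hr2 : (2:ℝ) ≤ r := by exact_mod_cast hr
  have hr0 : (0:ℝ) < r := by linarith
  rw [Nat.cast_add]
  set q : ℝ := ((a / (2 * r) : ℕ) : ℝ) with hqdef
  have e1 : (1 - 1 / (r:ℝ)) * (n:ℝ) ^ 2 - r = ((r - 1) * (n:ℝ) ^ 2 - r ^ 2) / r := by
    field_simp
  rw [e1, div_le_iff₀ hr0, mul_add, hch]
  have h5 : 0 ≤ (2 * (s:ℝ) - r) ^ 2 := sq_nonneg _
  have h6 : 0 ≤ ((3:ℝ) * r - 2) * (r - 2) := mul_nonneg (by linarith) (by linarith)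
  rw [haR] at hqR
  nlinarith

/-- The core of the lower bound. -/
theorem lower_core {n r s k m : ℕ} (hs2 : 2 ≤ s) (hsr : s ≤ r) (hk : 1 ≤ k)
    (hn : r * (2 * k ^ (s - 1) + 2) ≤ n)
    (hm : (s - 1) * ((n - 2) / r + 1) + (k ^ s + 2 * (s - 2) * k ^ s) ≤ m + 1) :
    ∃ G : SimpleGraph (Fin n), G.CliqueFree (r + 1) ∧
      (∀ x y, x ≠ y → ¬ G.Adj x y → ¬ (G ⊔ SimpleGraph.edge x y).CliqueFree (r + 1)) ∧
      (SimpleGraph.turanGraph n r).edgeSet.ncard ≤ G.edgeSet.ncard + m ∧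
      ∀ D : Finset (Fin n), (∃ c : Fin n → Fin r, ∀ x ∉ D, ∀ y ∉ D, (G.Adj x y ↔ c x ≠ c y)) →
        k ^ (s - 1) ≤ D.card := by
  obtain ⟨G, h1, h2, h3⟩ := exists_saturated (G0 n r s k) (G0_cliqueFree hs2 hsr hk)
  have hn' : r + 2 ≤ n := by
    refine le_trans ?_ hn
    have := Nat.one_le_pow (s - 1) k hk
    nlinarith
  refine ⟨G, h2, h3, ?_, fun D ⟨c, hD⟩ => lower_del hs2 hsr hk hn G h1 h2 D c hD⟩
  have h4 := G0_edges hs2 hsr hk hn' hm
  have h5 : F2 (G0 n r s k).Adj univ ≤ F2 G.Adj univ := by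
    have := F2_le_of_sub (F := (G0 n r s k).Adj) (F' := G.Adj) univ ∅
      (fun v w h => Or.inl (h1 h))
    simpa using this
  rw [F2_ncard] at h4 h5
  rw [F2_ncard] at h5
  rw [F2_ncard] at h4
  omega

/-- the choice of the parameter. -/
lemma choose_k {r j n m : ℕ} (hj2 : 2 ≤ j) (hjr : j ≤ r)
    (hn0 : 4 * r * (4 * r) ^ r + 4 * r ≤ n) (hmn : m ≤ n)
    (hY : 4 * (j:ℝ) ≤ m - ((j:ℝ) - 1) * n / r) :
    ∃ k : ℕ, 1 ≤ k ∧ r * (2 * k ^ (j - 1) + 2) ≤ n ∧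
      (j - 1) * ((n - 2) / r + 1) + (k ^ j + 2 * (j - 2) * k ^ j) ≤ m + 1 ∧
      (m - ((j:ℝ) - 1) * n / r) ^ (((j:ℝ) - 1) / j) ≤ 4 * r * 2 ^ r * (k ^ (j - 1) : ℕ) := by
  set Y : ℝ := m - ((j:ℝ) - 1) * n / r with hYdef
  have hj2R : (2:ℝ) ≤ j := by exact_mod_cast hj2
  have hr2R : (2:ℝ) ≤ r := by exact_mod_cast (by omega : 2 ≤ r)
  have hjrR : (j:ℝ) ≤ r := by exact_mod_cast hjr
  have hr0 : 0 < r := by omega
  have hex : ∃ a : ℕ, Y < 4 * j * ((a + 1 : ℕ) : ℝ) ^ j := by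
    obtain ⟨a, ha⟩ := exists_nat_gt Y
    refine ⟨a, ha.trans_le ?_⟩
    have h1 : (1:ℝ) ≤ ((a + 1 : ℕ) : ℝ) := by push_cast; linarith [Nat.cast_nonneg (α := ℝ) a]
    have h2 : ((a + 1 : ℕ) : ℝ) ≤ ((a + 1 : ℕ) : ℝ) ^ j := le_self_pow₀ h1 (by omega)
    have h3 : (a:ℝ) ≤ ((a + 1 : ℕ) : ℝ) := by push_cast; linarith
    nlinarith
  set k := Nat.find hex with hk
  have hk1 : Y < 4 * j * ((k + 1 : ℕ) : ℝ) ^ j := Nat.find_spec hex
  have hk0 : 1 ≤ k := by
    by_contra hcon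
    have h0 : k = 0 := by omega
    rw [h0] at hk1
    norm_num at hk1
    linarith
  have hk2 : 4 * j * (k : ℝ) ^ j ≤ Y := by
    have := Nat.find_min hex (m := k - 1) (by omega)
    push Not at this
    have e : k - 1 + 1 = k := by omega
    rwa [e] at this
  have hYm : Y ≤ m := by
    rw [hYdef]
    have : 0 ≤ ((j:ℝ) - 1) * n / r := by
      apply div_nonneg _ (by linarith)
      apply mul_nonneg (by linarith) (by positivity)
    linarith
  have hkn : 4 * j * k ^ j ≤ n := by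
    have : 4 * (j:ℝ) * (k:ℝ) ^ j ≤ n := by
      have h1 : (m:ℝ) ≤ n := by exact_mod_cast hmn
      linarith
    exact_mod_cast this
  refine ⟨k, hk0, ?_, ?_, ?_⟩
  · -- the size condition
    have hkj : k ^ j = k * k ^ (j - 1) := by rw [← pow_succ']; congr 1; omega
    by_cases hkr : 4 * r ≤ k
    · have h1 : 4 * r * k ^ (j - 1) ≤ k ^ j := by
        rw [hkj]; exact Nat.mul_le_mul_right _ hkr
      have h2 : k ^ j ≤ 4 * j * k ^ j := Nat.le_mul_of_pos_left _ (by omega)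
      have h3 : 4 * r ≤ n := by
        refine le_trans ?_ hn0
        exact Nat.le_add_left _ _
      have e : r * (2 * k ^ (j - 1) + 2) = 2 * (r * k ^ (j - 1)) + 2 * r := by ring
      have e' : 4 * r * k ^ (j - 1) = 4 * (r * k ^ (j - 1)) := by ring
      omega
    · push Not at hkr
      have h1 : k ^ (j - 1) ≤ (4 * r) ^ r := by
        calc k ^ (j - 1) ≤ (4 * r) ^ (j - 1) := Nat.pow_le_pow_left hkr.le _
          _ ≤ (4 * r) ^ r := Nat.pow_le_pow_right (by omega) (by omega)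
      have h2 : r * k ^ (j - 1) ≤ r * (4 * r) ^ r := Nat.mul_le_mul_left _ h1
      have e : r * (2 * k ^ (j - 1) + 2) = 2 * (r * k ^ (j - 1)) + 2 * r := by ring
      have e' : 4 * r * (4 * r) ^ r = 4 * (r * (4 * r) ^ r) := by ring
      omega
  · -- the deficit
    have h1 : (((n - 2) / r : ℕ) : ℝ) ≤ n / r := by
      refine (Nat.cast_div_le).trans ?_
      apply div_le_div_of_nonneg_right _ (by linarith)
      have : n - 2 ≤ n := Nat.sub_le _ _
      exact_mod_cast this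
    have h2 : (((j - 1) * ((n - 2) / r + 1) + (k ^ j + 2 * (j - 2) * k ^ j) : ℕ) : ℝ) ≤ m := by
      rw [Nat.cast_add, Nat.cast_mul, Nat.cast_add, Nat.cast_add, Nat.cast_mul, Nat.cast_mul,
        Nat.cast_sub (by omega : 1 ≤ j), Nat.cast_sub hj2, Nat.cast_pow]
      have h3 : ((j:ℝ) - 1) * ((((n - 2) / r : ℕ) : ℝ) + 1) ≤ ((j:ℝ) - 1) * n / r + (j - 1) := by
        have : ((j:ℝ) - 1) * (((n - 2) / r : ℕ) : ℝ) ≤ ((j:ℝ) - 1) * (n / r) :=
          mul_le_mul_of_nonneg_left h1 (by linarith)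
        have e : ((j:ℝ) - 1) * (n / r) = ((j:ℝ) - 1) * n / r := by ring
        linarith
      have h4 : (0:ℝ) ≤ (k:ℝ) ^ j := by positivity
      have h5 : (k:ℝ) ^ j + ((2:ℕ):ℝ) * ((j:ℝ) - ((2:ℕ):ℝ)) * (k:ℝ) ^ j ≤ 2 * j * (k:ℝ) ^ j := by
        push_cast
        nlinarith
      push_cast at h5 ⊢
      linarith
    have h3 : (j - 1) * ((n - 2) / r + 1) + (k ^ j + 2 * (j - 2) * k ^ j) ≤ m := by
      exact_mod_cast h2
    omega
  · -- the size of `Y`
    have hY0 : 0 ≤ Y := by linarith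
    have h1 : Y ≤ 4 * j * (2 * (k:ℝ)) ^ j := by
      refine hk1.le.trans ?_
      apply mul_le_mul_of_nonneg_left _ (by positivity)
      apply pow_le_pow_left₀ (by positivity)
      push_cast
      have : (1:ℝ) ≤ k := by exact_mod_cast hk0
      linarith
    have hα0 : 0 ≤ ((j:ℝ) - 1) / j := div_nonneg (by linarith) (by linarith)
    have hα1 : ((j:ℝ) - 1) / j ≤ 1 := by rw [div_le_one (by linarith)]; linarith
    have h2 : Y ≤ (4 * j * 2 ^ j) * (k:ℝ) ^ j := by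
      rw [mul_pow] at h1
      linarith
    have hc1 : (1:ℝ) ≤ 4 * j * 2 ^ j := by
      have : (1:ℝ) ≤ 2 ^ j := one_le_pow₀ (by norm_num)
      nlinarith
    calc Y ^ (((j:ℝ) - 1) / j) ≤ ((4 * j * 2 ^ j) * (k:ℝ) ^ j) ^ (((j:ℝ) - 1) / j) :=
          Real.rpow_le_rpow hY0 h2 hα0
      _ = (4 * j * 2 ^ j : ℝ) ^ (((j:ℝ) - 1) / j) * ((k:ℝ) ^ j) ^ (((j:ℝ) - 1) / j) :=
          Real.mul_rpow (by positivity) (by positivity)
      _ ≤ (4 * j * 2 ^ j : ℝ) * ((k:ℝ) ^ j) ^ (((j:ℝ) - 1) / j) := by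
          apply mul_le_mul_of_nonneg_right _ (Real.rpow_nonneg (by positivity) _)
          calc (4 * j * 2 ^ j : ℝ) ^ (((j:ℝ) - 1) / j) ≤ (4 * j * 2 ^ j : ℝ) ^ (1:ℝ) :=
                Real.rpow_le_rpow_of_exponent_le hc1 hα1
            _ = _ := Real.rpow_one _
      _ = (4 * j * 2 ^ j : ℝ) * (k:ℝ) ^ (j - 1) := by
          congr 1
          rw [← Real.rpow_natCast, ← Real.rpow_mul (by positivity), ← Real.rpow_natCast]
          congr 1
          rw [Nat.cast_sub (by omega : 1 ≤ j)]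
          field_simp
          push_cast
          ring
      _ ≤ 4 * r * 2 ^ r * (k:ℝ) ^ (j - 1) := by
          apply mul_le_mul_of_nonneg_right _ (by positivity)
          apply mul_le_mul
          · linarith
          · exact pow_le_pow_right₀ (by norm_num) hjr
          · positivity
          · positivity
      _ = _ := by push_cast; ring

end Pool.Agent.K7.H61.TS
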