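import Pool.Agent.K7.H61.TS.Part

set_option autoImplicit false

namespace Pool.Agent.K7.H61.TS

open Finset Classical

section
variable {V : Type}

/-- the missing pairs of different colours. -/
def Miss {ι : Type} (G : SimpleGraph V) (c : V → ι) (u v : V) : Prop := c u ≠ c v ∧ ¬ G.Adj u v

lemma Miss.symm {ι : Type} {G : SimpleGraph V} {c : V → ι} :
    ∀ a b, Miss G c a b → Miss G c b a :=
  fun _ _ h => ⟨h.1.symm, fun h' => h.2 h'.symm⟩

lemma greedy {ι : Type} [Nonempty V] {c : V → ι} {F : V → V → Prop}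
    (symm : ∀ a b, F a b → F b a)
    (hc : ∀ a b, F a b → c a ≠ c b) (U : Finset V) (d : ℝ) (hd0 : 0 ≤ d)
    (hd : ∀ u ∈ U, (dF F U u : ℝ) ≤ d) (J : Finset ι) : ∀ (S : ι → Finset V),
    (∀ q ∈ J, S q ⊆ U ∧ (∀ v ∈ S q, c v = q) ∧ J.card * d < (S q).card) →
      ∃ f : ι → V, (∀ q ∈ J, f q ∈ S q) ∧ Ind F J f := by
  induction J using Finset.induction_on with
  | empty => intro S _; exact ⟨fun _ => Classical.arbitrary V, by simp, fun p hp => absurd hp (notMem_empty _)⟩
  | insert q J hq ih =>
    intro S hS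
    obtain ⟨h1, h2, h3⟩ := hS q (mem_insert_self _ _)
    have hpos : 0 < (S q).card := by
      have : (0:ℝ) < (S q).card := lt_of_le_of_lt (by positivity) h3
      exact_mod_cast this
    obtain ⟨v, hv⟩ := card_pos.1 hpos
    have hvU := h1 hv
    obtain ⟨f, hf1, hf2⟩ := ih (fun p => (S p).filter (fun w => ¬ F v w)) (by
      intro p hp
      obtain ⟨g1, g2, g3⟩ := hS p (mem_insert_of_mem hp)
      refine ⟨(filter_subset _ _).trans g1, fun w hw => g2 w (mem_filter.1 hw).1, ?_⟩
      have e1 : ((S p).filter (fun w => F v w)).card + ((S p).filter (fun w => ¬ F v w)).card =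
          (S p).card := card_filter_add_card_filter_not _
      have e2 : ((S p).filter (fun w => F v w)).card ≤ dF F U v :=
        card_le_card (filter_subset_filter _ g1)
      have e3 := hd v hvU
      have e4 : (((S p).filter (fun w => F v w)).card : ℝ) ≤ dF F U v := by exact_mod_cast e2
      have e5 : (((S p).filter (fun w => F v w)).card : ℝ) +
          ((S p).filter (fun w => ¬ F v w)).card = (S p).card := by exact_mod_cast e1
      rw [card_insert_of_notMem hq] at g3
      push_cast at g3
      nlinarith)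
    refine ⟨fun p => if p = q then v else f p, ?_, ?_⟩
    · intro p hp
      by_cases e : p = q
      · subst e; simpa using hv
      · simp only [e, if_false]
        rcases mem_insert.1 hp with h | h
        · exact absurd h e
        · exact (mem_filter.1 (hf1 p h)).1
    · intro p hp p' hp' hF
      by_cases e : p = q
      · by_cases e' : p' = q
        · simp only [e, e', if_true] at hF; exact hc _ _ hF rfl
        · simp only [e, e', if_true, if_false] at hF
          rcases mem_insert.1 hp' with h | h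
          · exact e' h
          · exact (mem_filter.1 (hf1 p' h)).2 hF
      · by_cases e' : p' = q
        · simp only [e, e', if_true, if_false] at hF
          rcases mem_insert.1 hp with h | h
          · exact e h
          · exact (mem_filter.1 (hf1 p h)).2 (symm _ _ hF)
        · simp only [e, e', if_false] at hF
          rcases mem_insert.1 hp with h | h
          · exact e h
          rcases mem_insert.1 hp' with h' | h'
          · exact e' h'
          exact hf2 p h p' h' hF

/-- joining a clique and an independent transversal. -/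
lemma clique_join {ι : Type} {G : SimpleGraph V} {c : V → ι} {A : Finset V}
    {J : Finset ι} {f : ι → V} (hA : ∀ a ∈ A, ∀ b ∈ A, a ≠ b → G.Adj a b)
    (hf : ∀ p ∈ J, c (f p) = p) (hI : Ind (Miss G c) J f) (hAf : ∀ a ∈ A, ∀ p ∈ J, G.Adj a (f p)) :
    G.IsNClique (A.card + J.card) (A ∪ J.image f) := by
  have hadj : ∀ p ∈ J, ∀ q ∈ J, p ≠ q → G.Adj (f p) (f q) := by
    intro p hp q hq hpq
    by_contra h
    exact hI p hp q hq ⟨by rw [hf p hp, hf q hq]; exact hpq, h⟩
  constructor
  · intro a ha b hb hab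
    rw [mem_coe, mem_union] at ha hb
    rcases ha with ha | ha
    · rcases hb with hb | hb
      · exact hA a ha b hb hab
      · obtain ⟨p, hp, rfl⟩ := mem_image.1 hb
        exact hAf a ha p hp
    · obtain ⟨p, hp, rfl⟩ := mem_image.1 ha
      rcases hb with hb | hb
      · exact (hAf b hb p hp).symm
      · obtain ⟨q, hq, rfl⟩ := mem_image.1 hb
        exact hadj p hp q hq fun e => hab (by rw [e])
  · rw [card_union_of_disjoint, card_image_of_injOn]
    · intro p hp q hq e
      have : c (f p) = c (f q) := by rw [show f p = f q from e]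
      rwa [hf p hp, hf q hq] at this
    · rw [disjoint_left]
      intro a ha ha'
      obtain ⟨p, hp, rfl⟩ := mem_image.1 ha'
      exact G.loopless.irrefl _ (hAf _ ha p hp)

/-- counting pairs of the same colour -/
lemma same_colour [Fintype V] {r : ℕ} (c : V → Fin r) (F : V → V → Prop) :
    F2 (fun u v => c u = c v ∧ F u v) univ = ∑ i, F2 F (univ.filter (fun v => c v = i)) := by
  unfold F2
  rw [card_eq_sum_card_fiberwise (f := fun e : V × V => c e.1) (t := (univ : Finset (Fin r)))
    (fun _ _ => mem_univ _)]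
  refine sum_congr rfl fun i _ => ?_
  congr 1
  ext e
  simp only [mem_filter, mem_product, mem_univ, true_and]
  constructor
  · rintro ⟨⟨h1, h2⟩, h3⟩
    exact ⟨⟨h3, h1 ▸ h3⟩, h2⟩
  · rintro ⟨⟨h1, h2⟩, h3⟩
    exact ⟨⟨by rw [h1, h2], h3⟩, h1⟩

lemma F2_true (N : Finset V) : F2 (fun _ _ => True) N = N.card ^ 2 := by
  unfold F2
  rw [filter_true, card_product, sq]

/-- the good structure. -/
structure Good [Fintype V] (G : SimpleGraph V) {r : ℕ} (c : V → Fin r) (W : Finset V)
    (d e : ℝ) : Prop where
  indep : ∀ u ∉ W, ∀ v ∉ W, c u = c v → ¬ G.Adj u v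
  miss : ∀ u ∉ W, (dF (Miss G c) (univ \ W) u : ℝ) ≤ d
  size : ∀ q, |(((univ \ W).filter (fun v => c v = q)).card : ℝ) - (Fintype.card V : ℝ) / r| ≤ e
  degW : ∀ w ∈ W, (dF G.Adj univ w : ℝ) ≤ (1 - 1 / r) * Fintype.card V
  low : ∀ w ∈ W, ∃ q, (((univ \ W).filter (fun v => c v = q ∧ G.Adj w v)).card : ℝ) ≤ d

/-- the numerical consequences of the partition. -/
lemma numbers [Fintype V] {r : ℕ} (hr : 2 ≤ r) (G : SimpleGraph V)
    (hG : G.CliqueFree (r + 1))
    (he : (1 - 1 / (r:ℝ)) * (Fintype.card V : ℝ) ^ 2 - r - 2 * (Fintype.card V : ℝ) ≤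
      F2 G.Adj univ) (hn : r ≤ Fintype.card V) :
    ∃ c : V → Fin r, (∑ i, (((univ.filter (fun v => c v = i)).card : ℝ) -
        (Fintype.card V : ℝ) / r) ^ 2 ≤ 3 * Fintype.card V) ∧
      (F2 (Miss G c) univ : ℝ) ≤ 6 * Fintype.card V := by
  obtain ⟨c0, hc0, hineq⟩ := furedi (F := G.Adj) (fun a b h => h.symm)
    (fun a h => G.loopless.irrefl a h) r univ (by
      intro s _ hs hcl
      exact hG s ⟨fun a ha b hb hab => hcl a ha b hb hab, hs⟩)
  set c : V → Fin r := fun v => ⟨c0 v, hc0 v (mem_univ v)⟩ with hc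
  have hfil : ∀ i : Fin r, univ.filter (fun v => c0 v = (i : ℕ)) =
      univ.filter (fun v => c v = i) := by
    intro i
    ext v
    simp only [mem_filter, mem_univ, true_and, hc, Fin.ext_iff]
  rw [← Fin.sum_univ_eq_sum_range (fun i => F2 G.Adj (univ.filter (fun v => c0 v = i)) +
          (univ.filter (fun v => c0 v = i)).card ^ 2) r] at hineq
  simp only [hfil] at hineq
  rw [sum_add_distrib] at hineq
  set n : ℝ := (Fintype.card V : ℝ) with hnn
  have hr0 : (0:ℝ) < r := by positivity
  have hrn : (r:ℝ) ≤ n := by rw [hnn]; exact_mod_cast hn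
  set X : Fin r → ℝ := fun i => ((univ.filter (fun v => c v = i)).card : ℝ) with hX
  have hsum : ∑ i, X i = n := by
    have := card_eq_sum_card_fiberwise (f := c) (s := (univ : Finset V)) (t := univ)
      (fun _ _ => mem_univ _)
    rw [hnn, ← card_univ, this]
    push_cast
    rfl
  have hin : ∑ i, (F2 G.Adj (univ.filter (fun v => c v = i)) : ℝ) + ∑ i, X i ^ 2 ≤
      n ^ 2 - F2 G.Adj univ := by
    have h1 : (F2 G.Adj univ : ℝ) + (∑ i, (F2 G.Adj (univ.filter (fun v => c v = i)) : ℝ) +
        ∑ i, X i ^ 2) ≤ n ^ 2 := by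
      have := (Nat.cast_le (α := ℝ)).2 hineq
      push_cast at this
      rw [card_univ] at this
      exact this
    linarith
  have hsq : ∑ i, (X i - n / r) ^ 2 = ∑ i, X i ^ 2 - n ^ 2 / r := by
    have : ∀ i, (X i - n / r) ^ 2 = X i ^ 2 - 2 * (n / r) * X i + (n / r) ^ 2 := fun i => by ring
    rw [sum_congr rfl fun i _ => this i, sum_add_distrib, sum_sub_distrib, ← mul_sum, hsum]
    simp only [sum_const, card_univ, Fintype.card_fin, nsmul_eq_mul]
    field_simp
    ring
  have hin0 : 0 ≤ ∑ i, (F2 G.Adj (univ.filter (fun v => c v = i)) : ℝ) :=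
    sum_nonneg fun i _ => by positivity
  have hs0 : 0 ≤ ∑ i, (X i - n / r) ^ 2 := sum_nonneg fun i _ => sq_nonneg _
  have hexp : (1 - 1 / (r:ℝ)) * n ^ 2 = n ^ 2 - n ^ 2 / r := by ring
  refine ⟨c, ?_, ?_⟩
  · rw [hsq]
    nlinarith
  · have hcount : F2 (Miss G c) univ + F2 G.Adj univ + ∑ i, (univ.filter (fun v => c v = i)).card ^ 2 =
        Fintype.card V ^ 2 + ∑ i, F2 G.Adj (univ.filter (fun v => c v = i)) := by
      have e1 : ∑ i, (univ.filter (fun v => c v = i)).card ^ 2 =
          F2 (fun u v => c u = c v ∧ True) univ := by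
        rw [same_colour]
        refine sum_congr rfl fun i _ => ?_
        rw [F2_true]
      rw [← same_colour, e1]
      unfold F2
      rw [← card_univ, ← F2_true]
      unfold F2
      simp only [card_filter]
      rw [← sum_add_distrib, ← sum_add_distrib, ← sum_add_distrib]
      refine sum_congr rfl fun e _ => ?_
      unfold Miss
      by_cases h1 : c e.1 = c e.2
      · by_cases h2 : G.Adj e.1 e.2
        · simp [h1, h2]
        · simp [h1, h2]
      · by_cases h2 : G.Adj e.1 e.2
        · simp [h1, h2]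
        · simp [h1, h2]
    have hcount' : (F2 (Miss G c) univ : ℝ) + F2 G.Adj univ + ∑ i, X i ^ 2 =
        n ^ 2 + ∑ i, (F2 G.Adj (univ.filter (fun v => c v = i)) : ℝ) := by
      have := congrArg (Nat.cast (R := ℝ)) hcount
      push_cast at this
      exact this
    nlinarith

end

end Pool.Agent.K7.H61.TS
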