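import Pool.Agent.K7.H61.TS.Good

set_option autoImplicit false

namespace Pool.Agent.K7.H61.TS

open Finset Classical

/-- the special vertices. -/
def Sp (r s k v : ℕ) : Prop :=
  1 ≤ v / r ∧ ((v % r ≤ 1 ∧ v / r ≤ k ^ (s - 1)) ∨ (2 ≤ v % r ∧ v % r < s ∧ v / r ≤ k))

/-- the missing pairs, in one order. -/
def Fa (r s k v w : ℕ) : Prop :=
  Sp r s k v ∧ Sp r s k w ∧
    ((v % r = 0 ∧ w % r = 1 ∧ (v / r - 1) / k = (w / r - 1) / k) ∨
      (v % r ≤ 1 ∧ 2 ≤ w % r ∧ w % r < s ∧ (v / r - 1) / k ^ (w % r - 1) % k ≠ w / r - 1))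

/-- the neighbours of the vertex `0`. -/
def Nu (r s k w : ℕ) : Prop := w ≠ 0 ∧ (s ≤ w % r ∨ Sp r s k w)

/-- the adjacency of the construction. -/
def Ad (r s k v w : ℕ) : Prop :=
  (v = 0 ∧ Nu r s k w) ∨ (w = 0 ∧ Nu r s k v) ∨
    (v ≠ 0 ∧ w ≠ 0 ∧ v % r ≠ w % r ∧ ¬ Fa r s k v w ∧ ¬ Fa r s k w v)

/-- the graph of the construction. -/
def G0 (n r s k : ℕ) : SimpleGraph (Fin n) where
  Adj v w := Ad r s k v w
  symm := ⟨by
    intro v w h
    rcases h with h | h | ⟨h1, h2, h3, h4, h5⟩
    · exact Or.inr (Or.inl h)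
    · exact Or.inl h
    · exact Or.inr (Or.inr ⟨h2, h1, h3.symm, h5, h4⟩)⟩
  loopless := ⟨by
    intro v h
    rcases h with h | h | h
    · exact h.2.1 h.1
    · exact h.2.1 h.1
    · exact h.2.2.1 rfl⟩

lemma digits_eq (k : ℕ) (hk : 1 ≤ k) (t : ℕ) : ∀ g g' : ℕ, g < k ^ t → g' < k ^ t →
    (∀ j < t, g / k ^ j % k = g' / k ^ j % k) → g = g' := by
  induction t with
  | zero => intro g g' h h' _; simp at h h'; omega
  | succ t ih =>
    intro g g' h h' hd
    have h0 := hd 0 (by omega)
    simp only [pow_zero, Nat.div_one] at h0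
    have h1 : g / k = g' / k := by
      apply ih
      · rw [Nat.div_lt_iff_lt_mul (by omega), ← pow_succ]; exact h
      · rw [Nat.div_lt_iff_lt_mul (by omega), ← pow_succ]; exact h'
      · intro j hj
        have := hd (j + 1) (by omega)
        rw [pow_succ', ← Nat.div_div_eq_div_mul, ← Nat.div_div_eq_div_mul] at this
        exact this
    rw [← Nat.div_add_mod g k, ← Nat.div_add_mod g' k, h1, h0]

/-- the graph has no large clique. -/
lemma G0_cliqueFree {n r s k : ℕ} (hs2 : 2 ≤ s) (hsr : s ≤ r) (hk : 1 ≤ k) :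
    (G0 n r s k).CliqueFree (r + 1) := by
  intro t ht
  have hr0 : 0 < r := by omega
  have hcl : ∀ a ∈ t, ∀ b ∈ t, a ≠ b → Ad r s k a b := fun a ha b hb hab =>
    ht.1 (mem_coe.2 ha) (mem_coe.2 hb) hab
  have hinj : ∀ a ∈ t, ∀ b ∈ t, (a : ℕ) ≠ 0 → (b : ℕ) ≠ 0 → (a : ℕ) % r = (b : ℕ) % r → a = b := by
    intro a ha b hb ha0 hb0 hab
    by_contra hne
    rcases hcl a ha b hb hne with h | h | h
    · exact ha0 h.1
    · exact hb0 h.1
    · exact h.2.2.1 hab
  by_cases h0 : ∃ z ∈ t, (z : ℕ) = 0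
  · obtain ⟨z, hz, hz0⟩ := h0
    have hne0 : ∀ a ∈ t.erase z, (a : ℕ) ≠ 0 := by
      intro a ha h
      exact (mem_erase.1 ha).1 (Fin.ext (by rw [h, hz0]))
    have hN : ∀ a ∈ t.erase z, Nu r s k a := by
      intro a ha
      have h1 := mem_erase.1 ha
      rcases hcl z hz a h1.2 h1.1.symm with h | h | h
      · exact h.2
      · exact absurd h.1 (hne0 a ha)
      · exact absurd hz0 h.1
    have hsurj : ∀ i < r, ∃ a ∈ t.erase z, (a : ℕ) % r = i := by
      have h1 : (t.erase z).image (fun a : Fin n => (a : ℕ) % r) = range r := by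
        apply eq_of_subset_of_card_le
        · intro i hi
          obtain ⟨a, _, rfl⟩ := mem_image.1 hi
          exact mem_range.2 (Nat.mod_lt _ hr0)
        · rw [card_range, card_image_of_injOn, card_erase_of_mem hz, ht.2]
          · rfl
          · intro a ha b hb hab
            exact hinj a (mem_erase.1 ha).2 b (mem_erase.1 hb).2 (hne0 a ha) (hne0 b hb) hab
      intro i hi
      have : i ∈ (t.erase z).image (fun a : Fin n => (a : ℕ) % r) := by
        rw [h1]; exact mem_range.2 hi
      obtain ⟨a, ha, h2⟩ := mem_image.1 this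
      exact ⟨a, ha, h2⟩
    obtain ⟨x, hx, hx1⟩ := hsurj 0 (by omega)
    obtain ⟨y, hy, hy1⟩ := hsurj 1 (by omega)
    have hxS : Sp r s k x := by
      rcases (hN x hx).2 with h | h
      · omega
      · exact h
    have hyS : Sp r s k y := by
      rcases (hN y hy).2 with h | h
      · omega
      · exact h
    have hadj : ∀ a ∈ t.erase z, ∀ b ∈ t.erase z, (a : ℕ) % r ≠ (b : ℕ) % r → ¬ Fa r s k a b := by
      intro a ha b hb hab
      rcases hcl a (mem_erase.1 ha).2 b (mem_erase.1 hb).2 (fun h => hab (by rw [h])) with h | h | h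
      · exact absurd h.1 (hne0 a ha)
      · exact absurd h.1 (hne0 b hb)
      · exact h.2.2.2.1
    have hkey : ((x : ℕ) / r - 1) / k = ((y : ℕ) / r - 1) / k := by
      have hxl : (x : ℕ) / r ≤ k ^ (s - 1) := by
        rcases hxS.2 with h | h
        · exact h.2
        · omega
      have hyl : (y : ℕ) / r ≤ k ^ (s - 1) := by
        rcases hyS.2 with h | h
        · exact h.2
        · omega
      have hx1' := hxS.1
      have hy1' := hyS.1
      have hpow : k ^ (s - 1) = k ^ (s - 2) * k := by rw [← pow_succ]; congr 1; omega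
      apply digits_eq k hk (s - 2)
      · rw [Nat.div_lt_iff_lt_mul (by omega), ← hpow]; omega
      · rw [Nat.div_lt_iff_lt_mul (by omega), ← hpow]; omega
      · intro j hj
        obtain ⟨w, hw, hw1⟩ := hsurj (j + 2) (by omega)
        have hwS : Sp r s k w := by
          rcases (hN w hw).2 with h | h
          · omega
          · exact h
        have e1 := hadj x hx w hw (by omega)
        have e2 := hadj y hy w hw (by omega)
        unfold Fa at e1 e2
        push Not at e1 e2
        have e1' := (e1 hxS hwS).2 (by omega) (by omega) (by omega)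
        have e2' := (e2 hyS hwS).2 (by omega) (by omega) (by omega)
        rw [hw1] at e1' e2'
        have e3 : j + 2 - 1 = j + 1 := by omega
        rw [e3, pow_succ', ← Nat.div_div_eq_div_mul] at e1' e2'
        rw [e1', e2']
    exact hadj x hx y hy (by omega) ⟨hxS, hyS, Or.inl ⟨hx1, hy1, hkey⟩⟩
  · push Not at h0
    have h1 : t.card ≤ (range r).card := by
      apply card_le_card_of_injOn (fun a : Fin n => (a : ℕ) % r)
      · intro a _
        exact mem_coe.2 (mem_range.2 (Nat.mod_lt _ hr0))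
      · intro a ha b hb hab
        exact hinj a ha b hb (h0 a ha) (h0 b hb) hab
    rw [card_range, ht.2] at h1
    omega

/-- counting the missing pairs of the construction. -/
lemma count_Fa {n r s k : ℕ} (hs2 : 2 ≤ s) (hk : 1 ≤ k) :
    ((univ : Finset (Fin n × Fin n)).filter (fun e => Fa r s k e.1 e.2)).card ≤
      k ^ s + 2 * (s - 2) * k ^ s := by
  have hks : k ^ (s - 1) * k = k ^ s := by rw [← pow_succ]; congr 1; omega
  have hdm : ∀ a b : Fin n, (a : ℕ) / r = (b : ℕ) / r → (a : ℕ) % r = (b : ℕ) % r → a = b := by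
    intro a b h1 h2
    apply Fin.ext
    rw [← Nat.div_add_mod (a : ℕ) r, ← Nat.div_add_mod (b : ℕ) r, h1, h2]
  set P1 := (univ : Finset (Fin n × Fin n)).filter (fun e => Fa r s k e.1 e.2 ∧
    (e.1 : ℕ) % r = 0 ∧ (e.2 : ℕ) % r = 1 ∧ ((e.1 : ℕ) / r - 1) / k = ((e.2 : ℕ) / r - 1) / k) with hP1
  set P2 := (univ : Finset (Fin n × Fin n)).filter (fun e => Fa r s k e.1 e.2 ∧
    (e.1 : ℕ) % r ≤ 1 ∧ 2 ≤ (e.2 : ℕ) % r ∧ (e.2 : ℕ) % r < s) with hP2
  have hsub : (univ : Finset (Fin n × Fin n)).filter (fun e => Fa r s k e.1 e.2) ⊆ P1 ∪ P2 := by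
    intro e he
    have h := (mem_filter.1 he).2
    rcases h.2.2 with h1 | h1
    · exact mem_union_left _ (mem_filter.2 ⟨mem_univ _, h, h1⟩)
    · exact mem_union_right _ (mem_filter.2 ⟨mem_univ _, h, h1.1, h1.2.1, h1.2.2.1⟩)
  have hc1 : P1.card ≤ k ^ s := by
    have : P1.card ≤ (range (k ^ (s - 1)) ×ˢ range k).card := by
      apply card_le_card_of_injOn (fun e : Fin n × Fin n => ((e.1 : ℕ) / r - 1, ((e.2 : ℕ) / r - 1) % k))
      · intro e he
        have h := (mem_filter.1 he).2
        have h1 : (e.1 : ℕ) / r ≤ k ^ (s - 1) := by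
          rcases h.1.1.2 with g | g
          · exact g.2
          · omega
        have h2 := h.1.1.1
        simp only [coe_product, Set.mem_prod, mem_coe, mem_range]
        exact ⟨by omega, Nat.mod_lt _ (by omega)⟩
      · intro e he e' he' hee
        have h := (mem_filter.1 he).2
        have h' := (mem_filter.1 he').2
        simp only [Prod.mk.injEq] at hee
        have a1 := h.1.1.1
        have a2 := h'.1.1.1
        have a3 := h.1.2.1.1
        have a4 := h'.1.2.1.1
        have e1 : (e.1 : ℕ) / r = (e'.1 : ℕ) / r := by omega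
        have e2 : ((e.2 : ℕ) / r - 1) / k = ((e'.2 : ℕ) / r - 1) / k := by
          rw [← h.2.2.2, ← h'.2.2.2, hee.1]
        have e3 : (e.2 : ℕ) / r - 1 = (e'.2 : ℕ) / r - 1 := by
          rw [← Nat.div_add_mod ((e.2 : ℕ) / r - 1) k, ← Nat.div_add_mod ((e'.2 : ℕ) / r - 1) k,
            e2, hee.2]
        have e4 : (e.2 : ℕ) / r = (e'.2 : ℕ) / r := by omega
        exact Prod.ext (hdm _ _ e1 (by rw [h.2.1, h'.2.1])) (hdm _ _ e4 (by rw [h.2.2.1, h'.2.2.1]))
    rw [card_product, card_range, card_range, hks] at this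
    exact this
  have hc2 : P2.card ≤ 2 * (s - 2) * k ^ s := by
    have : P2.card ≤ ((range 2 ×ˢ range (s - 2)) ×ˢ (range (k ^ (s - 1)) ×ˢ range k)).card := by
      apply card_le_card_of_injOn (fun e : Fin n × Fin n =>
        (((e.1 : ℕ) % r, (e.2 : ℕ) % r - 2), ((e.1 : ℕ) / r - 1, (e.2 : ℕ) / r - 1)))
      · intro e he
        have h := (mem_filter.1 he).2
        have h1 : (e.1 : ℕ) / r ≤ k ^ (s - 1) := by
          rcases h.1.1.2 with g | g
          · exact g.2
          · omega
        have h3 : (e.2 : ℕ) / r ≤ k := by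
          rcases h.1.2.1.2 with g | g
          · omega
          · exact g.2.2
        have h2 := h.1.1.1
        have h4 := h.1.2.1.1
        simp only [coe_product, Set.mem_prod, mem_coe, mem_range]
        exact ⟨⟨by omega, by omega⟩, by omega, by omega⟩
      · intro e he e' he' hee
        have h := (mem_filter.1 he).2
        have h' := (mem_filter.1 he').2
        simp only [Prod.mk.injEq] at hee
        have a1 := h.1.1.1
        have a2 := h'.1.1.1
        have a3 := h.1.2.1.1
        have a4 := h'.1.2.1.1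
        exact Prod.ext (hdm _ _ (by omega) (by omega)) (hdm _ _ (by omega) (by omega))
    rw [card_product, card_product, card_product, card_range, card_range, card_range, card_range,
      hks] at this
    exact this
  exact (card_le_card hsub).trans ((card_union_le _ _).trans (Nat.add_le_add hc1 hc2))

/-- counting the non-special vertices. -/
lemma count_A {n r s k : ℕ} (hs2 : 2 ≤ s) (hsr : s ≤ r) (hk : 1 ≤ k) (hn : r + 2 ≤ n) :
    ((univ : Finset (Fin n)).filter (fun w : Fin n => 1 ≤ (w : ℕ) % r ∧ (w : ℕ) % r < s ∧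
      ¬ Sp r s k w)).card + 1 ≤ (s - 1) * ((n - 2) / r + 1) := by
  have hr0 : 0 < r := by omega
  set v0 : Fin n := ⟨r + 1, by omega⟩ with hv0
  have hm : (r + 1) % r = 1 := by
    rw [Nat.add_mod_left]; exact Nat.mod_eq_of_lt (by omega)
  have hd : (r + 1) / r = 1 := by
    rw [Nat.add_div_left _ hr0, Nat.div_eq_of_lt (by omega)]
  have hv : v0 ∉ (univ : Finset (Fin n)).filter (fun w : Fin n => 1 ≤ (w : ℕ) % r ∧ (w : ℕ) % r < s ∧
      ¬ Sp r s k w) := by
    intro h
    apply (mem_filter.1 h).2.2.2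
    refine ⟨?_, Or.inl ⟨?_, ?_⟩⟩
    · rw [hd]
    · rw [hm]
    · rw [hd]; exact Nat.one_le_pow _ _ hk
  rw [← card_insert_of_notMem hv]
  have : (insert v0 ((univ : Finset (Fin n)).filter (fun w : Fin n => 1 ≤ (w : ℕ) % r ∧ (w : ℕ) % r < s ∧
      ¬ Sp r s k w))).card ≤ (range (s - 1) ×ˢ range ((n - 2) / r + 1)).card := by
    have hmem : ∀ w ∈ insert v0 ((univ : Finset (Fin n)).filter (fun w : Fin n => 1 ≤ (w : ℕ) % r ∧
        (w : ℕ) % r < s ∧ ¬ Sp r s k w)), 1 ≤ (w : ℕ) % r ∧ (w : ℕ) % r < s := by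
      intro w hw
      rcases mem_insert.1 hw with h | h
      · rw [h, hv0]; simp only; rw [hm]; omega
      · exact ⟨(mem_filter.1 h).2.1, (mem_filter.1 h).2.2.1⟩
    apply card_le_card_of_injOn (fun w : Fin n => ((w : ℕ) % r - 1, (w : ℕ) / r))
    · intro w hw
      have h := hmem w hw
      simp only [coe_product, Set.mem_prod, mem_coe, mem_range]
      refine ⟨by omega, ?_⟩
      have h1 := Nat.div_add_mod (w : ℕ) r
      have h2 := w.isLt
      rw [Nat.lt_succ_iff, Nat.le_div_iff_mul_le hr0, mul_comm]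
      omega
    · intro w hw w' hw' h
      have h1 := hmem w hw
      have h2 := hmem w' hw'
      simp only [Prod.mk.injEq] at h
      apply Fin.ext
      rw [← Nat.div_add_mod (w : ℕ) r, ← Nat.div_add_mod (w' : ℕ) r, h.2]
      omega
  rw [card_product, card_range, card_range] at this
  exact this

lemma F2_le_of_sub {V : Type} {F F' : V → V → Prop} (N : Finset V) (P : Finset (V × V))
    (h : ∀ v w, F v w → F' v w ∨ (v, w) ∈ P) : F2 F N ≤ F2 F' N + P.card := by
  unfold F2
  refine (card_le_card ?_).trans (card_union_le _ _)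
  rintro ⟨v, w⟩ he
  have h1 := mem_filter.1 he
  rcases h v w h1.2 with h2 | h2
  · exact mem_union_left _ (mem_filter.2 ⟨h1.1, h2⟩)
  · exact mem_union_right _ h2

/-- the number of edges of the construction. -/
lemma G0_edges {n r s k m : ℕ} (hs2 : 2 ≤ s) (hsr : s ≤ r) (hk : 1 ≤ k) (hn : r + 2 ≤ n)
    (hm : (s - 1) * ((n - 2) / r + 1) + (k ^ s + 2 * (s - 2) * k ^ s) ≤ m + 1) :
    F2 (SimpleGraph.turanGraph n r).Adj univ ≤ F2 (G0 n r s k).Adj univ + 2 * m := by
  set A := (univ : Finset (Fin n)).filter (fun w : Fin n => 1 ≤ (w : ℕ) % r ∧ (w : ℕ) % r < s ∧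
      ¬ Sp r s k w) with hA
  set B := (univ : Finset (Fin n × Fin n)).filter (fun e => Fa r s k e.1 e.2) with hB
  have hA1 : A.card + 1 ≤ _ := count_A (k := k) hs2 hsr hk hn
  have hB1 : B.card ≤ _ := count_Fa (n := n) (r := r) hs2 hk
  have h0n : 0 < n := by omega
  set z : Fin n := ⟨0, h0n⟩ with hz
  have hsub := F2_le_of_sub (F := (SimpleGraph.turanGraph n r).Adj) (F' := (G0 n r s k).Adj) univ
      ((A.image (fun w : Fin n => (z, w)) ∪ A.image (fun w : Fin n => (w, z))) ∪
          (B ∪ B.image Prod.swap)) (by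
    intro v w h1
    simp only [SimpleGraph.turanGraph_adj] at h1
    by_cases hG : Ad r s k v w
    · exact Or.inl hG
    refine Or.inr ?_
    unfold Ad at hG
    push Not at hG
    obtain ⟨g1, g2, g3⟩ := hG
    by_cases hv : (v : ℕ) = 0
    · refine mem_union_left _ (mem_union_left _ (mem_image.2 ⟨w, ?_, ?_⟩))
      · have g := g1 hv
        rw [hv, Nat.zero_mod] at h1
        have hw0 : (w : ℕ) ≠ 0 := fun h => h1 (by rw [h, Nat.zero_mod])
        unfold Nu at g
        push Not at g
        have g' := g hw0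
        exact mem_filter.2 ⟨mem_univ _, by omega, g'.1, g'.2⟩
      · rw [Prod.mk.injEq]; exact ⟨Fin.ext (by rw [hv]), rfl⟩
    by_cases hw : (w : ℕ) = 0
    · refine mem_union_left _ (mem_union_right _ (mem_image.2 ⟨v, ?_, ?_⟩))
      · have g := g2 hw
        rw [hw, Nat.zero_mod] at h1
        unfold Nu at g
        push Not at g
        have g' := g hv
        exact mem_filter.2 ⟨mem_univ _, by omega, g'.1, g'.2⟩
      · rw [Prod.mk.injEq]; exact ⟨rfl, Fin.ext (by rw [hw])⟩
    refine mem_union_right _ ?_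
    have g := g3 hv hw h1
    by_cases hF : Fa r s k v w
    · exact mem_union_left _ (mem_filter.2 ⟨mem_univ _, hF⟩)
    · exact mem_union_right _ (mem_image.2 ⟨(w, v), mem_filter.2 ⟨mem_univ _, g hF⟩, rfl⟩))
  have c2 := card_union_le (A.image (fun w : Fin n => (z, w)) ∪ A.image (fun w : Fin n => (w, z)))
    (B ∪ B.image Prod.swap)
  have c3 := card_union_le (A.image (fun w : Fin n => (z, w))) (A.image (fun w : Fin n => (w, z)))
  have c4 := card_union_le B (B.image Prod.swap)
  have c5 := card_image_le (s := A) (f := fun w : Fin n => (z, w))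
  have c6 := card_image_le (s := A) (f := fun w : Fin n => (w, z))
  have c7 := card_image_le (s := B) (f := Prod.swap)
  omega

end Pool.Agent.K7.H61.TS
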