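import Pool.Agent.K7.H61.TS.Lower

set_option autoImplicit false

namespace Pool.Agent.K7.H61.TS

open Finset Classical

lemma exists_saturated {n r : ℕ} (H : SimpleGraph (Fin n)) (hH : H.CliqueFree (r + 1)) :
    ∃ G : SimpleGraph (Fin n), H ≤ G ∧ G.CliqueFree (r + 1) ∧
      ∀ x y, x ≠ y → ¬ G.Adj x y → ¬ (G ⊔ SimpleGraph.edge x y).CliqueFree (r + 1) := by
  obtain ⟨G, hHG, hmax⟩ := Finite.exists_le_maximal (p := fun G : SimpleGraph (Fin n) =>
    G.CliqueFree (r + 1)) hH
  refine ⟨G, hHG, hmax.1, fun x y hxy hadj hcon => ?_⟩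
  have h1 := hmax.2 hcon le_sup_left
  apply hadj
  apply h1
  rw [SimpleGraph.sup_adj, SimpleGraph.edge_adj]
  exact Or.inr ⟨Or.inl ⟨rfl, rfl⟩, hxy⟩

/-- the vertex with a given number. -/
def vt (n : ℕ) (hn : 0 < n) (a : ℕ) : Fin n := ⟨a % n, Nat.mod_lt _ hn⟩

lemma val_vt {n : ℕ} (hn : 0 < n) {a : ℕ} (h : a < n) : ((vt n hn a : Fin n) : ℕ) = a :=
  Nat.mod_eq_of_lt h

lemma nd {r i q : ℕ} (hq : q < r) : (r * i + q) / r = i ∧ (r * i + q) % r = q := by
  constructor
  · rw [Nat.mul_add_div (by omega), Nat.div_eq_of_lt hq, add_zero]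
  · rw [Nat.mul_add_mod, Nat.mod_eq_of_lt hq]

lemma not_Sp {r s k v : ℕ} (hs2 : 2 ≤ s) (hk : 1 ≤ k) (h : k ^ (s - 1) < v / r) :
    ¬ Sp r s k v := by
  have h1 : k ≤ k ^ (s - 1) := by
    calc k = k ^ 1 := (pow_one k).symm
      _ ≤ k ^ (s - 1) := Nat.pow_le_pow_right hk (by omega)
  unfold Sp
  omega

lemma Ad_of_not_Sp {r s k v w : ℕ} (hv : v ≠ 0) (hw : w ≠ 0) (hvw : v % r ≠ w % r)
    (h : ¬ Sp r s k w) : Ad r s k v w :=
  Or.inr (Or.inr ⟨hv, hw, hvw, fun h' => h h'.2.1, fun h' => h h'.1⟩)

lemma Ad_symm {r s k v w : ℕ} (h : Ad r s k v w) : Ad r s k w v := by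
  rcases h with h | h | ⟨h1, h2, h3, h4, h5⟩
  · exact Or.inr (Or.inl h)
  · exact Or.inl h
  · exact Or.inr (Or.inr ⟨h2, h1, h3.symm, h5, h4⟩)

/-- the transversal of a special pair. -/
def tv (r s k l q : ℕ) : ℕ :=
  if q ≤ 1 then r * (1 + l) + q else
    if q < s then r * (1 + l / k ^ (q - 1) % k) + q else r * (k ^ (s - 1) + 1) + q

lemma tv_div {r s k l q : ℕ} (hq : q < r) : tv r s k l q / r = (if q ≤ 1 then 1 + l else
    if q < s then 1 + l / k ^ (q - 1) % k else k ^ (s - 1) + 1) ∧ tv r s k l q % r = q := by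
  unfold tv
  split_ifs
  · exact nd hq
  · exact nd hq
  · exact nd hq

lemma tv_Ad {r s k l p q : ℕ} (hs2 : 2 ≤ s) (hk : 1 ≤ k) (hpq : p < q)
    (hq : q < r) (h01 : ¬ (p = 0 ∧ q = 1)) : Ad r s k (tv r s k l p) (tv r s k l q) := by
  obtain ⟨a1, a2⟩ := tv_div (s := s) (k := k) (l := l) (q := p) (r := r) (by omega)
  obtain ⟨b1, b2⟩ := tv_div (s := s) (k := k) (l := l) (q := q) (r := r) hq
  have hq1 : ¬ q ≤ 1 := by omega
  have hv0 : tv r s k l p ≠ 0 := by
    intro h
    rw [h, Nat.zero_div] at a1
    split_ifs at a1 <;> omega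
  have hw0 : tv r s k l q ≠ 0 := by
    intro h
    rw [h, Nat.zero_mod] at b2
    omega
  by_cases hqs : q < s
  · refine Or.inr (Or.inr ⟨hv0, hw0, by rw [a2, b2]; omega, ?_, ?_⟩)
    · rintro ⟨-, -, h | h⟩
      · rw [b2] at h; omega
      · obtain ⟨h1, h2, h3, h4⟩ := h
        rw [a2] at h1
        apply h4
        rw [a1, b1, b2]
        simp only [h1, hq1, hqs, if_true, if_false]
        rw [Nat.add_sub_cancel_left, Nat.add_sub_cancel_left]
    · rintro ⟨-, -, h | h⟩
      · rw [b2] at h; omega
      · rw [b2] at h; omega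
  · apply Ad_of_not_Sp hv0 hw0 (by rw [a2, b2]; omega)
    apply not_Sp hs2 hk
    rw [b1]
    simp only [hq1, hqs, if_false]
    omega

/-- every deletion set is large. -/
theorem lower_del {n r s k : ℕ} (hs2 : 2 ≤ s) (hsr : s ≤ r) (hk : 1 ≤ k)
    (hn : r * (2 * k ^ (s - 1) + 2) ≤ n) (G : SimpleGraph (Fin n)) (hG0 : G0 n r s k ≤ G)
    (hG : G.CliqueFree (r + 1)) (D : Finset (Fin n)) (c : Fin n → Fin r)
    (hD : ∀ x ∉ D, ∀ y ∉ D, (G.Adj x y ↔ c x ≠ c y)) : k ^ (s - 1) ≤ D.card := by
  set N := k ^ (s - 1) with hN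
  have hN1 : 1 ≤ N := Nat.one_le_pow _ _ hk
  have hkN : k ≤ N := by
    calc k = k ^ 1 := (pow_one k).symm
      _ ≤ k ^ (s - 1) := Nat.pow_le_pow_right hk (by omega)
  have hr0 : 0 < r := by omega
  have hn0 : 0 < n := by nlinarith
  -- all the vertices that are used
  have hb : ∀ i q, i ≤ 2 * N + 1 → q < r → r * i + q < n := by
    intro i q hi hq
    have : r * i ≤ r * (2 * N + 1) := Nat.mul_le_mul_left _ hi
    nlinarith
  have hadj : ∀ a b, a < n → b < n → Ad r s k a b → G.Adj (vt n hn0 a) (vt n hn0 b) := by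
    intro a b ha hb' h
    apply hG0
    change Ad r s k _ _
    rw [val_vt hn0 ha, val_vt hn0 hb']
    exact h
  set col : Fin n → Fin r := fun v => ⟨(v : ℕ) % r, Nat.mod_lt _ hr0⟩ with hcol
  set X : ℕ → Fin n := fun l => vt n hn0 (r * (1 + l) + 0) with hX
  set Y : ℕ → Fin n := fun l => vt n hn0 (r * (1 + l) + 1) with hY
  set g : ℕ → Fin n := fun t => vt n hn0 (r * (N + 1 + t) + 0) with hg
  have htv : ∀ l < N, ∀ q < r, tv r s k l q < n := by
    intro l hl q hq
    unfold tv
    split_ifs
    · exact hb _ _ (by omega) hq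
    · apply hb _ _ _ hq
      have := Nat.mod_lt (l / k ^ (q - 1)) (by omega : 0 < k)
      omega
    · exact hb _ _ (by omega) hq
  -- the special pairs are not adjacent
  have hXY : ∀ l < N, ¬ G.Adj (X l) (Y l) := by
    intro l hl h
    have hcl := clique_join (G := G) (c := col) (A := {vt n hn0 0}) (J := univ)
      (f := fun q => vt n hn0 (tv r s k l q)) (by
        intro a ha b hb' hab
        exact absurd ((mem_singleton.1 ha).trans (mem_singleton.1 hb').symm) hab)
      (by
        intro q _
        apply Fin.ext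
        change ((vt n hn0 (tv r s k l q) : Fin n) : ℕ) % r = q
        rw [val_vt hn0 (htv l hl q q.isLt)]
        exact (tv_div q.isLt).2)
      (by
        intro p _ q _ hM
        have main : ∀ p q : Fin r, (p : ℕ) < q →
            G.Adj (vt n hn0 (tv r s k l p)) (vt n hn0 (tv r s k l q)) := by
          intro p q hpq
          by_cases h01 : (p : ℕ) = 0 ∧ (q : ℕ) = 1
          · rw [h01.1, h01.2]
            have e1 : tv r s k l 0 = r * (1 + l) + 0 := by simp [tv]
            have e2 : tv r s k l 1 = r * (1 + l) + 1 := by simp [tv]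
            rw [e1, e2]; exact h
          · exact hadj _ _ (htv l hl p p.isLt) (htv l hl q q.isLt) (tv_Ad hs2 hk hpq q.isLt h01)
        rcases lt_trichotomy (p : ℕ) (q : ℕ) with h1 | h1 | h1
        · exact hM.2 (main p q h1)
        · have e : p = q := Fin.ext h1
          exact hM.1 (by rw [e])
        · exact hM.2 (main q p h1).symm)
      (by
        intro a ha q _
        rw [mem_singleton.1 ha]
        apply hadj 0 _ hn0 (htv l hl q q.isLt)
        refine Or.inl ⟨rfl, ?_, ?_⟩
        · intro h0
          obtain ⟨a1, a2⟩ := tv_div (s := s) (k := k) (l := l) (q := q) (r := r) q.isLt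
          rw [h0, Nat.zero_div] at a1
          split_ifs at a1 <;> omega
        · obtain ⟨a1, a2⟩ := tv_div (s := s) (k := k) (l := l) (q := q) (r := r) q.isLt
          by_cases hqs : s ≤ (q : ℕ)
          · left; rw [a2]; exact hqs
          · right
            unfold Sp
            rw [a1, a2]
            by_cases h1 : (q : ℕ) ≤ 1
            · simp only [h1, if_true]
              exact ⟨by omega, Or.inl ⟨trivial, by omega⟩⟩
            · push Not at hqs
              simp only [h1, hqs, if_true, if_false]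
              have := Nat.mod_lt (l / k ^ ((q : ℕ) - 1)) (by omega : 0 < k)
              exact ⟨by omega, Or.inr ⟨by omega, trivial, by omega⟩⟩)
    rw [card_singleton, card_univ, Fintype.card_fin, add_comm] at hcl
    exact hG _ hcl
  have hgX : ∀ t < N, ∀ l < N, ¬ G.Adj (g t) (X l) := by
    intro t ht l hl h
    set q0 : Fin r := ⟨0, hr0⟩ with hq0
    have hJ : ∀ q ∈ univ.erase q0, 1 ≤ (q : ℕ) := by
      intro q hq
      have := (mem_erase.1 hq).1
      by_contra hcon
      exact this (Fin.ext (by rw [hq0]; simp only; omega))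
    have hfq : ∀ q : Fin r, r * (N + 1) + q < n := fun q => hb _ _ (by omega) q.isLt
    have hnsp : ∀ q : Fin r, ¬ Sp r s k (r * (N + 1) + q) := by
      intro q
      apply not_Sp hs2 hk
      rw [(nd q.isLt).1]; omega
    have hcl := clique_join (G := G) (c := col) (A := {g t, X l}) (J := univ.erase q0)
      (f := fun q => vt n hn0 (r * (N + 1) + q)) (by
        intro a ha b hb' hab
        rcases mem_insert.1 ha with ea | ea
        · rcases mem_insert.1 hb' with eb | eb
          · exact absurd (ea.trans eb.symm) hab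
          · rw [ea, mem_singleton.1 eb]; exact h
        · rcases mem_insert.1 hb' with eb | eb
          · rw [mem_singleton.1 ea, eb]; exact h.symm
          · exact absurd ((mem_singleton.1 ea).trans (mem_singleton.1 eb).symm) hab)
      (by
        intro q _
        apply Fin.ext
        change ((vt n hn0 (r * (N + 1) + q) : Fin n) : ℕ) % r = q
        rw [val_vt hn0 (hfq q)]
        exact (nd q.isLt).2)
      (by
        intro p hp q hq hM
        apply hM.2
        apply hadj _ _ (hfq p) (hfq q)
        have hp1 := hJ p hp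
        have hq1 := hJ q hq
        apply Ad_of_not_Sp (by omega) (by omega) _ (hnsp q)
        rw [(nd p.isLt).2, (nd q.isLt).2]
        intro e
        exact hM.1 (by simp only [Fin.ext e]))
      (by
        intro a ha q hq
        have hq1 := hJ q hq
        rcases mem_insert.1 ha with ea | ea
        · rw [ea]
          apply hadj _ _ (hb _ _ (by omega) hr0) (hfq q)
          apply Ad_of_not_Sp _ (by omega) _ (hnsp q)
          · have : 0 < r * (N + 1 + t) := Nat.mul_pos hr0 (by omega)
            omega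
          · rw [(nd hr0).2, (nd q.isLt).2]; omega
        · rw [mem_singleton.1 ea]
          apply hadj _ _ (hb _ _ (by omega) hr0) (hfq q)
          apply Ad_of_not_Sp _ (by omega) _ (hnsp q)
          · have : 0 < r * (1 + l) := Nat.mul_pos hr0 (by omega)
            omega
          · rw [(nd hr0).2, (nd q.isLt).2]; omega)
    rw [card_pair h.ne, card_erase_of_mem (mem_univ _), card_univ, Fintype.card_fin] at hcl
    have e : 2 + (r - 1) = r + 1 := by omega
    rw [e] at hcl
    exact hG _ hcl
  have hgY : ∀ t < N, ∀ l < N, G.Adj (g t) (Y l) := by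
    intro t ht l hl
    have h1r : 1 < r := by omega
    apply hadj _ _ (hb _ _ (by omega) hr0) (hb _ _ (by omega) h1r)
    apply Ad_symm
    apply Ad_of_not_Sp (by omega)
    · have : 0 < r * (N + 1 + t) := Nat.mul_pos hr0 (by omega)
      omega
    · rw [(nd hr0).2, (nd h1r).2]; omega
    · apply not_Sp hs2 hk
      rw [(nd hr0).1]; omega
  have hval : ∀ i q, i ≤ 2 * N + 1 → q < r → ((vt n hn0 (r * i + q) : Fin n) : ℕ) / r = i := by
    intro i q hi hq
    rw [val_vt hn0 (hb i q hi hq)]
    exact (nd hq).1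
  by_cases hall : ∀ t < N, g t ∈ D
  · have : (range N).card ≤ D.card := by
      apply card_le_card_of_injOn g
      · intro t ht
        exact hall t (mem_range.1 ht)
      · intro t ht t' ht' h
        have h1 := mem_range.1 ht
        have h2 := mem_range.1 ht'
        have e1 := hval (N + 1 + t) 0 (by omega) hr0
        have e2 := hval (N + 1 + t') 0 (by omega) hr0
        have h' : vt n hn0 (r * (N + 1 + t) + 0) = vt n hn0 (r * (N + 1 + t') + 0) := h
        rw [h'] at e1
        omega
    rwa [card_range] at this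
  · push Not at hall
    obtain ⟨t, ht, hgt⟩ := hall
    have hor : ∀ l < N, X l ∈ D ∨ Y l ∈ D := by
      intro l hl
      by_contra hcon
      push Not at hcon
      obtain ⟨h1, h2⟩ := hcon
      have e1 : c (X l) = c (Y l) := by
        by_contra hne
        exact hXY l hl ((hD _ h1 _ h2).2 hne)
      have e2 : c (g t) = c (X l) := by
        by_contra hne
        exact hgX t ht l hl ((hD _ hgt _ h1).2 hne)
      exact (hD _ hgt _ h2).1 (hgY t ht l hl) (e2.trans e1)
    have h1r : 1 < r := by omega
    have : (range N).card ≤ D.card := by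
      apply card_le_card_of_injOn (fun l => if X l ∈ D then X l else Y l)
      · intro l hl
        have hl' := mem_range.1 hl
        change (if X l ∈ D then X l else Y l) ∈ D
        by_cases h : X l ∈ D
        · rw [if_pos h]; exact h
        · rw [if_neg h]
          exact (hor l hl').resolve_left h
      · intro l hl l' hl' h
        have h1 := mem_range.1 hl
        have h2 := mem_range.1 hl'
        have hdiv : ∀ l < N, (((if X l ∈ D then X l else Y l : Fin n)) : ℕ) / r = 1 + l := by
          intro l hl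
          by_cases h : X l ∈ D
          · rw [if_pos h]; exact hval (1 + l) 0 (by omega) hr0
          · rw [if_neg h]; exact hval (1 + l) 1 (by omega) h1r
        have e1 := hdiv l h1
        have e2 := hdiv l' h2
        have h' : (if X l ∈ D then X l else Y l) = (if X l' ∈ D then X l' else Y l') := h
        rw [h'] at e1
        omega
    rwa [card_range] at this

end Pool.Agent.K7.H61.TS
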