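import Pool.Agent.K7.H61.TS.Strong

set_option autoImplicit false

namespace Pool.Agent.K7.H61.TS

open Finset Classical

section
variable {V : Type}

lemma dF_split (F : V → V → Prop) {A B : Finset V} (h : Disjoint A B) (v : V) :
    dF F (A ∪ B) v = dF F A v + dF F B v := by
  unfold dF
  rw [filter_union, card_union_of_disjoint]
  exact disjoint_filter_filter h

lemma dF_comm {F : V → V → Prop} (symm : ∀ a b, F a b → F b a) (A B : Finset V) :
    ∑ v ∈ A, dF F B v = ∑ v ∈ B, dF F A v := by
  unfold dF
  simp only [card_filter]
  rw [sum_comm]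
  refine sum_congr rfl fun a _ => sum_congr rfl fun b _ => ?_
  have : F b a ↔ F a b := ⟨symm _ _, symm _ _⟩
  simp only [this]

/-- The partition of a graph without large cliques. -/
theorem furedi {F : V → V → Prop} (symm : ∀ a b, F a b → F b a) (irr : ∀ a, ¬ F a a) (r : ℕ) :
    ∀ U : Finset V, (∀ s ⊆ U, s.card = r + 1 → ¬ (∀ a ∈ s, ∀ b ∈ s, a ≠ b → F a b)) →
      ∃ c : V → ℕ, (∀ v ∈ U, c v < r) ∧
        F2 F U + ∑ i ∈ range r, (F2 F (U.filter (fun v => c v = i)) +
          (U.filter (fun v => c v = i)).card ^ 2) ≤ U.card ^ 2 := by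
  induction r with
  | zero =>
    intro U hU
    have hU0 : U = ∅ := by
      by_contra hne
      obtain ⟨v, hv⟩ := nonempty_iff_ne_empty.2 hne
      refine hU {v} (singleton_subset_iff.2 hv) (card_singleton v) ?_
      intro a ha b hb hab
      exact absurd ((mem_singleton.1 ha).trans (mem_singleton.1 hb).symm) hab
    subst hU0
    exact ⟨fun _ => 0, by simp, by simp [F2]⟩
  | succ r ih =>
    intro U hU
    rcases U.eq_empty_or_nonempty with hU0 | hne
    · subst hU0
      exact ⟨fun _ => 0, by simp, by simp [F2]⟩
    obtain ⟨x, hx, hmax⟩ := exists_max_image U (dF F U) hne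
    set B := U.filter (F x) with hB
    set A := U \ B with hA
    have hBU : B ⊆ U := filter_subset _ _
    have hAB : Disjoint A B := sdiff_disjoint
    have hU' : A ∪ B = U := sdiff_union_of_subset hBU
    obtain ⟨c, hc1, hc2⟩ := ih B (by
      intro s hs hcard hcl
      have hxs : x ∉ s := fun h => irr x (mem_filter.1 (hs h)).2
      refine hU (insert x s) ?_ ?_ ?_
      · exact insert_subset hx (hs.trans hBU)
      · rw [card_insert_of_notMem hxs, hcard]
      · intro a ha b hb hab
        rcases mem_insert.1 ha with ea | ha'
        · rcases mem_insert.1 hb with eb | hb'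
          · exact absurd (ea.trans eb.symm) hab
          · rw [ea]; exact (mem_filter.1 (hs hb')).2
        · rcases mem_insert.1 hb with eb | hb'
          · rw [eb]; exact symm _ _ (mem_filter.1 (hs ha')).2
          · exact hcl a ha' b hb' hab)
    refine ⟨fun v => if v ∈ B then c v else r, ?_, ?_⟩
    · intro v _
      by_cases h : v ∈ B
      · simp only [h, if_true]; exact (hc1 v h).trans (Nat.lt_succ_self r)
      · simp only [h, if_false]; exact Nat.lt_succ_self r
    · rw [sum_range_succ]
      have e1 : U.filter (fun v => (if v ∈ B then c v else r) = r) = A := by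
        ext v
        simp only [mem_filter, hA, mem_sdiff]
        constructor
        · rintro ⟨h1, h2⟩
          refine ⟨h1, fun h3 => ?_⟩
          simp only [h3, if_true] at h2
          have := hc1 v h3
          omega
        · rintro ⟨h1, h2⟩
          simp [h1, h2]
      have e2 : ∀ i ∈ range r, U.filter (fun v => (if v ∈ B then c v else r) = i) =
          B.filter (fun v => c v = i) := by
        intro i hi
        have hi' := mem_range.1 hi
        ext v
        simp only [mem_filter]
        constructor
        · rintro ⟨h1, h2⟩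
          by_cases h3 : v ∈ B
          · simp only [h3, if_true] at h2; exact ⟨h3, h2⟩
          · simp only [h3, if_false] at h2; omega
        · rintro ⟨h1, h2⟩
          simp [h1, h2, hBU h1]
      rw [e1, sum_congr rfl fun i hi => by rw [e2 i hi]]
      have hPU : F2 F U + F2 F A = 2 * ∑ v ∈ A, dF F U v + F2 F B := by
        rw [F2_eq, F2_eq, F2_eq]
        have h1 : ∑ v ∈ U, dF F U v = ∑ v ∈ A, dF F U v + ∑ v ∈ B, dF F U v := by
          conv_lhs => rw [← hU']
          rw [sum_union hAB]
          rw [hU']
        have h2 : ∀ v, dF F U v = dF F A v + dF F B v := fun v => by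
          rw [← dF_split F hAB, hU']
        have h3 : ∑ v ∈ B, dF F U v = ∑ v ∈ A, dF F B v + ∑ v ∈ B, dF F B v := by
          rw [sum_congr rfl fun v _ => h2 v, sum_add_distrib, dF_comm symm B A]
        have h4 : ∑ v ∈ A, dF F U v = ∑ v ∈ A, dF F A v + ∑ v ∈ A, dF F B v := by
          rw [sum_congr rfl fun v _ => h2 v, sum_add_distrib]
        rw [h1, h3]
        omega
      have hle : ∑ v ∈ A, dF F U v ≤ A.card * B.card := by
        calc ∑ v ∈ A, dF F U v ≤ ∑ _v ∈ A, B.card :=
              sum_le_sum fun v hv => hmax v (mem_sdiff.1 hv).1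
          _ = _ := by simp
      have hcard : U.card = A.card + B.card := by
        rw [← hU', card_union_of_disjoint hAB]
      rw [hcard]
      nlinarith

end

end Pool.Agent.K7.H61.TS
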