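import Pool.Agent.K7.H61.TS.Weak

set_option autoImplicit false

namespace Pool.Agent.K7.H61.TS

open Finset Classical

section
variable {V ι Λ : Type}

/-- the number of ordered pairs of the relation in `N`. -/
noncomputable def F2 (F : V → V → Prop) (N : Finset V) : ℕ :=
  ((N ×ˢ N).filter (fun e => F e.1 e.2)).card

lemma F2_eq (F : V → V → Prop) (N : Finset V) : F2 F N = ∑ v ∈ N, dF F N v := by
  unfold F2 dF
  rw [card_filter, sum_product]
  refine sum_congr rfl fun v _ => ?_
  rw [card_filter]

lemma SF_le {c : V → ι} {F : V → V → Prop} {N : Finset V} {J : Finset ι} {i j : ι}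
    {x y : Λ → V} {K : Λ → ι → V} {L : Finset Λ} (h : Fam c F N J i j x y K L) :
    SF F N x y L ≤ F2 F N := by
  rw [F2_eq]
  unfold SF
  rw [sum_add_distrib]
  have e1 : ∑ l ∈ L, dF F N (x l) = ∑ v ∈ L.image x, dF F N v := by
    rw [sum_image]
    intro a ha b hb hab
    exact h.xi a ha b hb hab
  have e2 : ∑ l ∈ L, dF F N (y l) = ∑ v ∈ L.image y, dF F N v := by
    rw [sum_image]
    intro a ha b hb hab
    exact h.yi a ha b hb hab
  rw [e1, e2, ← sum_union]
  · apply sum_le_sum_of_subset
    intro v hv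
    rcases mem_union.1 hv with hv | hv
    · obtain ⟨l, hl, rfl⟩ := mem_image.1 hv
      exact h.xN l hl
    · obtain ⟨l, hl, rfl⟩ := mem_image.1 hv
      exact h.yN l hl
  · rw [disjoint_left]
    intro v hv hv'
    obtain ⟨l, hl, rfl⟩ := mem_image.1 hv
    obtain ⟨l', hl', e⟩ := mem_image.1 hv'
    apply h.hij
    rw [← h.xc l hl, ← h.yc l' hl', e]

lemma cover {F : V → V → Prop} (symm : ∀ a b, F a b → F b a) {N N' Z A : Finset V} {z : V → V}
    (hN : N' ⊆ N) (hA : ∀ v ∈ A, v ∈ N ∧ v ∉ Z ∧ z v ∈ Z ∧ z v ∈ N ∧ F v (z v) ∧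
      ¬ (v ∈ N' ∧ z v ∈ N')) : F2 F N' + 2 * A.card ≤ F2 F N := by
  unfold F2
  set P' := (N' ×ˢ N').filter (fun e : V × V => F e.1 e.2) with hP'
  set A1 := A.image (fun v => (v, z v)) with hA1
  set A2 := A.image (fun v => (z v, v)) with hA2
  have c1 : A1.card = A.card := card_image_of_injective _ fun a b hab => (Prod.mk.inj hab).1
  have c2 : A2.card = A.card := card_image_of_injective _ fun a b hab => (Prod.mk.inj hab).2
  have d1 : Disjoint P' A1 := by
    rw [disjoint_left]
    rintro e he he'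
    obtain ⟨v, hv, rfl⟩ := mem_image.1 he'
    have := mem_product.1 (mem_filter.1 he).1
    exact (hA v hv).2.2.2.2.2 this
  have d2 : Disjoint (P' ∪ A1) A2 := by
    rw [disjoint_left]
    rintro e he he'
    obtain ⟨v, hv, rfl⟩ := mem_image.1 he'
    rcases mem_union.1 he with he | he
    · have := mem_product.1 (mem_filter.1 he).1
      exact (hA v hv).2.2.2.2.2 ⟨this.2, this.1⟩
    · obtain ⟨w, hw, e⟩ := mem_image.1 he
      have e1 := (Prod.mk.inj e).1
      have := (hA v hv).2.2.1
      rw [← e1] at this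
      exact (hA w hw).2.1 this
  have hsub : (P' ∪ A1) ∪ A2 ⊆ (N ×ˢ N).filter (fun e : V × V => F e.1 e.2) := by
    intro e he
    rcases mem_union.1 he with he | he
    · rcases mem_union.1 he with he | he
      · have h1 := mem_filter.1 he
        have h2 := mem_product.1 h1.1
        exact mem_filter.2 ⟨mem_product.2 ⟨hN h2.1, hN h2.2⟩, h1.2⟩
      · obtain ⟨v, hv, rfl⟩ := mem_image.1 he
        have := hA v hv
        exact mem_filter.2 ⟨mem_product.2 ⟨this.1, this.2.2.2.1⟩, this.2.2.2.2.1⟩
    · obtain ⟨v, hv, rfl⟩ := mem_image.1 he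
      have := hA v hv
      exact mem_filter.2 ⟨mem_product.2 ⟨this.2.2.2.1, this.1⟩, symm _ _ this.2.2.2.2.1⟩
  have := card_le_card hsub
  rw [card_union_of_disjoint d2, card_union_of_disjoint d1, c1, c2] at this
  omega

lemma exists_minimal {c : V → ι} {F : V → V → Prop} {N : Finset V} {J : Finset ι}
    (hF : Free c F N J) :
    ∃ J' ⊆ J, Free c F N J' ∧ ∀ q ∈ J', ¬ Free c F N (J'.erase q) := by
  obtain ⟨J', hJ', hmin⟩ := exists_min_image (J.powerset.filter (fun J' => Free c F N J'))
    Finset.card ⟨J, mem_filter.2 ⟨mem_powerset_self J, hF⟩⟩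
  have h1 := mem_filter.1 hJ'
  refine ⟨J', mem_powerset.1 h1.1, h1.2, fun q hq hfree => ?_⟩
  have := hmin (J'.erase q) (mem_filter.2 ⟨mem_powerset.2 ((erase_subset _ _).trans
    (mem_powerset.1 h1.1)), hfree⟩)
  have h2 := card_erase_lt_of_mem hq
  omega

lemma Free.filter {c : V → ι} {F : V → V → Prop} {N : Finset V} {J : Finset ι}
    (hF : Free c F N J) : Free c F (N.filter (fun v => c v ∈ J)) J := by
  intro f hf
  exact hF f fun p hp => ⟨(mem_filter.1 (hf p hp).1).1, (hf p hp).2⟩

lemma Free.mono {c : V → ι} {F : V → V → Prop} {N N' : Finset V} {J : Finset ι}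
    (hF : Free c F N J) (h : N' ⊆ N) : Free c F N' J := by
  intro f hf
  exact hF f fun p hp => ⟨h (hf p hp).1, (hf p hp).2⟩

lemma not_free_filter {c : V → ι} {F : V → V → Prop} {N : Finset V} {J J' : Finset ι}
    (hJ : J' ⊆ J) (hF : ¬ Free c F N J') : ¬ Free c F (N.filter (fun v => c v ∈ J)) J' := by
  intro h
  apply hF
  intro f hf
  exact h f fun p hp => ⟨mem_filter.2 ⟨(hf p hp).1, by rw [(hf p hp).2]; exact hJ hp⟩, (hf p hp).2⟩

/-- a free subset of the colours contains both colours of the pairs. -/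
lemma Fam.mem_of_free {c : V → ι} {F : V → V → Prop} (symm : ∀ a b, F a b → F b a)
    (hc : ∀ a b, F a b → c a ≠ c b) {N : Finset V} {J J' : Finset ι} {i j : ι}
    {x y : Λ → V} {K : Λ → ι → V} {L : Finset Λ} (h : Fam c F N J i j x y K L)
    (hJ : J' ⊆ J) (hF : Free c F N J') (hL : L.Nonempty) : i ∈ J' ∧ j ∈ J' := by
  obtain ⟨l, hl⟩ := hL
  constructor
  · by_contra hi
    refine hF (fun p => if p = j then y l else K l p) ?_ ?_
    · intro p hp
      have hpi : p ≠ i := fun e => hi (e ▸ hp)
      by_cases e : p = j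
      · subst e; simp only [if_true]; exact ⟨h.yN l hl, h.yc l hl⟩
      · simp only [e, if_false]; exact ⟨h.KN l hl p (hJ hp) hpi e, h.Kc l hl p (hJ hp) hpi e⟩
    · intro p hp q hq hpq
      have hpi : p ≠ i := fun e => hi (e ▸ hp)
      have hqi : q ≠ i := fun e => hi (e ▸ hq)
      by_cases e : p = j
      · by_cases e' : q = j
        · simp only [e, e', if_true] at hpq; exact hc _ _ hpq rfl
        · simp only [e, e', if_true, if_false] at hpq
          exact h.Ky l hl q (hJ hq) hqi e' (symm _ _ hpq)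
      · by_cases e' : q = j
        · simp only [e, e', if_true, if_false] at hpq
          exact h.Ky l hl p (hJ hp) hpi e hpq
        · simp only [e, e', if_false] at hpq
          exact h.KK l hl p (hJ hp) hpi e q (hJ hq) hqi e' hpq
  · by_contra hj
    refine hF (fun p => if p = i then x l else K l p) ?_ ?_
    · intro p hp
      have hpi : p ≠ j := fun e => hj (e ▸ hp)
      by_cases e : p = i
      · subst e; simp only [if_true]; exact ⟨h.xN l hl, h.xc l hl⟩
      · simp only [e, if_false]; exact ⟨h.KN l hl p (hJ hp) e hpi, h.Kc l hl p (hJ hp) e hpi⟩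
    · intro p hp q hq hpq
      have hpi : p ≠ j := fun e => hj (e ▸ hp)
      have hqi : q ≠ j := fun e => hj (e ▸ hq)
      by_cases e : p = i
      · by_cases e' : q = i
        · simp only [e, e', if_true] at hpq; exact hc _ _ hpq rfl
        · simp only [e, e', if_true, if_false] at hpq
          exact h.Kx l hl q (hJ hq) e' hqi (symm _ _ hpq)
      · by_cases e' : q = i
        · simp only [e, e', if_true, if_false] at hpq
          exact h.Kx l hl p (hJ hp) e hpi hpq
        · simp only [e, e', if_false] at hpq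
          exact h.KK l hl p (hJ hp) e hpi q (hJ hq) e' hqi hpq

lemma Fam.restrict {c : V → ι} {F : V → V → Prop} {N : Finset V} {J J' : Finset ι} {i j : ι}
    {x y : Λ → V} {K : Λ → ι → V} {L : Finset Λ} (h : Fam c F N J i j x y K L)
    (hJ : J' ⊆ J) (hi : i ∈ J') (hj : j ∈ J') :
    Fam c F (N.filter (fun v => c v ∈ J')) J' i j x y K L := by
  refine ⟨hi, hj, h.hij, ?_, h.xc, ?_, h.yc, h.xi, h.yi, ?_, ?_, ?_, ?_, ?_⟩
  · intro l hl
    exact mem_filter.2 ⟨h.xN l hl, by rw [h.xc l hl]; exact hi⟩
  · intro l hl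
    exact mem_filter.2 ⟨h.yN l hl, by rw [h.yc l hl]; exact hj⟩
  · intro l hl p hp h1 h2
    exact mem_filter.2 ⟨h.KN l hl p (hJ hp) h1 h2, by rw [h.Kc l hl p (hJ hp) h1 h2]; exact hp⟩
  · intro l hl p hp h1 h2
    exact h.Kc l hl p (hJ hp) h1 h2
  · intro l hl p hp h1 h2 q hq h3 h4
    exact h.KK l hl p (hJ hp) h1 h2 q (hJ hq) h3 h4
  · intro l hl p hp h1 h2
    exact h.Kx l hl p (hJ hp) h1 h2
  · intro l hl p hp h1 h2
    exact h.Ky l hl p (hJ hp) h1 h2

lemma pigeon {α β : Type} (f : α → β) (s : Finset α) (t : Finset β) (hf : ∀ a ∈ s, f a ∈ t)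
    (hs : s.Nonempty) : ∃ y ∈ t, s.card ≤ t.card * (s.filter (fun a => f a = y)).card := by
  by_contra hcon
  push Not at hcon
  have ht : t.Nonempty := by
    obtain ⟨a, ha⟩ := hs
    exact ⟨f a, hf a ha⟩
  have h1 := card_eq_sum_card_fiberwise hf
  have h2 : ∑ y ∈ t, t.card * (s.filter (fun a => f a = y)).card < ∑ y ∈ t, s.card :=
    sum_lt_sum_of_nonempty ht hcon
  rw [← mul_sum, ← h1] at h2
  simp at h2

/-- the vertices of the transversals of minimality. -/
lemma exists_Z {c : V → ι} {F : V → V → Prop} (symm : ∀ a b, F a b → F b a)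
    (hc : ∀ a b, F a b → c a ≠ c b) {N : Finset V} {J : Finset ι}
    (hN : ∀ v ∈ N, c v ∈ J) (hF : Free c F N J) (hmin : ∀ q ∈ J, ¬ Free c F N (J.erase q)) :
    ∃ Z ⊆ N, Z.card ≤ J.card * J.card ∧ ∀ v ∈ N, ∃ z ∈ Z, F v z := by
  have hex : ∀ q ∈ J, ∃ f, Tr c N (J.erase q) f ∧ Ind F (J.erase q) f := by
    intro q hq
    have := hmin q hq
    unfold Free at this
    push Not at this
    exact this
  by_cases hV : Nonempty V
  swap
  · exact ⟨∅, empty_subset _, by simp, fun v _ => absurd ⟨v⟩ hV⟩
  choose! f hf1 hf2 using hex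
  refine ⟨J.biUnion (fun q => (J.erase q).image (f q)), ?_, ?_, ?_⟩
  · intro v hv
    obtain ⟨q, hq, hv⟩ := mem_biUnion.1 hv
    obtain ⟨p, hp, rfl⟩ := mem_image.1 hv
    exact (hf1 q hq p hp).1
  · refine card_biUnion_le_card_mul _ _ _ fun q _ => ?_
    exact le_trans card_image_le (card_le_card (erase_subset _ _))
  · intro v hv
    have hq := hN v hv
    by_contra hcon
    push Not at hcon
    have hno : ∀ p ∈ J.erase (c v), ¬ F v (f (c v) p) := fun p hp =>
      hcon _ (mem_biUnion.2 ⟨c v, hq, mem_image_of_mem _ hp⟩)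
    refine hF (fun p => if p = c v then v else f (c v) p) ?_ ?_
    · intro p hp
      by_cases e : p = c v
      · subst e; simp [hv]
      · simp only [e, if_false]
        exact hf1 _ hq p (mem_erase.2 ⟨e, hp⟩)
    · intro p hp q hq' hpq
      by_cases e : p = c v
      · by_cases e' : q = c v
        · simp only [e, e', if_true] at hpq; exact hc _ _ hpq rfl
        · simp only [e, e', if_true, if_false] at hpq
          exact hno q (mem_erase.2 ⟨e', hq'⟩) hpq
      · by_cases e' : q = c v
        · simp only [e, e', if_true, if_false] at hpq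
          exact hno p (mem_erase.2 ⟨e, hp⟩) (symm _ _ hpq)
        · simp only [e, e', if_false] at hpq
          exact hf2 _ hq p (mem_erase.2 ⟨e, hp⟩) q (mem_erase.2 ⟨e', hq'⟩) hpq

end

lemma half_pow {h n a : ℕ} (hn : 1 ≤ n) (ha : 1 ≤ a) (hh : h ^ n ≤ 2 * a) :
    (max 1 (h / 2)) ^ n ≤ a := by
  rcases le_or_gt (h / 2) 1 with h1 | h1
  · rw [max_eq_left h1, one_pow]; exact ha
  · rw [max_eq_right h1.le]
    have e1 : 2 * (h / 2) ^ n ≤ h ^ n := by
      calc 2 * (h / 2) ^ n ≤ 2 ^ n * (h / 2) ^ n := by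
            gcongr
            calc 2 = 2 ^ 1 := by norm_num
              _ ≤ 2 ^ n := Nat.pow_le_pow_right (by norm_num) hn
        _ = (2 * (h / 2)) ^ n := by rw [mul_pow]
        _ ≤ h ^ n := by gcongr; exact Nat.mul_div_le h 2
    omega

lemma frac_pow {h n n' a m : ℕ} (hn : 1 ≤ n) (hn' : n' ≤ n) (hm : 1 ≤ m) (ha : 1 ≤ a)
    (hh : h ^ n ≤ m * a) : (max 1 (h / m)) ^ n' ≤ a := by
  have h0 : (max 1 (h / m)) ^ n' ≤ (max 1 (h / m)) ^ n :=
    Nat.pow_le_pow_right (by positivity) hn'
  refine h0.trans ?_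
  rcases le_or_gt (h / m) 1 with h1 | h1
  · rw [max_eq_left h1, one_pow]; exact ha
  · rw [max_eq_right h1.le]
    have e1 : m * (h / m) ^ n ≤ h ^ n := by
      calc m * (h / m) ^ n ≤ m ^ n * (h / m) ^ n := by
            gcongr
            calc m = m ^ 1 := (pow_one m).symm
              _ ≤ m ^ n := Nat.pow_le_pow_right hm hn
        _ = (m * (h / m)) ^ n := by rw [mul_pow]
        _ ≤ h ^ n := by gcongr; exact Nat.mul_div_le h m
    exact Nat.le_of_mul_le_mul_left (e1.trans hh) hm

/-- The strong counting lemma. -/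
theorem strong (k : ℕ) : ∃ C : ℕ, ∀ (V ι Λ : Type) (c : V → ι) (F : V → V → Prop)
    (_ : ∀ a b, F a b → F b a) (_ : ∀ a b, F a b → c a ≠ c b)
    (N : Finset V) (J : Finset ι) (i j : ι) (x y : Λ → V) (K : Λ → ι → V) (L : Finset Λ),
    J.card ≤ k → (∀ v ∈ N, c v ∈ J) → Free c F N J → (∀ q ∈ J, ¬ Free c F N (J.erase q)) →
    Fam c F N J i j x y K L → ∀ h : ℕ, h ^ (J.card - 1) ≤ L.card →
    (h * L.card : ℤ) ≤ C * ((F2 F N : ℤ) - 2 * N.card + C) := by
  induction k with
  | zero =>
    refine ⟨0, ?_⟩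
    intro V ι Λ c F symm hc N J i j x y K L hJ hN hF hmin hfam h hh
    have : J.card = 0 := by omega
    rw [card_eq_zero] at this
    have h1 := hfam.hi
    rw [this] at h1
    exact absurd h1 (notMem_empty _)
  | succ k ih =>
    obtain ⟨C', ih⟩ := ih
    set M := (k + 1) * (k + 1) with hM
    set m := 2 * M with hm
    refine ⟨12 * 6 ^ k + 2 * m ^ 2 * C' + C' + 2 * M + m, ?_⟩
    intro V ι Λ c F symm hc N J i j x y K L hJ hN hF hmin hfam h hh
    obtain ⟨Z, hZN, hZc, hZ⟩ := exists_Z symm hc hN hF hmin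
    have hZM : Z.card ≤ M := hZc.trans (Nat.mul_le_mul hJ hJ)
    have hM1 : 1 ≤ M := by rw [hM]; nlinarith
    have hJ2 : 2 ≤ J.card := by
      rw [← card_pair hfam.hij]
      apply card_le_card
      intro p hp
      rcases mem_insert.1 hp with rfl | hp
      · exact hfam.hi
      · rw [mem_singleton.1 hp]; exact hfam.hj
    choose! z hz1 hz2 using hZ
    have hcov := cover symm (N := N) (N' := N \ Z) (Z := Z) (A := N \ Z) (z := z) sdiff_subset (by
      intro v hv
      have h1 := mem_sdiff.1 hv
      exact ⟨h1.1, h1.2, hz1 v h1.1, hZN (hz1 v h1.1), hz2 v h1.1,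
        fun h2 => (mem_sdiff.1 h2.2).2 (hz1 v h1.1)⟩)
    have hcs : (N \ Z).card + Z.card = N.card := card_sdiff_add_card_eq_card hZN
    set D : ℤ := (F2 F N : ℤ) - 2 * N.card with hD
    have hDZ : (F2 F (N \ Z) : ℤ) ≤ D + 2 * M := by
      rw [hD]; omega
    have hD0 : 0 ≤ D + 2 * M := le_trans (by positivity) hDZ
    set L' := L.filter (fun l => x l ∉ Z ∧ y l ∉ Z ∧ ∀ p ∈ J, p ≠ i → p ≠ j → K l p ∉ Z) with hL'
    have hL'L : L' ⊆ L := filter_subset _ _
    have hL'mem : ∀ l ∈ L', x l ∉ Z ∧ y l ∉ Z ∧ ∀ p ∈ J, p ≠ i → p ≠ j → K l p ∉ Z :=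
      fun l hl => (mem_filter.1 hl).2
    have hCnn : (0 : ℤ) ≤ 2 * m ^ 2 * C' := by positivity
    have h6nn : (0 : ℤ) ≤ 12 * 6 ^ k := by positivity
    by_cases hA : L.card ≤ 2 * L'.card
    · by_cases h0 : L'.card = 0
      · have : L.card = 0 := by omega
        rw [this]
        push_cast
        rw [mul_zero]
        apply mul_nonneg
        · positivity
        · have : (0:ℤ) ≤ m := by positivity
          have : (0:ℤ) ≤ C' := by positivity
          linarith
      · have hpow := half_pow (h := h) (n := J.card - 1) (a := L'.card) (by omega) (by omega)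
          (hh.trans hA)
        set h₁ := max 1 (h / 2) with hh₁
        have hh3 : h ≤ 3 * h₁ := by
          rw [hh₁]; omega
        have hfam' : Fam c F (N \ Z) J i j x y K L' := by
          have h1 := hfam.sub hL'L
          refine ⟨h1.hi, h1.hj, h1.hij, fun l hl => mem_sdiff.2 ⟨h1.xN l hl, (hL'mem l hl).1⟩,
            h1.xc, fun l hl => mem_sdiff.2 ⟨h1.yN l hl, (hL'mem l hl).2.1⟩, h1.yc, h1.xi, h1.yi,
            fun l hl p hp h2 h3 => mem_sdiff.2 ⟨h1.KN l hl p hp h2 h3,
              (hL'mem l hl).2.2 p hp h2 h3⟩, h1.Kc, h1.KK, h1.Kx, h1.Ky⟩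
        have hw := weak symm hc (J.card - 2) (N \ Z) J i j x y K L' (by omega)
          (hF.mono sdiff_subset) hfam' h₁ (by
            have : J.card - 2 + 1 = J.card - 1 := by omega
            rw [this]; exact hpow)
        have hS := SF_le hfam'
        have h6 : 6 ^ (J.card - 2) ≤ 6 ^ k := Nat.pow_le_pow_right (by norm_num) (by omega)
        have hw2 : h * L.card ≤ 12 * 6 ^ k * F2 F (N \ Z) := by
          calc h * L.card ≤ (3 * h₁) * (2 * L'.card) := Nat.mul_le_mul hh3 hA
            _ = 6 * (h₁ * L'.card) := by ring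
            _ ≤ 6 * (2 * 6 ^ (J.card - 2) * SF F (N \ Z) x y L') := by gcongr
            _ ≤ 6 * (2 * 6 ^ k * F2 F (N \ Z)) := by gcongr
            _ = _ := by ring
        have hw3 : (h * L.card : ℤ) ≤ 12 * 6 ^ k * (F2 F (N \ Z) : ℤ) := by exact_mod_cast hw2
        have hmnn : (0:ℤ) ≤ m := by positivity
        have hC'nn : (0:ℤ) ≤ C' := by positivity
        have hMnn : (0:ℤ) ≤ M := by positivity
        calc (h * L.card : ℤ) ≤ 12 * 6 ^ k * (F2 F (N \ Z) : ℤ) := hw3
          _ ≤ 12 * 6 ^ k * (D + 2 * M) := mul_le_mul_of_nonneg_left hDZ h6nn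
          _ ≤ ((12 * 6 ^ k + 2 * m ^ 2 * C' + C' + 2 * M + m : ℕ) : ℤ) *
                (D + ((12 * 6 ^ k + 2 * m ^ 2 * C' + C' + 2 * M + m : ℕ) : ℤ)) := by
              push_cast
              apply mul_le_mul
              · linarith
              · linarith
              · exact hD0
              · linarith
    · push Not at hA
      set bad := L \ L' with hbad
      have hbc : bad.card + L'.card = L.card := card_sdiff_add_card_eq_card hL'L
      have hbne : bad.Nonempty := card_pos.1 (by omega)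
      have hex : ∀ l ∈ bad, ∃ u ∈ Z, u = x l ∨ u = y l ∨ ∃ p ∈ J, p ≠ i ∧ p ≠ j ∧ u = K l p := by
        intro l hl
        have h1 := mem_sdiff.1 hl
        by_contra hcon
        push Not at hcon
        apply h1.2
        refine mem_filter.2 ⟨h1.1, fun h2 => (hcon _ h2).1 rfl, fun h2 => (hcon _ h2).2.1 rfl,
          fun p hp h3 h4 h2 => (hcon _ h2).2.2 p hp h3 h4 rfl⟩
      obtain ⟨l0, hl0⟩ := hbne
      have hneV : Nonempty V := ⟨x l0⟩
      choose! g hg1 hg2 using hex
      obtain ⟨w, hw, hwc⟩ := pigeon g bad Z hg1 ⟨l0, hl0⟩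
      set Lz := bad.filter (fun l => g l = w) with hLz
      have hLzL : Lz ⊆ L := (filter_subset _ _).trans sdiff_subset
      have hLm : L.card ≤ m * Lz.card := by
        have : Z.card * Lz.card ≤ M * Lz.card := Nat.mul_le_mul_right _ hZM
        have e : m * Lz.card = 2 * (M * Lz.card) := by rw [hm]; ring
        omega
      have hL1 : 1 ≤ L.card := by omega
      have hLz1 : 1 ≤ Lz.card := by
        by_contra hcon
        have : Lz.card = 0 := by omega
        rw [this] at hLm
        omega
      have hmnn : (0:ℤ) ≤ m := by positivity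
      have hC'nn : (0:ℤ) ≤ C' := by positivity
      have hMnn : (0:ℤ) ≤ M := by positivity
      have small : Lz.card ≤ 1 → (h * L.card : ℤ) ≤
          ((12 * 6 ^ k + 2 * m ^ 2 * C' + C' + 2 * M + m : ℕ) : ℤ) *
            (D + ((12 * 6 ^ k + 2 * m ^ 2 * C' + C' + 2 * M + m : ℕ) : ℤ)) := by
        intro h1
        have hLm' : L.card ≤ m := by nlinarith
        have hhL : h ≤ m := by
          refine le_trans ?_ (hh.trans hLm')
          exact Nat.le_self_pow (by omega) h
        have h3 : (h * L.card : ℤ) ≤ m * m := by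
          have : h * L.card ≤ m * m := Nat.mul_le_mul hhL hLm'
          exact_mod_cast this
        refine h3.trans ?_
        push_cast
        apply mul_le_mul
        · linarith
        · linarith
        · exact hmnn
        · linarith
      by_cases hci : c w = i
      · apply small
        have hx : ∀ l ∈ Lz, x l = w := by
          intro l hl
          have h1 := mem_filter.1 hl
          have hlL := hLzL hl
          rcases hg2 l h1.1 with e | e | ⟨p, hp, h2, h3, e⟩
          · rw [← e, h1.2]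
          · exfalso
            have := hfam.yc l hlL
            rw [← e, h1.2, hci] at this
            exact hfam.hij this
          · exfalso
            have := hfam.Kc l hlL p hp h2 h3
            rw [← e, h1.2, hci] at this
            exact h2 this.symm
        rw [card_le_one]
        intro a ha b hb
        exact hfam.xi a (hLzL ha) b (hLzL hb) ((hx a ha).trans (hx b hb).symm)
      by_cases hcj : c w = j
      · apply small
        have hy : ∀ l ∈ Lz, y l = w := by
          intro l hl
          have h1 := mem_filter.1 hl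
          have hlL := hLzL hl
          rcases hg2 l h1.1 with e | e | ⟨p, hp, h2, h3, e⟩
          · exfalso
            have := hfam.xc l hlL
            rw [← e, h1.2, hcj] at this
            exact hfam.hij this.symm
          · rw [← e, h1.2]
          · exfalso
            have := hfam.Kc l hlL p hp h2 h3
            rw [← e, h1.2, hcj] at this
            exact h3 this.symm
        rw [card_le_one]
        intro a ha b hb
        exact hfam.yi a (hLzL ha) b (hLzL hb) ((hy a ha).trans (hy b hb).symm)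
      have hK : ∀ l ∈ Lz, c w ∈ J ∧ K l (c w) = w := by
        intro l hl
        have h1 := mem_filter.1 hl
        have hlL := hLzL hl
        rcases hg2 l h1.1 with e | e | ⟨p, hp, h2, h3, e⟩
        · exfalso
          have := hfam.xc l hlL
          rw [← e, h1.2] at this
          exact hci this
        · exfalso
          have := hfam.yc l hlL
          rw [← e, h1.2] at this
          exact hcj this
        · have e2 := hfam.Kc l hlL p hp h2 h3
          rw [← e, h1.2] at e2
          subst e2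
          exact ⟨hp, by rw [← e, h1.2]⟩
      obtain ⟨l1, hl1⟩ := card_pos.1 (by omega : 0 < Lz.card)
      have hcwJ := (hK l1 hl1).1
      have hwN := hZN hw
      have hF2 := hF.erase symm hc hwN
      have hfam2 := (hfam.sub hLzL).erase hcwJ hci hcj (fun l hl => (hK l hl).2)
      obtain ⟨J', hJ'J, hJ'F, hJ'min⟩ := exists_minimal hF2
      have hij' := hfam2.mem_of_free symm hc hJ'J hJ'F ⟨l1, hl1⟩
      have hfam3 := hfam2.restrict hJ'J hij'.1 hij'.2
      have hJ'c : J'.card ≤ J.card - 1 := by
        refine (card_le_card hJ'J).trans ?_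
        rw [card_erase_of_mem hcwJ]
      have hpow := frac_pow (h := h) (n := J.card - 1) (n' := J'.card - 1) (a := Lz.card) (m := m)
        (by omega) (by omega) (by omega) hLz1 (hh.trans hLm)
      set h₂ := max 1 (h / m) with hh₂
      set N3 := (N.filter (fun v => ¬ F w v)).filter (fun v => c v ∈ J') with hN3
      have hih := ih V ι Λ c F symm hc N3 J' i j x y K Lz (by omega)
        (fun v hv => (mem_filter.1 hv).2) hJ'F.filter
        (fun q hq => not_free_filter (erase_subset _ _) (hJ'min q hq)) hfam3 h₂ hpow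
      have hhm : h ≤ 2 * m * h₂ := by
        have e1 : h < m * (h / m + 1) := by
          have := Nat.lt_mul_div_succ h (by omega : 0 < m)
          exact this
        have e2 : h / m ≤ h₂ := le_max_right _ _
        have e3 : 1 ≤ h₂ := le_max_left _ _
        calc h ≤ m * (h / m + 1) := e1.le
          _ ≤ m * (h₂ + h₂) := by gcongr
          _ = _ := by ring
      have hN3N : N3 ⊆ N := (filter_subset _ _).trans (filter_subset _ _)
      have hcov2 := cover symm (N := N) (N' := N3) (Z := Z) (A := (N \ N3) \ Z) (z := z) hN3N (by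
        intro v hv
        have h1 := mem_sdiff.1 hv
        have h2 := mem_sdiff.1 h1.1
        exact ⟨h2.1, h1.2, hz1 v h2.1, hZN (hz1 v h2.1), hz2 v h2.1, fun h3 => h2.2 h3.1⟩)
      have hc3 : (N \ N3).card + N3.card = N.card := card_sdiff_add_card_eq_card hN3N
      have hc4 : (N \ N3).card ≤ ((N \ N3) \ Z).card + Z.card := by
        have := le_card_sdiff Z (N \ N3)
        omega
      have hDD : (F2 F N3 : ℤ) - 2 * N3.card ≤ D + 2 * M := by
        rw [hD]; omega
      have hfin : (h * L.card : ℤ) ≤ 2 * m ^ 2 * (h₂ * Lz.card : ℤ) := by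
        have : h * L.card ≤ 2 * m ^ 2 * (h₂ * Lz.card) := by
          calc h * L.card ≤ (2 * m * h₂) * (m * Lz.card) := Nat.mul_le_mul hhm hLm
            _ = _ := by ring
        exact_mod_cast this
      calc (h * L.card : ℤ) ≤ 2 * m ^ 2 * (h₂ * Lz.card : ℤ) := hfin
        _ ≤ 2 * m ^ 2 * (C' * ((F2 F N3 : ℤ) - 2 * N3.card + C')) :=
            mul_le_mul_of_nonneg_left hih (by positivity)
        _ ≤ 2 * m ^ 2 * (C' * (D + 2 * M + C')) := by
            apply mul_le_mul_of_nonneg_left _ (by positivity)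
            apply mul_le_mul_of_nonneg_left _ (by positivity)
            linarith
        _ = (2 * m ^ 2 * C') * (D + 2 * M + C') := by ring
        _ ≤ ((12 * 6 ^ k + 2 * m ^ 2 * C' + C' + 2 * M + m : ℕ) : ℤ) *
            (D + ((12 * 6 ^ k + 2 * m ^ 2 * C' + C' + 2 * M + m : ℕ) : ℤ)) := by
          push_cast
          apply mul_le_mul
          · linarith
          · linarith
          · linarith
          · linarith

/-- The strong counting lemma, for a free set of colours which need not be minimal. -/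
theorem strong' (k : ℕ) : ∃ C : ℕ, ∀ (V ι Λ : Type) (c : V → ι) (F : V → V → Prop)
    (_ : ∀ a b, F a b → F b a) (_ : ∀ a b, F a b → c a ≠ c b)
    (N0 : Finset V) (Q Q' : Finset ι) (i j : ι) (x y : Λ → V) (K : Λ → ι → V) (L : Finset Λ),
    Q'.card ≤ k → Q' ⊆ Q → Free c F N0 Q' → Fam c F N0 Q i j x y K L → L.Nonempty →
    ∃ J ⊆ Q', 2 ≤ J.card ∧ ∀ N : Finset V, (∀ v, v ∈ N ↔ v ∈ N0 ∧ c v ∈ J) →
      ∀ h : ℕ, h ^ (J.card - 1) ≤ L.card →
        (h * L.card : ℤ) ≤ C * ((F2 F N : ℤ) - 2 * N.card + C) := by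
  obtain ⟨C, hC⟩ := strong k
  refine ⟨C, ?_⟩
  intro V ι Λ c F symm hc N0 Q Q' i j x y K L hQk hQ'Q hfree hfam hL
  obtain ⟨J, hJQ', hJf, hJmin⟩ := exists_minimal hfree
  have hJQ := hJQ'.trans hQ'Q
  have hij := hfam.mem_of_free symm hc hJQ hJf hL
  have hfamJ := hfam.restrict hJQ hij.1 hij.2
  refine ⟨J, hJQ', ?_, ?_⟩
  · rw [← card_pair hfam.hij]
    apply card_le_card
    intro p hp
    rcases mem_insert.1 hp with rfl | hp
    · exact hij.1
    · rw [mem_singleton.1 hp]; exact hij.2
  · intro N hN h hh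
    have e : N = N0.filter (fun v => c v ∈ J) := by
      ext v
      rw [hN, mem_filter]
    rw [e]
    exact hC V ι Λ c F symm hc _ J i j x y K L ((card_le_card hJQ').trans hQk)
      (fun v hv => (mem_filter.1 hv).2) hJf.filter
      (fun q hq => not_free_filter (erase_subset _ _) (hJmin q hq)) hfamJ h hh

end Pool.Agent.K7.H61.TS
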