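import Pool.Agent.K7.H61.TS.Good

set_option autoImplicit false

namespace Pool.Agent.K7.H61.TS

open Finset Classical

/-- the structure of a dense graph without large cliques. -/
theorem structure_thm {r : ℕ} (hr : 2 ≤ r) (E : ℕ) (hE : E = 200 * r ^ 3) (V : Type) [Fintype V]
    (G : SimpleGraph V) (hn0 : 768 * r * E ^ 2 ≤ Fintype.card V) (hG : G.CliqueFree (r + 1))
    (he : (1 - 1 / (r:ℝ)) * (Fintype.card V : ℝ) ^ 2 - r - 2 * (Fintype.card V : ℝ) ≤
      F2 G.Adj univ) :
    ∃ (c : V → Fin r) (W : Finset V), W.card ≤ 48 * r * E ∧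
      Good G c W (2 * Fintype.card V / E) (Fintype.card V / (8 * E)) := by
  have hE1 : 1 ≤ E := by
    rw [hE]; have := Nat.one_le_pow 3 r (by omega); omega
  have hrn : r ≤ Fintype.card V := by
    refine le_trans ?_ hn0
    have := Nat.one_le_pow 2 E (by omega)
    nlinarith
  have hV : Nonempty V := by
    rw [← Fintype.card_pos_iff]; omega
  obtain ⟨c, hnum, hMc⟩ := numbers hr G hG he hrn
  set n : ℝ := (Fintype.card V : ℝ) with hnn
  have hr2 : (2:ℝ) ≤ r := by exact_mod_cast hr
  have hEr : (E:ℝ) = 200 * (r:ℝ) ^ 3 := by rw [hE]; push_cast; ring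
  have hE0 : (0:ℝ) < E := by exact_mod_cast hE1
  have hn1 : 768 * (r:ℝ) * (E:ℝ) ^ 2 ≤ n := by rw [hnn]; exact_mod_cast hn0
  have hnpos : 0 < n := lt_of_lt_of_le (by positivity) hn1
  -- comparison of the scales
  set ε : ℝ := n / (16 * E) with hε
  have hε0 : 0 < ε := by positivity
  have hnE : n / E = 16 * ε := by rw [hε]; field_simp
  have hn8E : n / (8 * E) = 2 * ε := by rw [hε]; field_simp; norm_num
  have h2nE : 2 * n / E = 32 * ε := by rw [hε]; field_simp; norm_num
  have hnr : 12800 * ε ≤ n / r := by
    rw [hε, le_div_iff₀ (by linarith)]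
    rw [mul_div_assoc', div_mul_eq_mul_div, div_le_iff₀ (by positivity), hEr]
    have : (4:ℝ) ≤ (r:ℝ) ^ 2 := by nlinarith
    have h3 : n * r * 4 ≤ n * r * (r:ℝ) ^ 2 := mul_le_mul_of_nonneg_left this (by positivity)
    nlinarith
  set d0 : ℝ := n / (8 * r * E) with hd0
  have hd00 : 0 < d0 := by positivity
  have hrd0 : r * d0 = 2 * ε := by rw [hd0, hε]; field_simp; norm_num
  have hd0ε : d0 ≤ ε := by nlinarith
  set B0 := univ.filter (fun v => d0 ≤ (dF (Miss G c) univ v : ℝ)) with hB0
  have hB0c : (B0.card : ℝ) ≤ 48 * r * E := by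
    have h1 : (B0.card : ℝ) * d0 ≤ F2 (Miss G c) univ := by
      rw [F2_eq]
      push_cast
      calc (B0.card : ℝ) * d0 = ∑ _v ∈ B0, d0 := by simp
        _ ≤ ∑ v ∈ B0, (dF (Miss G c) univ v : ℝ) := sum_le_sum fun v hv => (mem_filter.1 hv).2
        _ ≤ _ := sum_le_sum_of_subset_of_nonneg (subset_univ _) fun _ _ _ => by positivity
    have h2 : (B0.card : ℝ) * d0 ≤ 6 * n := h1.trans hMc
    rw [hd0, mul_div_assoc', div_le_iff₀ (by positivity)] at h2
    have : (B0.card : ℝ) * n ≤ (48 * r * E) * n := by nlinarith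
    exact le_of_mul_le_mul_right this hnpos
  have hB0ε : (B0.card : ℝ) ≤ ε := by
    refine hB0c.trans ?_
    rw [hε, le_div_iff₀ (by positivity)]
    nlinarith
  set X : Fin r → Finset V := fun q => univ.filter (fun v => c v = q) with hX
  have hXε : ∀ q, |((X q).card : ℝ) - n / r| ≤ ε := by
    intro q
    apply abs_le_of_sq_le_sq _ hε0.le
    have h1 : (((X q).card : ℝ) - n / r) ^ 2 ≤ 3 * n := by
      refine le_trans ?_ hnum
      exact single_le_sum (f := fun i => (((univ.filter (fun v => c v = i)).card : ℝ) - n / r) ^ 2)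
        (fun i _ => sq_nonneg _) (mem_univ q)
    refine h1.trans ?_
    rw [hε, div_pow, le_div_iff₀ (by positivity)]
    have h768 : 768 * (E:ℝ) ^ 2 ≤ n := by
      refine le_trans ?_ hn1
      have : (0:ℝ) ≤ (E:ℝ) ^ 2 := by positivity
      nlinarith
    nlinarith
  set U0 := univ \ B0 with hU0
  have hU0mem : ∀ v, v ∈ U0 ↔ v ∉ B0 := fun v => by simp [hU0]
  set V0 : Fin r → Finset V := fun q => U0.filter (fun v => c v = q) with hV0
  have hV0c : ∀ q, n / r - 2 * ε ≤ ((V0 q).card : ℝ) := by
    intro q
    have h1 : X q ⊆ V0 q ∪ B0 := by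
      intro v hv
      by_cases h : v ∈ B0
      · exact mem_union_right _ h
      · exact mem_union_left _ (mem_filter.2 ⟨(hU0mem v).2 h, (mem_filter.1 hv).2⟩)
    have h2 : ((X q).card : ℝ) ≤ (V0 q).card + B0.card := by
      exact_mod_cast (card_le_card h1).trans (card_union_le _ _)
    have h3 := (abs_le.1 (hXε q)).1
    linarith
  have hgr : ∀ (J : Finset (Fin r)) (S : Fin r → Finset V),
      (∀ q ∈ J, S q ⊆ V0 q ∧ 2 * ε < (S q).card) →
      ∃ f : Fin r → V, (∀ q ∈ J, f q ∈ S q) ∧ Ind (Miss G c) J f := by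
    intro J S hS
    refine greedy (c := c) Miss.symm (fun a b h => h.1) U0 d0 hd00.le ?_ J S ?_
    · intro u hu
      have h1 := (hU0mem u).1 hu
      have h2 : ¬ (d0 ≤ (dF (Miss G c) univ u : ℝ)) := fun h => h1 (mem_filter.2 ⟨mem_univ _, h⟩)
      push Not at h2
      have h3 : (dF (Miss G c) U0 u : ℝ) ≤ dF (Miss G c) univ u := by
        exact_mod_cast dF_mono (subset_univ _) _
      linarith
    · intro q hq
      obtain ⟨h1, h2⟩ := hS q hq
      refine ⟨h1.trans (filter_subset _ _), fun v hv => (mem_filter.1 (h1 hv)).2, ?_⟩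
      refine lt_of_le_of_lt ?_ h2
      rw [← hrd0]
      apply mul_le_mul_of_nonneg_right _ hd00.le
      have := card_le_univ J
      rw [Fintype.card_fin] at this
      exact_mod_cast this
  set T : V → Fin r → ℕ := fun v q => (U0.filter (fun u => c u ≠ q ∧ ¬ G.Adj v u)).card with hT
  have hr0 : 0 < r := by omega
  set c' : V → Fin r := fun v => if v ∉ B0 then c v else
    if h : ∃ q, (T v q : ℝ) ≤ 16 * ε then h.choose else ⟨0, hr0⟩ with hc'
  set W := B0.filter (fun v => ¬ ∃ q, (T v q : ℝ) ≤ 16 * ε) with hW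
  have hWB : W ⊆ B0 := filter_subset _ _
  have hWc : W.card ≤ 48 * r * E := by
    have : (W.card : ℝ) ≤ 48 * r * E := by
      refine le_trans ?_ hB0c
      exact_mod_cast card_le_card hWB
    exact_mod_cast this
  have hP : ∀ v ∉ W, (T v (c' v) : ℝ) ≤ 16 * ε := by
    intro v hv
    by_cases h : v ∉ B0
    · have e1 : c' v = c v := by rw [hc']; simp only [h, not_false_eq_true, if_true]
      rw [e1]
      have h2 : ¬ (d0 ≤ (dF (Miss G c) univ v : ℝ)) := fun h' => h (mem_filter.2 ⟨mem_univ _, h'⟩)
      push Not at h2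
      have h3 : T v (c v) ≤ dF (Miss G c) univ v := by
        apply card_le_card
        intro u hu
        have := (mem_filter.1 hu).2
        exact mem_filter.2 ⟨mem_univ _, this.1.symm, this.2⟩
      have h4 : (T v (c v) : ℝ) ≤ dF (Miss G c) univ v := by exact_mod_cast h3
      linarith
    · push Not at h
      have hex : ∃ q, (T v q : ℝ) ≤ 16 * ε := by
        by_contra hcon
        exact hv (mem_filter.2 ⟨h, hcon⟩)
      have e1 : c' v = hex.choose := by
        rw [hc']
        simp only [h, not_true_eq_false, if_false, hex, dif_pos]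
      rw [e1]
      exact hex.choose_spec
  have hcc : ∀ v ∉ B0, c' v = c v := by
    intro v h
    rw [hc']; simp only [h, not_false_eq_true, if_true]
  have hlow : ∀ w ∈ W, ∃ q, (((V0 q).filter (fun v => G.Adj w v)).card : ℝ) ≤ 2 * ε := by
    intro w _
    by_contra hcon
    push Not at hcon
    obtain ⟨f, hf1, hf2⟩ := hgr univ (fun q => (V0 q).filter (fun v => G.Adj w v))
      (fun q _ => ⟨filter_subset _ _, hcon q⟩)
    have hcl := clique_join (G := G) (c := c) (A := {w}) (J := univ) (f := f) (by
        intro a ha b hb hab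
        exact absurd ((mem_singleton.1 ha).trans (mem_singleton.1 hb).symm) hab)
      (fun p _ => (mem_filter.1 (mem_filter.1 (hf1 p (mem_univ _))).1).2) hf2 (by
        intro a ha p _
        rw [mem_singleton.1 ha]
        exact (mem_filter.1 (hf1 p (mem_univ _))).2)
    rw [card_singleton, card_univ, Fintype.card_fin, add_comm] at hcl
    exact hG _ hcl
  refine ⟨c', W, hWc, ?_, ?_, ?_, ?_, ?_⟩
  · -- independent
    intro u hu v hv huv hadj
    set q := c' u with hq
    have hsz : ∀ x ∉ W, c' x = q → ∀ p, p ≠ q →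
        (((V0 p).filter (fun y => ¬ G.Adj x y)).card : ℝ) ≤ 16 * ε := by
      intro x hx hxq p hp
      refine le_trans ?_ (hP x hx)
      rw [hxq]
      have : ((V0 p).filter (fun y => ¬ G.Adj x y)).card ≤ T x q := by
        apply card_le_card
        intro y hy
        have h1 := mem_filter.1 hy
        have h2 := mem_filter.1 h1.1
        exact mem_filter.2 ⟨h2.1, by rw [h2.2]; exact hp, h1.2⟩
      exact_mod_cast this
    obtain ⟨f, hf1, hf2⟩ := hgr (univ.erase q)
      (fun p => (V0 p).filter (fun y => G.Adj u y ∧ G.Adj v y)) (by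
        intro p hp
        have hpq := (mem_erase.1 hp).1
        refine ⟨filter_subset _ _, ?_⟩
        have h1 := hsz u hu rfl p hpq
        have h2 := hsz v hv huv.symm p hpq
        have h3 : V0 p ⊆ (V0 p).filter (fun y => G.Adj u y ∧ G.Adj v y) ∪
            ((V0 p).filter (fun y => ¬ G.Adj u y) ∪ (V0 p).filter (fun y => ¬ G.Adj v y)) := by
          intro y hy
          by_cases a : G.Adj u y
          · by_cases b : G.Adj v y
            · exact mem_union_left _ (mem_filter.2 ⟨hy, a, b⟩)
            · exact mem_union_right _ (mem_union_right _ (mem_filter.2 ⟨hy, b⟩))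
          · exact mem_union_right _ (mem_union_left _ (mem_filter.2 ⟨hy, a⟩))
        have h4 : ((V0 p).card : ℝ) ≤ ((V0 p).filter (fun y => G.Adj u y ∧ G.Adj v y)).card +
            (((V0 p).filter (fun y => ¬ G.Adj u y)).card +
              ((V0 p).filter (fun y => ¬ G.Adj v y)).card) := by
          exact_mod_cast (card_le_card h3).trans ((card_union_le _ _).trans
            (Nat.add_le_add_left (card_union_le _ _) _))
        have h5 := hV0c p
        linarith)
    have huv' : u ≠ v := fun h => G.loopless.irrefl u (by rw [h] at hadj ⊢; exact hadj)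
    have hcl := clique_join (G := G) (c := c) (A := {u, v}) (J := univ.erase q) (f := f) (by
        intro a ha b hb hab
        rcases mem_insert.1 ha with ea | ea
        · rcases mem_insert.1 hb with eb | eb
          · exact absurd (ea.trans eb.symm) hab
          · rw [ea, mem_singleton.1 eb]; exact hadj
        · rcases mem_insert.1 hb with eb | eb
          · rw [mem_singleton.1 ea, eb]; exact hadj.symm
          · exact absurd ((mem_singleton.1 ea).trans (mem_singleton.1 eb).symm) hab)
      (fun p hp => (mem_filter.1 (mem_filter.1 (hf1 p hp)).1).2) hf2 (by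
        intro a ha p hp
        have := (mem_filter.1 (hf1 p hp)).2
        rcases mem_insert.1 ha with ea | ea
        · rw [ea]; exact this.1
        · rw [mem_singleton.1 ea]; exact this.2)
    rw [card_pair huv', card_erase_of_mem (mem_univ _), card_univ, Fintype.card_fin] at hcl
    have e : 2 + (r - 1) = r + 1 := by omega
    rw [e] at hcl
    exact hG _ hcl
  · -- missing
    intro u hu
    rw [h2nE]
    have h1 : (univ \ W).filter (Miss G c' u) ⊆
        U0.filter (fun x => c x ≠ c' u ∧ ¬ G.Adj u x) ∪ B0 := by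
      intro x hx
      by_cases h : x ∈ B0
      · exact mem_union_right _ h
      · have h2 := (mem_filter.1 hx).2
        refine mem_union_left _ (mem_filter.2 ⟨(hU0mem x).2 h, ?_, h2.2⟩)
        rw [← hcc x h]; exact h2.1.symm
    have h2 : (dF (Miss G c') (univ \ W) u : ℝ) ≤ T u (c' u) + B0.card := by
      exact_mod_cast (card_le_card h1).trans (card_union_le _ _)
    have h3 := hP u hu
    linarith
  · -- sizes
    intro q
    rw [hn8E, abs_le]
    have h1 : V0 q ⊆ (univ \ W).filter (fun v => c' v = q) := by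
      intro v hv
      have h2 := mem_filter.1 hv
      have h3 := (hU0mem v).1 h2.1
      exact mem_filter.2 ⟨mem_sdiff.2 ⟨mem_univ _, fun h => h3 (hWB h)⟩, by rw [hcc v h3]; exact h2.2⟩
    have h2 : (univ \ W).filter (fun v => c' v = q) ⊆ X q ∪ B0 := by
      intro v hv
      by_cases h : v ∈ B0
      · exact mem_union_right _ h
      · refine mem_union_left _ (mem_filter.2 ⟨mem_univ _, ?_⟩)
        rw [← hcc v h]; exact (mem_filter.1 hv).2
    have h3 : ((V0 q).card : ℝ) ≤ ((univ \ W).filter (fun v => c' v = q)).card := by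
      exact_mod_cast card_le_card h1
    have h4 : (((univ \ W).filter (fun v => c' v = q)).card : ℝ) ≤ (X q).card + B0.card := by
      exact_mod_cast (card_le_card h2).trans (card_union_le _ _)
    have h5 := hV0c q
    have h6 := (abs_le.1 (hXε q)).2
    constructor
    · linarith
    · linarith
  · -- degrees
    intro w hw
    obtain ⟨q, hq⟩ := hlow w hw
    have h1 : 16 * ε < (T w q : ℝ) := by
      have := (mem_filter.1 hw).2
      push Not at this
      exact this q
    have hd1 : Disjoint (univ.filter (G.Adj w)) (U0.filter (fun u => c u ≠ q ∧ ¬ G.Adj w u)) := by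
      rw [disjoint_left]
      intro x hx hx'
      exact (mem_filter.1 hx').2.2 (mem_filter.1 hx).2
    have hd2 : Disjoint (univ.filter (G.Adj w) ∪ U0.filter (fun u => c u ≠ q ∧ ¬ G.Adj w u))
        ((V0 q).filter (fun v => ¬ G.Adj w v)) := by
      rw [disjoint_left]
      intro x hx hx'
      have h2 := mem_filter.1 hx'
      rcases mem_union.1 hx with h | h
      · exact h2.2 (mem_filter.1 h).2
      · exact (mem_filter.1 h).2.1 (mem_filter.1 h2.1).2
    have h2 : dF G.Adj univ w + T w q + ((V0 q).filter (fun v => ¬ G.Adj w v)).card ≤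
        Fintype.card V := by
      rw [← card_univ]
      unfold dF
      rw [hT]
      simp only
      rw [← card_union_of_disjoint hd1, ← card_union_of_disjoint hd2]
      exact card_le_card (subset_univ _)
    have h3 : ((V0 q).filter (fun v => G.Adj w v)).card +
        ((V0 q).filter (fun v => ¬ G.Adj w v)).card = (V0 q).card :=
      card_filter_add_card_filter_not _
    have h2' : (dF G.Adj univ w : ℝ) + T w q + ((V0 q).filter (fun v => ¬ G.Adj w v)).card ≤ n := by
      rw [hnn]; exact_mod_cast h2
    have h3' : (((V0 q).filter (fun v => G.Adj w v)).card : ℝ) +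
        ((V0 q).filter (fun v => ¬ G.Adj w v)).card = (V0 q).card := by exact_mod_cast h3
    have h4 := hV0c q
    have h5 : (1 - 1 / (r:ℝ)) * n = n - n / r := by ring
    rw [h5]
    linarith
  · -- low degrees
    intro w hw
    obtain ⟨q, hq⟩ := hlow w hw
    refine ⟨q, ?_⟩
    rw [h2nE]
    have h1 : (univ \ W).filter (fun v => c' v = q ∧ G.Adj w v) ⊆
        (V0 q).filter (fun v => G.Adj w v) ∪ B0 := by
      intro v hv
      have h2 := (mem_filter.1 hv).2
      by_cases h : v ∈ B0
      · exact mem_union_right _ h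
      · exact mem_union_left _ (mem_filter.2 ⟨mem_filter.2 ⟨(hU0mem v).2 h,
          by rw [← hcc v h]; exact h2.1⟩, h2.2⟩)
    have h2 : (((univ \ W).filter (fun v => c' v = q ∧ G.Adj w v)).card : ℝ) ≤
        ((V0 q).filter (fun v => G.Adj w v)).card + B0.card := by
      exact_mod_cast (card_le_card h1).trans (card_union_le _ _)
    linarith

end Pool.Agent.K7.H61.TS
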