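import Pool.Agent.K7.H61.TS.Cost

set_option autoImplicit false

namespace Pool.Agent.K7.H61.TS

open Finset Classical

section
variable {V : Type}

/-- the global inequality. -/
lemma global [Fintype V] {G : SimpleGraph V} {r : ℕ} (hr : 2 ≤ r) {c : V → Fin r}
    {W : Finset V} (hind : ∀ u ∉ W, ∀ v ∉ W, c u = c v → ¬ G.Adj u v) :
    (F2 G.Adj univ : ℝ) ≤ (1 - 1 / (r:ℝ)) * ((Fintype.card V : ℝ) ^ 2 + (W.card : ℝ) ^ 2) -
      ∑ i, ((pt c (univ \ W) i : ℝ) - ((Fintype.card V : ℝ) - W.card) / r) ^ 2 -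
      F2 (Miss G c) (univ \ W) - 2 * ∑ w ∈ W, Dw G r w := by
  set U := univ \ W with hU
  have hUm : ∀ v ∈ U, v ∉ W := fun v hv => (mem_sdiff.1 hv).2
  have hdisj : Disjoint U W := sdiff_disjoint
  have hun : U ∪ W = univ := sdiff_union_of_subset (subset_univ _)
  have hr0 : (0:ℝ) < r := by positivity
  set n : ℝ := (Fintype.card V : ℝ) with hn
  have hUc : (U.card : ℝ) = n - W.card := by
    have : U.card + W.card = Fintype.card V := by
      rw [← card_univ, card_sdiff_add_card_eq_card (subset_univ W)]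
    rw [hn, ← this]; push_cast; ring
  have ha : F2 G.Adj univ ≤ F2 G.Adj U + 2 * ∑ w ∈ W, dF G.Adj univ w := by
    rw [F2_eq, F2_eq]
    have h1 : ∑ v, dF G.Adj univ v = ∑ v ∈ U, dF G.Adj univ v + ∑ v ∈ W, dF G.Adj univ v := by
      rw [← sum_union hdisj, hun]
    have h2 : ∑ v ∈ U, dF G.Adj univ v = ∑ v ∈ U, dF G.Adj U v + ∑ v ∈ W, dF G.Adj U v := by
      rw [← dF_comm (fun a b (h : G.Adj a b) => h.symm) U W, ← sum_add_distrib]
      refine sum_congr rfl fun v _ => ?_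
      rw [← dF_split G.Adj hdisj, hun]
    have h3 : ∑ v ∈ W, dF G.Adj U v ≤ ∑ v ∈ W, dF G.Adj univ v :=
      sum_le_sum fun v _ => dF_mono (subset_univ _) _
    rw [h1, h2]
    omega
  have hb : F2 G.Adj U + ∑ i, pt c U i ^ 2 + F2 (Miss G c) U = U.card ^ 2 := by
    have e1 : ∑ i, pt c U i ^ 2 = F2 (fun u v => c u = c v) U := by
      unfold F2
      rw [card_eq_sum_card_fiberwise (f := fun e : V × V => c e.1) (t := (univ : Finset (Fin r)))
        (fun _ _ => mem_univ _)]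
      refine sum_congr rfl fun i _ => ?_
      unfold pt
      rw [sq, ← card_product]
      congr 1
      ext e
      simp only [mem_filter, mem_product]
      constructor
      · rintro ⟨⟨h1, h2⟩, h3, h4⟩
        exact ⟨⟨⟨h1, h3⟩, by rw [h2, h4]⟩, h2⟩
      · rintro ⟨⟨⟨h1, h3⟩, h4⟩, h2⟩
        exact ⟨⟨h1, h2⟩, h3, by rw [← h4, h2]⟩
    rw [e1, ← F2_true]
    unfold F2
    simp only [card_filter]
    rw [← sum_add_distrib, ← sum_add_distrib]
    refine sum_congr rfl fun e he => ?_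
    have he' := mem_product.1 he
    unfold Miss
    by_cases h1 : c e.1 = c e.2
    · have h2 := hind e.1 (hUm _ he'.1) e.2 (hUm _ he'.2) h1
      simp [h1, h2]
    · by_cases h2 : G.Adj e.1 e.2
      · simp [h1, h2]
      · simp [h1, h2]
  have ha' : (F2 G.Adj univ : ℝ) ≤ F2 G.Adj U + 2 * ∑ w ∈ W, (dF G.Adj univ w : ℝ) := by
    exact_mod_cast ha
  have hb' : (F2 G.Adj U : ℝ) + ∑ i, (pt c U i : ℝ) ^ 2 + F2 (Miss G c) U = (n - W.card) ^ 2 := by
    rw [← hUc]; exact_mod_cast hb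
  have hs : ∑ i, (pt c U i : ℝ) = n - W.card := by
    rw [← hUc]; exact_mod_cast sum_pt c U
  have hsq : ∑ i, ((pt c U i : ℝ) - (n - W.card) / r) ^ 2 =
      ∑ i, (pt c U i : ℝ) ^ 2 - (n - W.card) ^ 2 / r := by
    have : ∀ i, ((pt c U i : ℝ) - (n - W.card) / r) ^ 2 = (pt c U i : ℝ) ^ 2 -
        2 * ((n - W.card) / r) * (pt c U i : ℝ) + ((n - W.card) / r) ^ 2 := fun i => by ring
    rw [sum_congr rfl fun i _ => this i, sum_add_distrib, sum_sub_distrib, ← mul_sum, hs]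
    simp only [sum_const, card_univ, Fintype.card_fin, nsmul_eq_mul]
    field_simp
    ring
  have hD : ∑ w ∈ W, Dw G r w = W.card * ((1 - 1 / (r:ℝ)) * n) -
      ∑ w ∈ W, (dF G.Adj univ w : ℝ) := by
    unfold Dw
    rw [sum_sub_distrib, sum_const, nsmul_eq_mul]
  rw [hsq, hD]
  have hexp : (1 - 1 / (r:ℝ)) * (n ^ 2 + (W.card : ℝ) ^ 2) =
      (n - W.card) ^ 2 - (n - W.card) ^ 2 / r + 2 * (W.card * ((1 - 1 / (r:ℝ)) * n)) := by ring
  rw [hexp]
  linarith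

/-- arithmetic of the cost. -/
lemma cost_arith {r : ℕ} {n w w0 m S D DA f fN N J : ℝ} (hr : 2 ≤ (r:ℝ)) (hw : 0 ≤ w)
    (hw0 : w ≤ w0) (sq : ℝ)
    (hsq : -(9 * (r:ℝ) ^ 3) ≤ sq - 6 * r * S)
    (he : (1 - 1 / (r:ℝ)) * n ^ 2 - r - 2 * m ≤
      (1 - 1 / (r:ℝ)) * (n ^ 2 + w ^ 2) - sq - f - 2 * D)
    (hDA : DA ≤ D) (hfN : fN ≤ f)
    (hstr : (J - 1) * (n / r) - N - 3 * r * (w + S) ≤ DA) :
    fN - 2 * N ≤ 2 * (m - (J - 1) * (n / r)) + (9 * r ^ 3 + 6 * r * w0 + w0 ^ 2 + r) := by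
  have h1 : 0 ≤ 1 / (r:ℝ) := by positivity
  have h2 : 0 ≤ w ^ 2 := by positivity
  have h3 : 0 ≤ 1 / (r:ℝ) * w ^ 2 := mul_nonneg h1 h2
  have hexp : (1 - 1 / (r:ℝ)) * (n ^ 2 + w ^ 2) =
      (1 - 1 / (r:ℝ)) * n ^ 2 + w ^ 2 - 1 / (r:ℝ) * w ^ 2 := by ring
  have hWsq : w ^ 2 ≤ w0 ^ 2 := by gcongr
  have hrW : 6 * (r:ℝ) * w ≤ 6 * r * w0 := by gcongr
  have h4 : 3 * (r:ℝ) * (w + S) = 3 * r * w + 3 * r * S := by ring
  rw [hexp] at he
  rw [h4] at hstr
  linarith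

/-- The bound for a family of one pattern. -/
theorem class_bound {r : ℕ} (hr : 2 ≤ r) (W0 : ℕ) : ∃ C : ℝ, 0 ≤ C ∧ ∀ (V : Type) [Fintype V]
    (G : SimpleGraph V) (c : V → Fin r) (W : Finset V) (d e m : ℝ), G.CliqueFree (r + 1) →
    0 ≤ d → 0 ≤ e → Good G c W d e → 2 * r * (e + r * d) ≤ (Fintype.card V : ℝ) / r →
    W.card ≤ W0 →
    (1 - 1 / (r:ℝ)) * (Fintype.card V : ℝ) ^ 2 - r - 2 * m ≤ F2 G.Adj univ →
    ∀ (Λ : Type) (A : Finset V) (Q : Finset (Fin r)) (i j : Fin r) (x y : Λ → V)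
      (K : Λ → Fin r → V) (L : Finset Λ), A ⊆ W → (∀ a ∈ A, ∀ b ∈ A, a ≠ b → G.Adj a b) →
      A.card + Q.card = r + 1 → L.Nonempty →
      Fam c (Miss G c) (cN G (univ \ W) A) Q i j x y K L →
      ∃ k : ℕ, 2 ≤ k ∧ k ≤ r ∧ ∀ h : ℕ, h ^ (k - 1) ≤ L.card →
        (h * L.card : ℝ) ≤ C * (2 * (m - (k - 1) * ((Fintype.card V : ℝ) / r)) + C) := by
  obtain ⟨C0, hC0⟩ := strong' r
  refine ⟨C0 + 1 + (9 * r ^ 3 + 6 * r * W0 + W0 ^ 2 + r), by positivity, ?_⟩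
  intro V _ G c W d e m hG hd0 he0 h hbig hW0 he Λ A Q i j x y K L hAW hAc hAQ hL hfam
  set U := univ \ W with hU
  have hr2 : (2:ℝ) ≤ r := by exact_mod_cast hr
  have hr0 : (0:ℝ) < r := by linarith
  set n : ℝ := (Fintype.card V : ℝ) with hn
  set s : Fin r → ℝ := fun q => (pt c U q : ℝ) - (n - W.card) / r with hs
  have hWW0 : (W.card : ℝ) ≤ W0 := by exact_mod_cast hW0
  have hSnn : 0 ≤ ∑ q, |s q| := sum_nonneg fun q _ => abs_nonneg _
  have hwnn : (0:ℝ) ≤ W.card := by positivity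
  have hS : ∀ q, n / r - (W.card + ∑ q, |s q|) ≤ pt c U q := by
    intro q
    have h1 : |s q| ≤ ∑ q, |s q| := single_le_sum (f := fun q => |s q|)
      (fun _ _ => abs_nonneg _) (mem_univ q)
    have h2 := neg_abs_le (s q)
    have h3 : s q = (pt c U q : ℝ) - (n - W.card) / r := rfl
    have h4 : (W.card : ℝ) / r ≤ W.card := div_le_self (by positivity) (by linarith)
    have h5 : (n - W.card) / r = n / r - W.card / r := by ring
    rw [h5] at h3
    linarith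
  have hfree : Free c (Miss G c) (cN G U A) Q := by
    intro f hf hI
    have hcl := clique_join (G := G) (c := c) (A := A) (J := Q) (f := f) hAc
      (fun p hp => (hf p hp).2) hI (fun a ha p hp => (mem_cN.1 (hf p hp).1).2 a ha)
    rw [hAQ] at hcl
    exact hG _ hcl
  have hQ : ∀ q ∈ Q, ∃ v ∈ cN G U A, c v = q := by
    obtain ⟨l, hl⟩ := hL
    intro q hq
    by_cases h1 : q = i
    · exact ⟨x l, hfam.xN l hl, by rw [hfam.xc l hl, h1]⟩
    by_cases h2 : q = j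
    · exact ⟨y l, hfam.yN l hl, by rw [hfam.yc l hl, h2]⟩
    exact ⟨K l q, hfam.KN l hl q hq h1 h2, hfam.Kc l hl q hq h1 h2⟩
  obtain ⟨Q', hQ'Q, hQ'f, hstr⟩ := structural hr hG hd0 he0 h hbig (add_nonneg hwnn hSnn) hS
    hAW hAQ hQ hfree
  have hsym : ∀ a b, Miss G c a b → Miss G c b a := Miss.symm
  have hmc : ∀ a b, Miss G c a b → c a ≠ c b := fun a b h => h.1
  have hcard : ∀ J : Finset (Fin r), J.card ≤ r := by
    intro J
    have := card_le_univ J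
    rwa [Fintype.card_fin] at this
  obtain ⟨J, hJQ', hJ2, hst⟩ := hC0 V (Fin r) Λ c (Miss G c) hsym hmc (cN G U A) Q Q' i j x y K L
    (hcard _) hQ'Q hQ'f hfam hL
  set N : Finset V := (cN G U A).filter (fun v => c v ∈ J) with hN
  have hNm : ∀ v, v ∈ N ↔ v ∈ cN G U A ∧ c v ∈ J := fun v => by rw [hN, mem_filter]
  have hst' := hst N hNm
  refine ⟨J.card, hJ2, hcard J, fun k hk => ?_⟩
  have hNc : N.card = ∑ q ∈ J, pt c (cN G U A) q := by
    rw [card_eq_sum_card_fiberwise (f := c) (s := N) (t := J) (fun v hv => ((hNm v).1 hv).2)]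
    refine sum_congr rfl fun q hq => ?_
    unfold pt
    congr 1
    ext v
    rw [mem_filter, hNm, mem_filter]
    constructor
    · rintro ⟨⟨h1, _⟩, h3⟩; exact ⟨h1, h3⟩
    · rintro ⟨h1, h3⟩; exact ⟨⟨h1, by rw [h3]; exact hq⟩, h3⟩
  have hNc' : (N.card : ℝ) = ∑ q ∈ J, (pt c (cN G U A) q : ℝ) := by exact_mod_cast hNc
  have hNU : N ⊆ U := fun v hv => (mem_cN.1 ((hNm v).1 hv).1).1
  have hF2 : (F2 (Miss G c) N : ℝ) ≤ F2 (Miss G c) U := by
    have : F2 (Miss G c) N ≤ F2 (Miss G c) U := by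
      unfold F2
      exact card_le_card (filter_subset_filter _ (product_subset_product hNU hNU))
    exact_mod_cast this
  have hglob := global hr h.indep
  have hstrJ := hstr J hJQ'
  have hAsum : ∑ w ∈ A, Dw G r w ≤ ∑ w ∈ W, Dw G r w := by
    apply sum_le_sum_of_subset_of_nonneg hAW
    intro w hw _
    have := h.degW w hw
    unfold Dw
    linarith
  have hsq : -(9 * (r:ℝ) ^ 3) ≤ ∑ q, s q ^ 2 - 6 * r * ∑ q, |s q| := by
    rw [mul_sum, ← sum_sub_distrib]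
    have h1 : ∀ q ∈ (univ : Finset (Fin r)), -(9 * (r:ℝ) ^ 2) ≤ s q ^ 2 - 6 * r * |s q| := by
      intro q _
      have := sq_nonneg (|s q| - 3 * r)
      have h2 := sq_abs (s q)
      nlinarith
    have h2 := sum_le_sum h1
    rw [sum_const, card_univ, Fintype.card_fin, nsmul_eq_mul] at h2
    nlinarith
  have hfin : (F2 (Miss G c) N : ℝ) - 2 * N.card ≤
      2 * (m - ((J.card : ℝ) - 1) * (n / r)) + (9 * r ^ 3 + 6 * r * W0 + W0 ^ 2 + r) := by
    rw [hNc']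
    exact cost_arith hr2 hwnn hWW0 _ hsq (he.trans hglob) hAsum hF2 hstrJ
  have h1 := hst' 1 (by rw [one_pow]; exact card_pos.2 hL)
  have h2 : 1 ≤ L.card := card_pos.2 hL
  have hnn : 0 ≤ (F2 (Miss G c) N : ℝ) - 2 * N.card + C0 := by
    have h3 : (0:ℤ) ≤ (F2 (Miss G c) N : ℤ) - 2 * N.card + C0 := by
      by_contra hcon
      push Not at hcon
      have h4 : (0:ℤ) ≤ C0 := by positivity
      have h5 : (C0 : ℤ) * ((F2 (Miss G c) N : ℤ) - 2 * N.card + C0) ≤ 0 :=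
        mul_nonpos_of_nonneg_of_nonpos h4 hcon.le
      push_cast at h1
      rw [one_mul] at h1
      omega
    exact_mod_cast h3
  have hst'' : ((k : ℝ) * L.card) ≤ C0 * ((F2 (Miss G c) N : ℝ) - 2 * N.card + C0) := by
    exact_mod_cast hst' k hk
  have hC0' : (0:ℝ) ≤ C0 := by positivity
  generalize hC1 : (9 * (r:ℝ) ^ 3 + 6 * r * W0 + W0 ^ 2 + r) = C1 at hfin ⊢
  have hC1nn : 0 ≤ C1 := by rw [← hC1]; positivity
  refine hst''.trans ?_
  apply mul_le_mul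
  · linarith
  · linarith
  · exact hnn
  · linarith

end

end Pool.Agent.K7.H61.TS
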