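import Mathlib

set_option autoImplicit false

namespace Pool.Agent.K7.H61.TS

open Finset Classical

section
variable {V ι Λ : Type}

/-- `f` is a transversal of the colours in `J`, with values in `N`. -/
def Tr (c : V → ι) (N : Finset V) (J : Finset ι) (f : ι → V) : Prop :=
  ∀ p ∈ J, f p ∈ N ∧ c (f p) = p

/-- no pair of the relation `F` among the values of `f` on `J`. -/
def Ind (F : V → V → Prop) (J : Finset ι) (f : ι → V) : Prop :=
  ∀ p ∈ J, ∀ q ∈ J, ¬ F (f p) (f q)

/-- there is no independent transversal. -/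
def Free (c : V → ι) (F : V → V → Prop) (N : Finset V) (J : Finset ι) : Prop :=
  ∀ f, Tr c N J f → ¬ Ind F J f

/-- a family of pairs `x l`, `y l` of colours `i`, `j` which extend to independent transversals of
all the other colours. -/
structure Fam (c : V → ι) (F : V → V → Prop) (N : Finset V) (J : Finset ι) (i j : ι)
    (x y : Λ → V) (K : Λ → ι → V) (L : Finset Λ) : Prop where
  hi : i ∈ J
  hj : j ∈ J
  hij : i ≠ j
  xN : ∀ l ∈ L, x l ∈ N
  xc : ∀ l ∈ L, c (x l) = i
  yN : ∀ l ∈ L, y l ∈ N
  yc : ∀ l ∈ L, c (y l) = j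
  xi : ∀ l ∈ L, ∀ l' ∈ L, x l = x l' → l = l'
  yi : ∀ l ∈ L, ∀ l' ∈ L, y l = y l' → l = l'
  KN : ∀ l ∈ L, ∀ p ∈ J, p ≠ i → p ≠ j → K l p ∈ N
  Kc : ∀ l ∈ L, ∀ p ∈ J, p ≠ i → p ≠ j → c (K l p) = p
  KK : ∀ l ∈ L, ∀ p ∈ J, p ≠ i → p ≠ j → ∀ q ∈ J, q ≠ i → q ≠ j → ¬ F (K l p) (K l q)
  Kx : ∀ l ∈ L, ∀ p ∈ J, p ≠ i → p ≠ j → ¬ F (K l p) (x l)
  Ky : ∀ l ∈ L, ∀ p ∈ J, p ≠ i → p ≠ j → ¬ F (K l p) (y l)

/-- the degree of `v` in `N`. -/
noncomputable def dF (F : V → V → Prop) (N : Finset V) (v : V) : ℕ := (N.filter (F v)).card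

/-- the sum of the degrees of the pairs. -/
noncomputable def SF (F : V → V → Prop) (N : Finset V) (x y : Λ → V) (L : Finset Λ) : ℕ :=
  ∑ l ∈ L, (dF F N (x l) + dF F N (y l))

lemma Fam.sub {c : V → ι} {F : V → V → Prop} {N : Finset V} {J : Finset ι} {i j : ι}
    {x y : Λ → V} {K : Λ → ι → V} {L L' : Finset Λ} (h : Fam c F N J i j x y K L)
    (hL : L' ⊆ L) : Fam c F N J i j x y K L' :=
  ⟨h.hi, h.hj, h.hij, fun l hl => h.xN l (hL hl), fun l hl => h.xc l (hL hl),
    fun l hl => h.yN l (hL hl), fun l hl => h.yc l (hL hl),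
    fun l hl l' hl' => h.xi l (hL hl) l' (hL hl'), fun l hl l' hl' => h.yi l (hL hl) l' (hL hl'),
    fun l hl => h.KN l (hL hl), fun l hl => h.Kc l (hL hl), fun l hl => h.KK l (hL hl),
    fun l hl => h.Kx l (hL hl), fun l hl => h.Ky l (hL hl)⟩

lemma key {c : V → ι} {F : V → V → Prop} (symm : ∀ a b, F a b → F b a)
    (hc : ∀ a b, F a b → c a ≠ c b) {N : Finset V} {J : Finset ι} {i j : ι}
    {x y : Λ → V} {K : Λ → ι → V} {L : Finset Λ} (hF : Free c F N J)
    (h : Fam c F N J i j x y K L) {l l' : Λ} (hl : l ∈ L) (hl' : l' ∈ L) :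
    F (y l') (x l) ∨ ∃ p ∈ J, p ≠ i ∧ p ≠ j ∧ F (y l') (K l p) := by
  by_contra hn
  push Not at hn
  obtain ⟨h1, h2⟩ := hn
  set f : ι → V := fun p => if p = i then x l else if p = j then y l' else K l p with hf
  have fi : f i = x l := by simp [hf]
  have fj : f j = y l' := by simp [hf, h.hij.symm]
  have fo : ∀ p, p ≠ i → p ≠ j → f p = K l p := fun p hp hq => by simp [hf, hp, hq]
  refine hF f ?_ ?_
  · intro p hp
    by_cases hpi : p = i
    · subst hpi; rw [fi]; exact ⟨h.xN l hl, h.xc l hl⟩
    by_cases hpj : p = j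
    · subst hpj; rw [fj]; exact ⟨h.yN l' hl', h.yc l' hl'⟩
    rw [fo p hpi hpj]
    exact ⟨h.KN l hl p hp hpi hpj, h.Kc l hl p hp hpi hpj⟩
  · intro p hp q hq hpq
    by_cases hpi : p = i
    · subst hpi
      rw [fi] at hpq
      by_cases hqi : q = p
      · subst hqi; rw [fi] at hpq; exact hc _ _ hpq rfl
      by_cases hqj : q = j
      · subst hqj; rw [fj] at hpq; exact h1 (symm _ _ hpq)
      rw [fo q hqi hqj] at hpq
      exact h.Kx l hl q hq hqi hqj (symm _ _ hpq)
    by_cases hpj : p = j
    · subst hpj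
      rw [fj] at hpq
      by_cases hqi : q = i
      · subst hqi; rw [fi] at hpq; exact h1 hpq
      by_cases hqj : q = p
      · subst hqj; rw [fj] at hpq; exact hc _ _ hpq rfl
      rw [fo q hqi hqj] at hpq
      exact h2 q hq hqi hqj hpq
    rw [fo p hpi hpj] at hpq
    by_cases hqi : q = i
    · subst hqi; rw [fi] at hpq; exact h.Kx l hl p hp hpi hpj hpq
    by_cases hqj : q = j
    · subst hqj; rw [fj] at hpq; exact h2 p hp hpi hpj (symm _ _ hpq)
    rw [fo q hqi hqj] at hpq
    exact h.KK l hl p hp hpi hpj q hq hqi hqj hpq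

/-- Passing to the vertices which are not related to `u`. -/
lemma Free.erase {c : V → ι} {F : V → V → Prop} (symm : ∀ a b, F a b → F b a)
    (hc : ∀ a b, F a b → c a ≠ c b) {N : Finset V} {J : Finset ι} (hF : Free c F N J) {u : V}
    (hu : u ∈ N) : Free c F (N.filter (fun v => ¬ F u v)) (J.erase (c u)) := by
  intro f hf hI
  refine hF (fun p => if p = c u then u else f p) ?_ ?_
  · intro p hp
    by_cases h : p = c u
    · subst h; simp [hu]
    · simp only [h, if_false]
      have := hf p (mem_erase.2 ⟨h, hp⟩)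
      exact ⟨(mem_filter.1 this.1).1, this.2⟩
  · intro p hp q hq hpq
    by_cases h : p = c u
    · by_cases h' : q = c u
      · simp only [h, h', if_true] at hpq
        exact hc _ _ hpq rfl
      · simp only [h, h', if_true, if_false] at hpq
        exact (mem_filter.1 (hf q (mem_erase.2 ⟨h', hq⟩)).1).2 hpq
    · by_cases h' : q = c u
      · simp only [h, h', if_true, if_false] at hpq
        exact (mem_filter.1 (hf p (mem_erase.2 ⟨h, hp⟩)).1).2 (symm _ _ hpq)
      · simp only [h, h', if_false] at hpq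
        exact hI p (mem_erase.2 ⟨h, hp⟩) q (mem_erase.2 ⟨h', hq⟩) hpq

lemma Fam.erase {c : V → ι} {F : V → V → Prop} {N : Finset V} {J : Finset ι} {i j : ι}
    {x y : Λ → V} {K : Λ → ι → V} {L : Finset Λ} (h : Fam c F N J i j x y K L) {u : V}
    (hp : c u ∈ J) (hi : c u ≠ i) (hj : c u ≠ j) (hu : ∀ l ∈ L, K l (c u) = u) :
    Fam c F (N.filter (fun v => ¬ F u v)) (J.erase (c u)) i j x y K L := by
  refine ⟨mem_erase.2 ⟨hi.symm, h.hi⟩, mem_erase.2 ⟨hj.symm, h.hj⟩, h.hij, ?_, h.xc, ?_, h.yc,
    h.xi, h.yi, ?_, ?_, ?_, ?_, ?_⟩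
  · intro l hl
    refine mem_filter.2 ⟨h.xN l hl, ?_⟩
    have := h.Kx l hl (c u) hp hi hj
    rwa [hu l hl] at this
  · intro l hl
    refine mem_filter.2 ⟨h.yN l hl, ?_⟩
    have := h.Ky l hl (c u) hp hi hj
    rwa [hu l hl] at this
  · intro l hl p hp' h1 h2
    have hp'' := (mem_erase.1 hp').2
    refine mem_filter.2 ⟨h.KN l hl p hp'' h1 h2, ?_⟩
    have := h.KK l hl (c u) hp hi hj p hp'' h1 h2
    rwa [hu l hl] at this
  · intro l hl p hp' h1 h2
    exact h.Kc l hl p (mem_erase.1 hp').2 h1 h2
  · intro l hl p hp' h1 h2 q hq' h3 h4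
    exact h.KK l hl p (mem_erase.1 hp').2 h1 h2 q (mem_erase.1 hq').2 h3 h4
  · intro l hl p hp' h1 h2
    exact h.Kx l hl p (mem_erase.1 hp').2 h1 h2
  · intro l hl p hp' h1 h2
    exact h.Ky l hl p (mem_erase.1 hp').2 h1 h2

lemma dF_mono {F : V → V → Prop} {N N' : Finset V} (h : N ⊆ N') (v : V) :
    dF F N v ≤ dF F N' v := card_le_card (filter_subset_filter _ h)

lemma SF_mono {F : V → V → Prop} {N N' : Finset V} (h : N ⊆ N') (x y : Λ → V) (L : Finset Λ) :
    SF F N x y L ≤ SF F N' x y L :=
  sum_le_sum fun l _ => Nat.add_le_add (dF_mono h _) (dF_mono h _)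

/-- The counting lemma: many pairs which extend force many related pairs. -/
theorem weak {c : V → ι} {F : V → V → Prop} (symm : ∀ a b, F a b → F b a)
    (hc : ∀ a b, F a b → c a ≠ c b) (s : ℕ) :
    ∀ (N : Finset V) (J : Finset ι) (i j : ι) (x y : Λ → V) (K : Λ → ι → V) (L : Finset Λ),
      J.card = s + 2 → Free c F N J → Fam c F N J i j x y K L →
      ∀ h : ℕ, h ^ (s + 1) ≤ L.card → h * L.card ≤ 2 * 6 ^ s * SF F N x y L := by
  induction s with
  | zero =>
    intro N J i j x y K L hJ hF hfam h hh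
    have hJ2 : J = {i, j} := by
      symm
      apply eq_of_subset_of_card_le
      · intro p hp
        rcases mem_insert.1 hp with rfl | hp
        · exact hfam.hi
        · rw [mem_singleton.1 hp]; exact hfam.hj
      · rw [hJ, card_pair hfam.hij]
    have hd : ∀ l' ∈ L, L.card ≤ dF F N (y l') := by
      intro l' hl'
      refine card_le_card_of_injOn x ?_ ?_
      · intro l hl
        refine mem_coe.2 (mem_filter.2 ⟨hfam.xN l hl, ?_⟩)
        rcases key symm hc hF hfam hl hl' with h | ⟨p, hp, h1, h2, -⟩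
        · exact h
        · rw [hJ2] at hp
          rcases mem_insert.1 hp with h | h
          · exact absurd h h1
          · exact absurd (mem_singleton.1 h) h2
      · intro l hl l' hl' h
        exact hfam.xi l hl l' hl' h
    have hS : L.card * L.card ≤ SF F N x y L := by
      calc L.card * L.card = ∑ _l ∈ L, L.card := by simp
        _ ≤ _ := sum_le_sum fun l hl => le_add_left (hd l hl)
    have hh' : h ≤ L.card := by simpa using hh
    nlinarith
  | succ s ih =>
    intro N J i j x y K L hJ hF hfam h hh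
    have main : ∀ (m : ℕ) (L' : Finset Λ), L'.card = m → L' ⊆ L →
        2 * h * L'.card ≤ h * L.card + 2 * 6 ^ (s + 1) * SF F N x y L' := by
      intro m
      induction m using Nat.strong_induction_on with
      | _ m ihm =>
      intro L' hm hL'
      by_cases hsmall : 2 * L'.card ≤ L.card
      · calc 2 * h * L'.card = h * (2 * L'.card) := by ring
          _ ≤ h * L.card := Nat.mul_le_mul_left _ hsmall
          _ ≤ _ := Nat.le_add_right _ _
      push Not at hsmall
      have hfam' := hfam.sub hL'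
      by_cases hbig : ∀ l ∈ L', h ≤ dF F N (y l)
      · have : h * L'.card ≤ SF F N x y L' := by
          calc h * L'.card = ∑ _l ∈ L', h := by simp [mul_comm]
            _ ≤ _ := sum_le_sum fun l hl => le_add_left (hbig l hl)
        have h6 : 1 ≤ 6 ^ (s + 1) := Nat.one_le_pow _ _ (by norm_num)
        nlinarith
      push Not at hbig
      obtain ⟨l0, hl0, hd0⟩ := hbig
      -- the map to the neighbours of `y l0`
      have hex : ∀ l ∈ L', ∃ u ∈ N.filter (F (y l0)), u = x l ∨ ∃ p ∈ J, p ≠ i ∧ p ≠ j ∧ u = K l p := by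
        intro l hl
        rcases key symm hc hF hfam' hl hl0 with h1 | ⟨p, hp, h1, h2, h3⟩
        · exact ⟨x l, mem_filter.2 ⟨hfam'.xN l hl, h1⟩, Or.inl rfl⟩
        · exact ⟨K l p, mem_filter.2 ⟨hfam'.KN l hl p hp h1 h2, h3⟩, Or.inr ⟨p, hp, h1, h2, rfl⟩⟩
      have hne : Nonempty V := ⟨x l0⟩
      choose! u huR hu using hex
      have h1 : 1 ≤ dF F N (y l0) := card_pos.2 ⟨u l0, huR l0 hl0⟩
      have hh2 : 2 ≤ h := by omega
      set h₁ := h / 2 with hh₁
      have hh₁1 : 1 ≤ h₁ := by omega
      have hle : 2 * h₁ ≤ h := by omega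
      have hle3 : h ≤ 3 * h₁ := by omega
      have hpow : h * h₁ ^ (s + 1) < L'.card := by
        have e1 : 2 * (h * h₁ ^ (s + 1)) ≤ h ^ (s + 1 + 1) := by
          calc 2 * (h * h₁ ^ (s + 1)) = h * (2 * h₁ ^ (s + 1)) := by ring
            _ ≤ h * (2 ^ (s + 1) * h₁ ^ (s + 1)) := by
                gcongr
                calc 2 = 2 ^ 1 := by norm_num
                  _ ≤ 2 ^ (s + 1) := Nat.pow_le_pow_right (by norm_num) (by omega)
            _ = h * (2 * h₁) ^ (s + 1) := by rw [mul_pow]
            _ ≤ h * h ^ (s + 1) := by gcongr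
            _ = _ := by ring
        omega
      obtain ⟨v, hvR, hv⟩ : ∃ v ∈ N.filter (F (y l0)), h₁ ^ (s + 1) ≤ (L'.filter (fun l => u l = v)).card := by
        apply exists_le_card_fiber_of_mul_le_card_of_maps_to huR ⟨_, huR l0 hl0⟩
        have : (N.filter (F (y l0))).card * h₁ ^ (s + 1) ≤ h * h₁ ^ (s + 1) :=
          Nat.mul_le_mul_right _ (le_of_lt hd0)
        omega
      set Lv := L'.filter (fun l => u l = v) with hLv
      have hLv1 : 1 ≤ Lv.card := le_trans (Nat.one_le_pow _ _ hh₁1) hv
      have hLvL : Lv ⊆ L' := filter_subset _ _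
      have hfamv := hfam'.sub hLvL
      have hsplit : SF F N x y L' = SF F N x y Lv + SF F N x y (L' \ Lv) := by
        unfold SF
        rw [add_comm, sum_sdiff hLvL]
      have hcard : L'.card = Lv.card + (L' \ Lv).card := by
        rw [card_sdiff_of_subset hLvL]
        have := card_le_card hLvL
        omega
      have ih' := ihm (L' \ Lv).card (by omega) (L' \ Lv) rfl (sdiff_subset.trans hL')
      have hpart : 2 * h * Lv.card ≤ 2 * 6 ^ (s + 1) * SF F N x y Lv := by
        by_cases hcv : c v = i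
        · -- then `v = x l` for all `l` of the fibre, which has one element
          have hx : ∀ l ∈ Lv, v = x l := by
            intro l hl
            have hl' := mem_filter.1 hl
            rcases hu l hl'.1 with e | ⟨p, hp, h2, h3, e⟩
            · rw [← hl'.2, e]
            · exfalso
              have := hfam'.Kc l hl'.1 p hp h2 h3
              rw [← e, hl'.2, hcv] at this
              exact h2 this.symm
          have hc1 : Lv.card ≤ 1 := by
            rw [card_le_one]
            intro a ha b hb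
            exact hfamv.xi a ha b hb ((hx a ha).symm.trans (hx b hb))
          have hc1' : Lv.card = 1 := by omega
          have hh1 : h₁ ≤ 1 := by
            by_contra hcon
            push Not at hcon
            have : 2 ^ (s + 1) ≤ h₁ ^ (s + 1) := Nat.pow_le_pow_left hcon _
            have h22 : 2 ≤ 2 ^ (s + 1) := by
              calc 2 = 2 ^ 1 := by norm_num
                _ ≤ 2 ^ (s + 1) := Nat.pow_le_pow_right (by norm_num) (by omega)
            omega
          have hS1 : 1 ≤ SF F N x y Lv := by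
            obtain ⟨l, hl⟩ := card_pos.1 (by omega : 0 < Lv.card)
            have : 1 ≤ dF F N (x l) + dF F N (y l) := by
              have : 1 ≤ dF F N (x l) := by
                refine card_pos.2 ⟨y l0, mem_filter.2 ⟨hfam'.yN l0 hl0, ?_⟩⟩
                rw [← hx l hl]
                exact symm _ _ (mem_filter.1 hvR).2
              omega
            exact le_trans this (single_le_sum (f := fun l => dF F N (x l) + dF F N (y l))
              (fun _ _ => Nat.zero_le _) hl)
          rw [hc1']
          have h6 : 6 ≤ 6 ^ (s + 1) := by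
            calc 6 = 6 ^ 1 := by norm_num
              _ ≤ 6 ^ (s + 1) := Nat.pow_le_pow_right (by norm_num) (by omega)
          nlinarith
        · -- then `v = K l (c v)` on the fibre
          have hKv : ∀ l ∈ Lv, c v ∈ J ∧ c v ≠ j ∧ K l (c v) = v := by
            intro l hl
            have hl' := mem_filter.1 hl
            rcases hu l hl'.1 with e | ⟨p, hp, h2, h3, e⟩
            · exfalso
              have := hfam'.xc l hl'.1
              rw [← e, hl'.2] at this
              exact hcv this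
            · have e2 := hfam'.Kc l hl'.1 p hp h2 h3
              rw [← e, hl'.2] at e2
              subst e2
              exact ⟨hp, h3, by rw [← e, hl'.2]⟩
          obtain ⟨l1, hl1⟩ := card_pos.1 (by omega : 0 < Lv.card)
          have hvN := (mem_filter.1 hvR).1
          have hJ' : (J.erase (c v)).card = s + 2 := by
            rw [card_erase_of_mem (hKv l1 hl1).1, hJ]; rfl
          have := ih _ _ i j x y K Lv hJ' (hF.erase symm hc hvN)
            (hfamv.erase (hKv l1 hl1).1 hcv (hKv l1 hl1).2.1 (fun l hl => (hKv l hl).2.2)) h₁ hv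
          have hm := SF_mono (F := F) (filter_subset (fun w => ¬ F v w) N) x y Lv
          calc 2 * h * Lv.card ≤ 2 * (3 * h₁) * Lv.card := by gcongr
            _ = 6 * (h₁ * Lv.card) := by ring
            _ ≤ 6 * (2 * 6 ^ s * SF F N x y Lv) :=
                Nat.mul_le_mul_left 6 (le_trans this (Nat.mul_le_mul_left (2 * 6 ^ s) hm))
            _ = _ := by ring
      rw [hsplit]
      calc 2 * h * L'.card = 2 * h * Lv.card + 2 * h * (L' \ Lv).card := by rw [hcard]; ring
        _ ≤ 2 * 6 ^ (s + 1) * SF F N x y Lv +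
              (h * L.card + 2 * 6 ^ (s + 1) * SF F N x y (L' \ Lv)) := Nat.add_le_add hpart ih'
        _ = _ := by ring
    have := main L.card L rfl (Subset.refl _)
    nlinarith

end

end Pool.Agent.K7.H61.TS
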